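import Pool.Agent.Helper83.UP.AbMain
import Pool.Agent.Helper23.UP.Models

/-!
# Abelian rotation part: parity and the classification
-/

namespace Pool.Agent.Helper83.UP

open Subgroup Pool.Agent.Helper23.UP

variable {m : ℕ} {G : Type} [Group G] (σ : Fin (m + 2) → G) (hσ : IsStringC σ)
  (f : Equiv.Perm (Fin (m + 2)) →* G) (hf : ∀ i, f (smp (m + 1) i) = σ i.succ)

include hσ hf in
theorem even_p (hm : 1 ≤ m) (hG : AbRot σ) : Even (orderOf (σ 0 * σ 1)) := by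
  obtain ⟨l, rfl⟩ : ∃ l, m = l + 1 := ⟨m - 1, by omega⟩
  by_contra hodd
  rw [Nat.not_even_iff_odd] at hodd
  have s0 := hσ.sq 0
  have s1 := hσ.sq 1
  have s2 := hσ.sq 2
  have v2 : ((2 : Fin (l + 1 + 2)) : ℕ) = 2 := by
    show 2 % (l + 1 + 2) = 2
    exact Nat.mod_eq_of_lt (by omega)
  have n02 : (0 : Fin (l + 1 + 2)) ≠ 2 := by
    intro h
    have := congrArg Fin.val h
    rw [v2] at this
    simp at this
  have n12 : (1 : Fin (l + 1 + 2)) ≠ 2 := by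
    intro h
    have := congrArg Fin.val h
    rw [v2] at this
    simp at this
  have n01 : (0 : Fin (l + 1 + 2)) ≠ 1 := by
    intro h
    have := congrArg Fin.val h
    simp at this
  have c02 : σ 0 * σ 2 = σ 2 * σ 0 := hσ.comm 0 2 (by rw [v2]; simp)
  -- the relation `(σ 1 σ 2) ^ 3 = 1`
  have b12 : σ 1 * σ 2 * σ 1 = σ 2 * σ 1 * σ 2 := by
    have e1 : f (smp (l + 2) 0) = σ 1 := hf 0
    have e2 : f (smp (l + 2) 1) = σ 2 := hf 1
    rw [← e1, ← e2, ← map_mul, ← map_mul, ← map_mul, ← map_mul]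
    congr 1
    have h1 : smp (l + 2) 0 = Equiv.swap 0 1 := rfl
    have h2 : smp (l + 2) 1 = Equiv.swap 1 2 := rfl
    have h3 : (Equiv.swap 1 2 * Equiv.swap 0 1 * Equiv.swap 1 2 : Equiv.Perm (Fin (l + 3))) =
        Equiv.swap 2 0 := Equiv.swap_mul_swap_mul_swap n01 n02
    have h4 : (Equiv.swap 1 0 * Equiv.swap 2 1 * Equiv.swap 1 0 : Equiv.Perm (Fin (l + 3))) =
        Equiv.swap 0 2 := Equiv.swap_mul_swap_mul_swap n12.symm n02.symm
    rw [h1, h2, h3, Equiv.swap_comm 0 1, Equiv.swap_comm 1 2, h4, Equiv.swap_comm]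
  have inv0 : (σ 0)⁻¹ = σ 0 := inv_eq_of_mul_eq_one_left s0
  have inv1 : (σ 1)⁻¹ = σ 1 := inv_eq_of_mul_eq_one_left s1
  have inv2 : (σ 2)⁻¹ = σ 2 := inv_eq_of_mul_eq_one_left s2
  obtain ⟨u, hu⟩ : ∃ u, u = σ 0 * σ 1 := ⟨_, rfl⟩
  obtain ⟨u', hu'⟩ : ∃ u', u' = σ 2 * u * (σ 2)⁻¹ := ⟨_, rfl⟩
  rw [← hu] at hodd
  -- `u` is a power of `u ^ 2`
  obtain ⟨j, hj⟩ : ∃ j : ℕ, u = (u ^ 2) ^ j := by
    obtain ⟨j, hj⟩ := hodd
    refine ⟨j + 1, ?_⟩
    rw [← pow_mul]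
    have : 2 * (j + 1) = orderOf u + 1 := by omega
    rw [this, pow_succ, pow_orderOf_eq_one, one_mul]
  have hj' : u' = (σ 2 * u ^ 2 * (σ 2)⁻¹) ^ j := by
    rw [conj_pow, ← hj]
    exact hu'
  have hcom : Commute u u' := by
    have h1 := hG 1 (σ 1) (σ 2) (σ 2 * σ 1)
    have e1 : 1 * σ 0 * 1⁻¹ * (σ 1 * σ 0 * (σ 1)⁻¹) = u ^ 2 := by
      rw [one_mul, inv_one, mul_one, inv1, hu, pow_two]
      simp only [mul_assoc]
    have e2 : σ 2 * σ 0 * (σ 2)⁻¹ * (σ 2 * σ 1 * σ 0 * (σ 2 * σ 1)⁻¹) =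
        σ 2 * u ^ 2 * (σ 2)⁻¹ := by
      rw [← e1]
      group
    rw [e1, e2] at h1
    have h2 := h1.pow_pow j j
    rw [← hj, ← hj'] at h2
    exact h2
  -- the element `g = σ 2 σ 1`
  have hg : u⁻¹ * u' = σ 2 * σ 1 := by
    rw [hu', hu, mul_inv_rev, inv0, inv1, inv2]
    calc σ 1 * σ 0 * (σ 2 * (σ 0 * σ 1) * σ 2) = σ 1 * σ 0 * (σ 2 * σ 0) * σ 1 * σ 2 := by
          simp only [mul_assoc]
      _ = σ 1 * σ 0 * (σ 0 * σ 2) * σ 1 * σ 2 := by rw [c02]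
      _ = σ 1 * (σ 0 * σ 0) * σ 2 * σ 1 * σ 2 := by simp only [mul_assoc]
      _ = σ 1 * (σ 2 * σ 1 * σ 2) := by rw [s0, mul_one]; simp only [mul_assoc]
      _ = σ 1 * (σ 1 * σ 2 * σ 1) := by rw [b12]
      _ = (σ 1 * σ 1) * σ 2 * σ 1 := by simp only [mul_assoc]
      _ = σ 2 * σ 1 := by rw [s1, one_mul]
  -- conjugation by `σ 0` inverts `g`
  have hinv : σ 0 * (σ 2 * σ 1) * σ 0 = σ 1 * σ 2 := by
    have i1 : σ 0 * u * σ 0 = u⁻¹ := by
      rw [hu, mul_inv_rev, inv0, inv1, ← mul_assoc, s0, one_mul]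
    have i2 : σ 0 * u' * σ 0 = u'⁻¹ := by
      rw [hu', inv2]
      calc σ 0 * (σ 2 * u * σ 2) * σ 0 = (σ 0 * σ 2) * u * (σ 2 * σ 0) := by
            simp only [mul_assoc]
        _ = (σ 2 * σ 0) * u * (σ 0 * σ 2) := by rw [c02]
        _ = σ 2 * (σ 0 * u * σ 0) * σ 2 := by simp only [mul_assoc]
        _ = (σ 2 * u * σ 2)⁻¹ := by
            rw [i1, mul_inv_rev, mul_inv_rev, inv2, mul_assoc]
    have i3 : σ 0 * u⁻¹ * σ 0 = u := by
      have := congrArg (fun g => g⁻¹) i1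
      simp only [mul_inv_rev, inv0, inv_inv] at this
      rw [mul_assoc]
      exact this
    calc σ 0 * (σ 2 * σ 1) * σ 0 = σ 0 * (u⁻¹ * u') * σ 0 := by rw [hg]
      _ = (σ 0 * u⁻¹ * σ 0) * (σ 0 * u' * σ 0) := by
          have : (σ 0 * u⁻¹ * σ 0) * (σ 0 * u' * σ 0) =
              σ 0 * u⁻¹ * (σ 0 * σ 0) * u' * σ 0 := by simp only [mul_assoc]
          rw [this, s0, mul_one]
          simp only [mul_assoc]
      _ = u * u'⁻¹ := by rw [i3, i2]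
      _ = u'⁻¹ * u := hcom.inv_right.eq
      _ = (u⁻¹ * u')⁻¹ := by rw [mul_inv_rev, inv_inv]
      _ = σ 1 * σ 2 := by rw [hg, mul_inv_rev, inv1, inv2]
  -- hence `σ 2` lies in the group generated by `σ 0` and `σ 1`
  have h2 : σ 2 = σ 1 * σ 0 * σ 1 * σ 0 * σ 1 := by
    have h3 : σ 0 * σ 1 * σ 0 = σ 1 * σ 2 * σ 1 := by
      calc σ 0 * σ 1 * σ 0 = (σ 2 * σ 2) * σ 0 * σ 1 * σ 0 := by rw [s2, one_mul]
        _ = σ 2 * (σ 2 * σ 0) * σ 1 * σ 0 := by simp only [mul_assoc]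
        _ = σ 2 * (σ 0 * σ 2) * σ 1 * σ 0 := by rw [c02]
        _ = σ 2 * (σ 0 * (σ 2 * σ 1) * σ 0) := by simp only [mul_assoc]
        _ = σ 2 * σ 1 * σ 2 := by rw [hinv]; simp only [mul_assoc]
        _ = _ := b12.symm
    calc σ 2 = (σ 1 * σ 1) * σ 2 * (σ 1 * σ 1) := by rw [s1, one_mul, mul_one]
      _ = σ 1 * (σ 1 * σ 2 * σ 1) * σ 1 := by simp only [mul_assoc]
      _ = σ 1 * (σ 0 * σ 1 * σ 0) * σ 1 := by rw [h3]
      _ = _ := by simp only [mul_assoc]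
  have h3 : σ 2 ∈ par σ {0, 1} ⊓ par σ {2} := by
    refine ⟨?_, mem_par σ rfl⟩
    have m0 : σ 0 ∈ par σ {0, 1} := mem_par σ (Or.inl rfl)
    have m1 : σ 1 ∈ par σ {0, 1} := mem_par σ (Or.inr rfl)
    rw [h2]
    exact mul_mem (mul_mem (mul_mem (mul_mem m1 m0) m1) m0) m1
  rw [hσ.inter] at h3
  have h4 : ({0, 1} ∩ {2} : Set (Fin (l + 1 + 2))) = ∅ := by
    ext x
    simp only [Set.mem_inter_iff, Set.mem_insert_iff, Set.mem_singleton_iff, Set.mem_empty_iff_false,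
      iff_false, not_and]
    intro h h'
    subst h'
    rcases h with h | h
    · exact n02 h.symm
    · exact n12 h.symm
  rw [h4] at h3
  unfold par at h3
  rw [Set.image_empty, Subgroup.closure_empty, mem_bot] at h3
  exact hσ.ne 2 h3

include hσ hf in
theorem q_eq (hm : 1 ≤ m) (hG : AbRot σ) :
    orderOf ((σ 0 * σ 1) ^ 2) = orderOf (σ 0 * σ 1) / 2 := by
  rw [orderOf_pow' _ (by norm_num)]
  obtain ⟨j, hj⟩ := even_p σ hσ f hf hm hG
  rw [hj, ← two_mul, Nat.gcd_comm, Nat.gcd_mul_right_right]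

theorem du_finite (q k : ℕ) (hq : q ≠ 0) : Finite (DU q k) := by
  have : NeZero q := ⟨hq⟩
  have h1 : Finite (Multiplicative (ZMod q)) := inferInstanceAs (Finite (ZMod q))
  have h2 : Finite C2 := inferInstanceAs (Finite (ZMod 2))
  have h3 : Finite (Dih q k) := Finite.of_equiv (ZV q k × C2) SemidirectProduct.equivProd.symm
  exact Finite.of_equiv (Dih q k × Equiv.Perm (Fin (k + 1))) SemidirectProduct.equivProd.symm

end Pool.Agent.Helper83.UP
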