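import Pool.Agent.Helper83.UP.AbRot

/-!
# Regular polytopes with abelian rotation part, and the simplex
-/

namespace Pool.Agent.Helper83.UP

open Subgroup Pool.Agent.Helper23.UP

section Gen

variable {k : ℕ} {H : Type} [Group H] (r : H) (ψ : Equiv.Perm (Fin (k + 2)) →* H)
  (hr : r * r = 1) (hc : ∀ w : Equiv.Perm (Fin (k + 2)), w 0 = 0 → ψ w * r = r * ψ w)

theorem two_trans (x y : Fin (k + 2)) (h : x ≠ y) :
    ∃ w : Equiv.Perm (Fin (k + 2)), w 0 = x ∧ w 1 = y := by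
  have h01 : (0 : Fin (k + 2)) ≠ 1 := by
    intro h
    have := congrArg Fin.val h
    simp at this
  refine ⟨Equiv.swap 0 x * Equiv.swap 1 (Equiv.swap 0 x y), ?_, ?_⟩
  · rw [Equiv.Perm.mul_apply, Equiv.swap_apply_of_ne_of_ne h01, Equiv.swap_apply_left]
    intro h1
    have h2 : Equiv.swap 0 x y = Equiv.swap 0 x x := by
      rw [← h1, Equiv.swap_apply_right]
    exact h ((Equiv.swap 0 x).injective h2).symm
  · rw [Equiv.Perm.mul_apply, Equiv.swap_apply_left, Equiv.swap_apply_self]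

include hc in
theorem lt_ord (x y : Fin (k + 2)) (h : x ≠ y) :
    orderOf (lt r ψ x * lt r ψ y) = orderOf (lt r ψ 0 * lt r ψ 1) := by
  obtain ⟨w, rfl, rfl⟩ := two_trans x y h
  rw [← lt_conj r ψ hc, ← lt_conj r ψ hc]
  have h1 : ψ w * lt r ψ 0 * (ψ w)⁻¹ * (ψ w * lt r ψ 1 * (ψ w)⁻¹) =
      MulAut.conj (ψ w) (lt r ψ 0 * lt r ψ 1) := by
    rw [MulAut.conj_apply]
    group
  rw [h1]
  exact MulEquiv.orderOf_eq (MulAut.conj (ψ w)) _

include hr hc in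
theorem lt_pow (x y : Fin (k + 2)) :
    (lt r ψ x * lt r ψ y) ^ (orderOf (lt r ψ 0 * lt r ψ 1)) = 1 := by
  by_cases h : x = y
  · rw [h, lt_sq r ψ hr, one_pow]
  · rw [← lt_ord r ψ hc x y h]
    exact pow_orderOf_eq_one _

end Gen

section G

variable {m : ℕ} {G : Type} [Group G] (σ : Fin (m + 2) → G) (hσ : IsStringC σ)
  (f : Equiv.Perm (Fin (m + 2)) →* G) (hf : ∀ i, f (smp (m + 1) i) = σ i.succ)

include hσ hf in
theorem comm_G (w : Equiv.Perm (Fin (m + 2))) (hw : w 0 = 0) : f w * σ 0 = σ 0 * f w :=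
  comm_zero (smp (m + 1)) σ f hf hσ w ((mem_vertSub_smp m w).2 hw)

include hσ hf in
theorem lt_01 : lt (σ 0) f 0 * lt (σ 0) f 1 = (σ 0 * σ 1) ^ 2 := by
  rw [lt_zero]
  unfold lt
  have h1 : f (Equiv.swap 0 1) = σ 1 := hf 0
  rw [h1, inv_eq_of_mul_eq_one_left (hσ.sq 1), pow_two]
  simp only [mul_assoc]

include hf in
theorem vert_range : vertSub σ = f.range := by
  rw [MonoidHom.range_eq_map, ← (smp_str (m + 1)).gen, par_map]
  have h1 : (fun i => f (smp (m + 1) i)) = fun i => σ i.succ := funext hf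
  rw [h1, par_succ]
  unfold vertSub
  congr 1
  ext i
  constructor
  · intro hi
    have hi' : i ≠ 0 := fun h => hi (by rw [h]; rfl)
    obtain ⟨j, rfl⟩ := Fin.exists_succ_eq.2 hi'
    exact ⟨j, trivial, rfl⟩
  · rintro ⟨j, _, rfl⟩
    show ((j.succ : Fin (m + 2)) : ℕ) ≠ 0
    simp

include hf in
theorem card_G (hinj : Function.Injective f) :
    Nat.card G = (vertSub σ).index * (m + 2).factorial := by
  rw [← Subgroup.index_mul_card (vertSub σ), vert_range σ f hf]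
  congr 1
  rw [← Nat.card_congr (MonoidHom.ofInjective hinj).toEquiv, Nat.card_perm, Nat.card_fin]

/-- the products of two conjugates of the first generator commute -/
def AbRot (σ : Fin (m + 2) → G) : Prop :=
  ∀ a b c d : G, Commute ((a * σ 0 * a⁻¹) * (b * σ 0 * b⁻¹)) ((c * σ 0 * c⁻¹) * (d * σ 0 * d⁻¹))

theorem ab_G (hG : AbRot σ) (x y z w : Fin (m + 2)) :
    Commute (lt (σ 0) f x * lt (σ 0) f y) (lt (σ 0) f z * lt (σ 0) f w) :=
  hG _ _ _ _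

include hσ hf in
theorem pow_G (x y : Fin (m + 2)) :
    (lt (σ 0) f x * lt (σ 0) f y) ^ (orderOf ((σ 0 * σ 1) ^ 2)) = 1 := by
  rw [← lt_01 σ hσ f hf]
  exact lt_pow (σ 0) f (hσ.sq 0) (comm_G σ hσ f hf) x y

/-- the homomorphism to the group of the facets -/
noncomputable def PhiG (hG : AbRot σ) : DU (orderOf ((σ 0 * σ 1) ^ 2)) (m + 1) →* G :=
  Phi (σ 0) f (hσ.sq 0) (comm_G σ hσ f hf) (ab_G σ f hG) (pow_G σ hσ f hf)

theorem PhiG_gen (hG : AbRot σ) (i : Fin (m + 2)) :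
    PhiG σ hσ f hf hG (dgen _ (m + 1) i) = σ i := by
  refine Fin.cases ?_ (fun i => ?_) i
  · exact Phi_zero _ _ _ _ _ _
  · rw [← hf]
    exact Phi_succ _ _ _ _ _ _ i

theorem PhiG_surj (hG : AbRot σ) : Function.Surjective (PhiG σ hσ f hf hG) := by
  rw [← MonoidHom.range_eq_top, eq_top_iff, ← hσ.gen]
  unfold par
  rw [closure_le]
  rintro _ ⟨i, _, rfl⟩
  exact ⟨dgen _ (m + 1) i, PhiG_gen σ hσ f hf hG i⟩

end G

section Big

variable {m : ℕ} {G Γ : Type} [Group G] [Group Γ] (σ : Fin (m + 2) → G) (hσ : IsStringC σ)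
  (f : Equiv.Perm (Fin (m + 2)) →* G) (hf : ∀ i, f (smp (m + 1) i) = σ i.succ)
  (ρ : Fin (m + 3) → Γ) (hρ : IsStringC ρ) (θ : G →* Γ) (hθ : ∀ i, θ (σ i) = ρ i.castSucc)
  (ψ : Equiv.Perm (Fin (m + 3)) →* Γ) (hψ : ∀ i, ψ (smp (m + 2) i) = ρ i.succ)

include hf hθ hψ in
theorem compat (π : Equiv.Perm (Fin (m + 2))) : θ (f π) = ψ (iota (m + 1) π) := by
  have h : θ.comp f = ψ.comp (iota (m + 1)) := by
    apply MonoidHom.eq_of_eqOn_dense (smp_str (m + 1)).gen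
    rintro _ ⟨i, _, rfl⟩
    show θ (f (smp (m + 1) i)) = ψ (iota (m + 1) (smp (m + 1) i))
    rw [hf, iota_smp, hθ, hψ, Fin.succ_castSucc]
  exact DFunLike.congr_fun h π

include hf hθ hψ hρ in
theorem theta_lt (x : Fin (m + 2)) : θ (lt (σ 0) f x) = lt (ρ 0) ψ x.castSucc := by
  have h1 := lt_eq (ρ 0) ψ (comm_G ρ hρ ψ hψ) (iota (m + 1) (Equiv.swap 0 x))
  have h2 : iota (m + 1) (Equiv.swap 0 x) 0 = x.castSucc := by
    have := iota_cast (Equiv.swap 0 x) 0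
    rwa [Equiv.swap_apply_left] at this
  rw [h2] at h1
  rw [← h1, ← compat σ f hf ρ θ hθ ψ hψ]
  unfold lt
  rw [map_mul, map_mul, map_inv, hθ]
  rfl

include hf hθ hψ hρ in
/-- three letters come from the facets -/
theorem triple (hm : 1 ≤ m) (x y z : Fin (m + 3)) :
    ∃ (F : G →* Γ) (a b c : Fin (m + 2)), F (lt (σ 0) f a) = lt (ρ 0) ψ x ∧
      F (lt (σ 0) f b) = lt (ρ 0) ψ y ∧ F (lt (σ 0) f c) = lt (ρ 0) ψ z := by
  obtain ⟨u, hx, hy, hz⟩ := exists_ne3 (m + 2) (by omega) x y z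
  have key : ∀ v : Fin (m + 3), u ≠ v → ∃ a : Fin (m + 2),
      Equiv.swap (Fin.last (m + 2)) u a.castSucc = v := by
    intro v hv
    have h1 : Equiv.swap (Fin.last (m + 2)) u v ≠ Fin.last (m + 2) := by
      intro h
      have h2 := Equiv.swap_apply_self (Fin.last (m + 2)) u v
      rw [h, Equiv.swap_apply_left] at h2
      exact hv h2
    refine ⟨(Equiv.swap (Fin.last (m + 2)) u v).castPred h1, ?_⟩
    rw [Fin.castSucc_castPred, Equiv.swap_apply_self]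
  obtain ⟨a, ha⟩ := key x hx
  obtain ⟨b, hb⟩ := key y hy
  obtain ⟨c, hcc⟩ := key z hz
  have h1 : ∀ a : Fin (m + 2), ((MulAut.conj (ψ (Equiv.swap (Fin.last (m + 2)) u))).toMonoidHom.comp
      θ) (lt (σ 0) f a) = lt (ρ 0) ψ (Equiv.swap (Fin.last (m + 2)) u a.castSucc) := by
    intro a
    rw [← lt_conj (ρ 0) ψ (comm_G ρ hρ ψ hψ), ← theta_lt σ f hf ρ hρ θ hθ ψ hψ]
    rfl
  exact ⟨_, a, b, c, by rw [h1, ha], by rw [h1, hb], by rw [h1, hcc]⟩

include hf hθ hψ hρ in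
theorem ab_big (hm : 1 ≤ m) (hG : AbRot σ) (x y z w : Fin (m + 3)) :
    Commute (lt (ρ 0) ψ x * lt (ρ 0) ψ y) (lt (ρ 0) ψ z * lt (ρ 0) ψ w) := by
  have key : ∀ z, Commute (lt (ρ 0) ψ x * lt (ρ 0) ψ y) (lt (ρ 0) ψ z * lt (ρ 0) ψ x) := by
    intro z
    obtain ⟨F, a, b, c, h1, h2, h3⟩ := triple σ f hf ρ hρ θ hθ ψ hψ hm x y z
    rw [← h1, ← h2, ← h3, ← map_mul, ← map_mul]
    exact (ab_G σ f hG a b c a).map F
  have e1 : lt (ρ 0) ψ z * lt (ρ 0) ψ w =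
      (lt (ρ 0) ψ z * lt (ρ 0) ψ x) * (lt (ρ 0) ψ w * lt (ρ 0) ψ x)⁻¹ := by
    rw [mul_inv_rev, inv_eq_of_mul_eq_one_left (lt_sq (ρ 0) ψ (hρ.sq 0) x),
      inv_eq_of_mul_eq_one_left (lt_sq (ρ 0) ψ (hρ.sq 0) w)]
    calc lt (ρ 0) ψ z * lt (ρ 0) ψ w = lt (ρ 0) ψ z * 1 * lt (ρ 0) ψ w := by rw [mul_one]
      _ = lt (ρ 0) ψ z * (lt (ρ 0) ψ x * lt (ρ 0) ψ x) * lt (ρ 0) ψ w := by
          rw [lt_sq (ρ 0) ψ (hρ.sq 0) x]
      _ = _ := by simp only [mul_assoc]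
  rw [e1]
  exact (key z).mul_right (key w).inv_right

include hσ hf hθ hψ hρ in
theorem lt_01_big : lt (ρ 0) ψ 0 * lt (ρ 0) ψ 1 = θ ((σ 0 * σ 1) ^ 2) := by
  rw [← lt_01 σ hσ f hf, map_mul, theta_lt σ f hf ρ hρ θ hθ ψ hψ,
    theta_lt σ f hf ρ hρ θ hθ ψ hψ]
  rfl

include hσ hf hθ hψ hρ in
theorem pow_big (x y : Fin (m + 3)) :
    (lt (ρ 0) ψ x * lt (ρ 0) ψ y) ^ (orderOf ((σ 0 * σ 1) ^ 2)) = 1 := by
  by_cases h : x = y
  · rw [h, lt_sq (ρ 0) ψ (hρ.sq 0), one_pow]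
  · have h1 := lt_ord (ρ 0) ψ (comm_G ρ hρ ψ hψ) x y h
    rw [lt_01_big σ hσ f hf ρ hρ θ hθ ψ hψ] at h1
    have h2 : orderOf (lt (ρ 0) ψ x * lt (ρ 0) ψ y) ∣ orderOf ((σ 0 * σ 1) ^ 2) := by
      rw [h1]
      exact orderOf_map_dvd θ _
    exact orderOf_dvd_iff_pow_eq_one.1 h2

include hσ hf hθ hψ hρ in
/-- the polytope with generalised dihedral group covers all -/
theorem exists_Phi (hm : 1 ≤ m) (hG : AbRot σ) :
    ∃ g : DU (orderOf ((σ 0 * σ 1) ^ 2)) (m + 2) →* Γ, ∀ i, g (dgen _ (m + 2) i) = ρ i := by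
  refine ⟨Phi (ρ 0) ψ (hρ.sq 0) (comm_G ρ hρ ψ hψ) (ab_big σ f hf ρ hρ θ hθ ψ hψ hm hG)
    (pow_big σ hσ f hf ρ hρ θ hθ ψ hψ), ?_⟩
  intro i
  refine Fin.cases ?_ (fun i => ?_) i
  · exact Phi_zero _ _ _ _ _ _
  · rw [← hψ]
    exact Phi_succ _ _ _ _ _ _ i

include hρ hθ hψ in
/-- if the facets occur, their group is the generalised dihedral one -/
theorem PhiG_inj (hm : 1 ≤ m) (hG : AbRot σ) (hθi : Function.Injective θ)
    (hψi : Function.Injective ψ) : Function.Injective (PhiG σ hσ f hf hG) := by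
  set q := orderOf ((σ 0 * σ 1) ^ 2) with hq
  have hc := comm_G ρ hρ ψ hψ
  have hab := ab_big σ f hf ρ hρ θ hθ ψ hψ hm hG
  have hpow := pow_big σ hσ f hf ρ hρ θ hθ ψ hψ
  have hord : ∀ x y, x ≠ y → orderOf (lt (ρ 0) ψ x * lt (ρ 0) ψ y) = q := by
    intro x y h
    rw [lt_ord (ρ 0) ψ hc x y h, lt_01_big σ hσ f hf ρ hρ θ hθ ψ hψ]
    exact orderOf_injective θ hθi _
  rw [injective_iff_map_eq_one]
  intro a ha
  have h1 : a = SemidirectProduct.inl a.left * SemidirectProduct.inr a.right :=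
    (SemidirectProduct.inl_left_mul_inr_right a).symm
  have h2 : PhiG σ hσ f hf hG a =
      phi (σ 0) f (hσ.sq 0) (ab_G σ f hG) (pow_G σ hσ f hf) a.left * f a.right := by
    conv_lhs => rw [h1, map_mul]
    unfold PhiG Phi
    rw [SemidirectProduct.lift_inl, SemidirectProduct.lift_inr]
  have h3 : ∀ n, θ (phi (σ 0) f (hσ.sq 0) (ab_G σ f hG) (pow_G σ hσ f hf) n) =
      phi (ρ 0) ψ (hρ.sq 0) hab hpow (demb q (m + 1) n) := by
    intro n
    have h4 : θ.comp (phi (σ 0) f (hσ.sq 0) (ab_G σ f hG) (pow_G σ hσ f hf)) =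
      (phi (ρ 0) ψ (hρ.sq 0) hab hpow).comp (demb q (m + 1)) := by
      apply dih_ext
      intro x
      rw [MonoidHom.comp_apply, MonoidHom.comp_apply, phi_el, demb_el, phi_el,
        theta_lt σ f hf ρ hρ θ hθ ψ hψ]
    exact DFunLike.congr_fun h4 n
  rw [h2] at ha
  have h5 := congrArg θ ha
  rw [map_mul, h3, compat σ f hf ρ θ hθ ψ hψ, map_one] at h5
  have h6 : phi (ρ 0) ψ (hρ.sq 0) hab hpow (demb q (m + 1) a.left) =
      ψ (iota (m + 1) a.right)⁻¹ := by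
    rw [map_inv]
    exact eq_inv_of_mul_eq_one_left h5
  have h7 := all_inter (ρ 0) ψ (hρ.sq 0) hψi hc hab hpow hord (by omega) _ _ h6
  rw [h7, map_one, ← SemidirectProduct.inl_left_mul_inr_right a.left] at h6
  have h8 := phi_demb_inj (ρ 0) ψ (hρ.sq 0) (hρ.ne 0) hc hab hpow hord _ _ h6
  rw [h1, ← SemidirectProduct.inl_left_mul_inr_right a.left, h8.1, h8.2]
  have h9 : a.right = 1 := by
    rw [inv_eq_one] at h7
    exact iota_inj (m + 1) (h7.trans (map_one _).symm)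
  rw [h9, map_one, map_one, map_one, mul_one, mul_one, map_one]

end Big

end Pool.Agent.Helper83.UP
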