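import Pool.Agent.Helper83.UP.SymL

/-!
# Abelian rotation subgroups and the simplex: no further relations
-/

namespace Pool.Agent.Helper83.UP

open Subgroup Pool.Agent.Helper23.UP

variable {q k : ℕ}

/-- adding a trivial coordinate -/
def zext (q k : ℕ) : ZV q k →* ZV q (k + 1) where
  toFun v := Fin.snoc (α := fun _ => Multiplicative (ZMod q)) v 1
  map_one' := by
    funext j
    refine Fin.lastCases ?_ (fun i => ?_) j
    · rw [Fin.snoc_last]; rfl
    · rw [Fin.snoc_castSucc]; rfl
  map_mul' a b := by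
    funext j
    refine Fin.lastCases ?_ (fun i => ?_) j
    · rw [Pi.mul_apply, Fin.snoc_last, Fin.snoc_last, Fin.snoc_last, mul_one]
    · rw [Pi.mul_apply, Fin.snoc_castSucc, Fin.snoc_castSucc, Fin.snoc_castSucc]; rfl

theorem zext_cast (v : ZV q k) (i : Fin k) : zext q k v i.castSucc = v i :=
  Fin.snoc_castSucc (α := fun _ => Multiplicative (ZMod q)) _ _ _

theorem zext_last (v : ZV q k) : zext q k v (Fin.last k) = 1 :=
  Fin.snoc_last (α := fun _ => Multiplicative (ZMod q)) _ _

theorem zext_single (j : Fin k) (x : Multiplicative (ZMod q)) :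
    zext q k (Pi.mulSingle j x) = Pi.mulSingle j.castSucc x := by
  funext l
  refine Fin.lastCases ?_ (fun i => ?_) l
  · rw [zext_last, Pi.mulSingle_eq_of_ne (Fin.castSucc_ne_last j).symm]
  · rw [zext_cast]
    by_cases h : i = j
    · rw [h, Pi.mulSingle_eq_same, Pi.mulSingle_eq_same]
    · rw [Pi.mulSingle_eq_of_ne h, Pi.mulSingle_eq_of_ne
        (fun h' => h (Fin.castSucc_injective _ h'))]

theorem demb_inl (v : ZV q k) : demb q k (SemidirectProduct.inl v) =
    SemidirectProduct.inl (zext q k v) := by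
  have h : (demb q k).comp (SemidirectProduct.inl : ZV q k →* Dih q k) =
      (SemidirectProduct.inl : ZV q (k + 1) →* Dih q (k + 1)).comp (zext q k) := by
    apply MonoidHom.pi_ext
    intro j x
    obtain ⟨n, rfl⟩ := exists_int x
    show demb q k (SemidirectProduct.inl _) = SemidirectProduct.inl (zext q k _)
    rw [zext_single, el_single, el_single, map_zpow, map_mul, demb_el, demb_el]
    rfl
  exact DFunLike.congr_fun h v

/-- permuting the coordinates -/
def zperm (e : Equiv.Perm (Fin k)) : ZV q k →* ZV q k where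
  toFun v := fun j => v (e j)
  map_one' := rfl
  map_mul' _ _ := rfl

theorem dact_inl (π : Equiv.Perm (Fin (k + 1))) (e : Equiv.Perm (Fin k)) (h0 : π 0 = 0)
    (he : ∀ j, π (e j).succ = j.succ) (v : ZV q k) :
    dact q k π (SemidirectProduct.inl v) = SemidirectProduct.inl (zperm e v) := by
  have h : (dact q k π).toMonoidHom.comp (SemidirectProduct.inl : ZV q k →* Dih q k) =
      (SemidirectProduct.inl : ZV q k →* Dih q k).comp (zperm e) := by
    apply MonoidHom.pi_ext
    intro j x
    obtain ⟨n, rfl⟩ := exists_int x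
    show dact q k π (SemidirectProduct.inl _) = SemidirectProduct.inl (zperm e _)
    have h1 : zperm e (Pi.mulSingle j (Multiplicative.ofAdd (n : ZMod q)) : ZV q k) =
        Pi.mulSingle (e.symm j) (Multiplicative.ofAdd (n : ZMod q)) := by
      funext l
      show (Pi.mulSingle j (Multiplicative.ofAdd (n : ZMod q)) : ZV q k) (e l) = _
      by_cases hl : l = e.symm j
      · rw [hl, Equiv.apply_symm_apply, Pi.mulSingle_eq_same, Pi.mulSingle_eq_same]
      · rw [Pi.mulSingle_eq_of_ne hl, Pi.mulSingle_eq_of_ne]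
        intro h2
        exact hl (by rw [← h2, Equiv.symm_apply_apply])
    rw [h1, el_single, el_single, map_zpow, map_mul, dact_el, dact_el, h0]
    have h2 := he (e.symm j)
    rw [Equiv.apply_symm_apply] at h2
    rw [h2]
  exact DFunLike.congr_fun h v

theorem dact_inr (π : Equiv.Perm (Fin (k + 1))) (h0 : π 0 = 0) (s : C2) :
    dact q k π (SemidirectProduct.inr s) = SemidirectProduct.inr s := by
  rcases c2c s with rfl | rfl
  · rw [map_one, map_one]
  · rw [← el_zero, dact_el, h0]

section Swap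

variable {H : Type} [Group H] (r : H) (ψ : Equiv.Perm (Fin (k + 2)) →* H) (hr : r * r = 1)
  (hr1 : r ≠ 1)
  (hc : ∀ w : Equiv.Perm (Fin (k + 2)), w 0 = 0 → ψ w * r = r * ψ w)
  (hab : ∀ x y z w, Commute (lt r ψ x * lt r ψ y) (lt r ψ z * lt r ψ w))
  (hpow : ∀ x y, (lt r ψ x * lt r ψ y) ^ q = 1)
  (hord : ∀ x y, x ≠ y → orderOf (lt r ψ x * lt r ψ y) = q)

include hord in
theorem pow_eq (x y z : Fin (k + 2)) (hxy : x ≠ y) (n : ℤ)
    (h : (lt r ψ x * lt r ψ z) ^ n = (lt r ψ y * lt r ψ z) ^ n)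
    (hr : r * r = 1) (hab : ∀ x y z w, Commute (lt r ψ x * lt r ψ y) (lt r ψ z * lt r ψ w)) :
    (q : ℤ) ∣ n := by
  rw [← hord x y hxy, orderOf_dvd_iff_zpow_eq_one]
  have h1 : lt r ψ x * lt r ψ y = (lt r ψ x * lt r ψ z) * (lt r ψ y * lt r ψ z)⁻¹ := by
    rw [mul_inv_rev, inv_eq_of_mul_eq_one_left (lt_sq r ψ hr z),
      inv_eq_of_mul_eq_one_left (lt_sq r ψ hr y)]
    calc lt r ψ x * lt r ψ y = lt r ψ x * 1 * lt r ψ y := by rw [mul_one]
      _ = lt r ψ x * (lt r ψ z * lt r ψ z) * lt r ψ y := by rw [lt_sq r ψ hr z]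
      _ = _ := by simp only [mul_assoc]
  rw [h1, (hab x z y z).inv_right.mul_zpow, inv_zpow, h, mul_inv_cancel]

include hc hord hr1 in
theorem phi_demb_inj (v : ZV q k) (s : C2)
    (h : phi r ψ hr hab hpow (demb q k (SemidirectProduct.inl v * SemidirectProduct.inr s)) = 1) :
    v = 1 ∧ s = 1 := by
  have hs : demb q k (SemidirectProduct.inr s) = SemidirectProduct.inr s := by
    rcases c2c s with rfl | rfl
    · rw [map_one, map_one, map_one]
    · rw [← el_zero, demb_el, ← el_zero]
      rfl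
  rw [map_mul, demb_inl, hs] at h
  have hv : v = 1 := by
    funext i
    show v i = 1
    obtain ⟨n, hn⟩ := exists_int (v i)
    set π : Equiv.Perm (Fin (k + 2)) := Equiv.swap i.castSucc.succ (Fin.last k).succ with hπ
    set e : Equiv.Perm (Fin (k + 1)) := Equiv.swap i.castSucc (Fin.last k) with he
    have hne : i.castSucc ≠ Fin.last k := Fin.castSucc_ne_last i
    have h0 : π 0 = 0 := by
      rw [hπ]
      exact Equiv.swap_apply_of_ne_of_ne (Fin.succ_ne_zero _).symm (Fin.succ_ne_zero _).symm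
    have he' : ∀ j, π (e j).succ = j.succ := by
      intro j
      rw [hπ, he]
      by_cases h1 : j = i.castSucc
      · rw [h1, Equiv.swap_apply_left, Equiv.swap_apply_right]
      · by_cases h2 : j = Fin.last k
        · rw [h2, Equiv.swap_apply_right, Equiv.swap_apply_left]
        · rw [Equiv.swap_apply_of_ne_of_ne h1 h2, Equiv.swap_apply_of_ne_of_ne
            (fun h => h1 (Fin.succ_injective _ h)) (fun h => h2 (Fin.succ_injective _ h))]
    have h1 := phi_act r ψ hr hc hab hpow π
      (SemidirectProduct.inl (zext q k v) * SemidirectProduct.inr s)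
    rw [h, mul_one, mul_inv_cancel, map_mul, dact_inl π e h0 he', dact_inr π h0] at h1
    have h2 : phi r ψ hr hab hpow (SemidirectProduct.inl (zext q k v)) =
        phi r ψ hr hab hpow (SemidirectProduct.inl (zperm e (zext q k v))) := by
      rw [map_mul] at h h1
      exact mul_right_cancel (h.trans h1.symm)
    have h3 : zext q k v = zperm e (zext q k v) * (Pi.mulSingle i.castSucc (v i) *
        (Pi.mulSingle (Fin.last k) (v i))⁻¹) := by
      funext j
      show zext q k v j = zext q k v (e j) *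
        ((Pi.mulSingle i.castSucc (v i) : ZV q (k + 1)) j *
        ((Pi.mulSingle (Fin.last k) (v i) : ZV q (k + 1)) j)⁻¹)
      rw [he]
      by_cases h1 : j = i.castSucc
      · rw [h1, Equiv.swap_apply_left, Pi.mulSingle_eq_same, Pi.mulSingle_eq_of_ne hne,
          zext_last, zext_cast, one_mul, inv_one, mul_one]
      · by_cases h2 : j = Fin.last k
        · rw [h2, Equiv.swap_apply_right, Pi.mulSingle_eq_same,
            Pi.mulSingle_eq_of_ne hne.symm, zext_last, zext_cast, one_mul, mul_inv_cancel]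
        · rw [Equiv.swap_apply_of_ne_of_ne h1 h2, Pi.mulSingle_eq_of_ne h1,
            Pi.mulSingle_eq_of_ne h2, inv_one, mul_one, mul_one]
    have h3' : (zperm e (zext q k v))⁻¹ * zext q k v = Pi.mulSingle i.castSucc (v i) *
        (Pi.mulSingle (Fin.last k) (v i))⁻¹ := inv_mul_eq_iff_eq_mul.2 h3
    have h4 : phi r ψ hr hab hpow (SemidirectProduct.inl (Pi.mulSingle i.castSucc (v i) *
        (Pi.mulSingle (Fin.last k) (v i))⁻¹)) = 1 := by
      rw [← h3', map_mul SemidirectProduct.inl, map_mul, h2, ← map_mul, ← map_mul,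
        inv_mul_cancel, map_one, map_one]
    rw [map_mul SemidirectProduct.inl, map_mul, map_inv SemidirectProduct.inl, map_inv,
      mul_inv_eq_one, hn, el_single, el_single, map_zpow, map_zpow, map_mul, map_mul, phi_el,
      phi_el, phi_el] at h4
    have h5 := pow_eq r ψ hord _ _ _ (fun h => hne (Fin.succ_injective _ h)) n h4 hr hab
    rw [hn, (ZMod.intCast_zmod_eq_zero_iff_dvd n q).2 h5]
    rfl
  refine ⟨hv, ?_⟩
  rcases c2c s with rfl | rfl
  · rfl
  · rw [hv, map_one, map_one, one_mul, ← el_zero, phi_el, lt_zero] at h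
    exact absurd h hr1

end Swap

theorem el_inl (x : Fin (k + 1)) (v : ZV q k) :
    el q k x * SemidirectProduct.inl v = SemidirectProduct.inl v⁻¹ * el q k x := by
  unfold el
  calc SemidirectProduct.inl (ec q k x) * SemidirectProduct.inr z2 * SemidirectProduct.inl v
      = SemidirectProduct.inl (ec q k x) * (SemidirectProduct.inr z2 *
        SemidirectProduct.inl v) := by rw [mul_assoc]
    _ = SemidirectProduct.inl (ec q k x) * SemidirectProduct.inl v⁻¹ *
        SemidirectProduct.inr z2 := by rw [inr_inl, mul_assoc]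
    _ = SemidirectProduct.inl v⁻¹ * SemidirectProduct.inl (ec q k x) *
        SemidirectProduct.inr z2 := by rw [← map_mul, mul_comm, map_mul]
    _ = _ := by rw [mul_assoc]

theorem dact_right (w : Equiv.Perm (Fin (k + 1))) (n : Dih q k) :
    (dact q k w n).right = n.right := by
  have h : (SemidirectProduct.rightHom : Dih q k →* C2).comp (dact q k w).toMonoidHom =
      (SemidirectProduct.rightHom : Dih q k →* C2) := by
    apply dih_ext
    intro x
    show (dact q k w (el q k x)).right = (el q k x).right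
    rw [dact_el]
    unfold el
    rw [SemidirectProduct.mul_right, SemidirectProduct.mul_right]
    rfl
  exact DFunLike.congr_fun h n

theorem exists_inl (n : Dih q k) (h : n.right = 1) : ∃ v, n = SemidirectProduct.inl v := by
  refine ⟨n.left, ?_⟩
  rw [← SemidirectProduct.inl_left_mul_inr_right n]
  rw [h, map_one, mul_one, SemidirectProduct.left_inl]

theorem exists_ne3 (K : ℕ) (hK : 3 ≤ K) (x y w : Fin (K + 1)) :
    ∃ z : Fin (K + 1), z ≠ x ∧ z ≠ y ∧ z ≠ w := by
  classical
  by_contra hcon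
  push Not at hcon
  have h1 : ({x, y, w} : Finset (Fin (K + 1))) = Finset.univ := by
    apply Finset.eq_univ_iff_forall.2
    intro z
    rw [Finset.mem_insert, Finset.mem_insert, Finset.mem_singleton]
    by_cases h1 : z = x
    · exact Or.inl h1
    · by_cases h2 : z = y
      · exact Or.inr (Or.inl h2)
      · exact Or.inr (Or.inr (hcon z h1 h2))
  have h2 := congrArg Finset.card h1
  rw [Finset.card_univ, Fintype.card_fin] at h2
  have h3 := Finset.card_le_three (a := x) (b := y) (c := w)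
  omega

section NW

variable {H : Type} [Group H] (r : H) (ψ : Equiv.Perm (Fin (k + 1)) →* H) (hr : r * r = 1)
  (hψ : Function.Injective ψ)
  (hc : ∀ w : Equiv.Perm (Fin (k + 1)), w 0 = 0 → ψ w * r = r * ψ w)
  (hab : ∀ x y z w, Commute (lt r ψ x * lt r ψ y) (lt r ψ z * lt r ψ w))
  (hpow : ∀ x y, (lt r ψ x * lt r ψ y) ^ q = 1)
  (hord : ∀ x y, x ≠ y → orderOf (lt r ψ x * lt r ψ y) = q)

include hord in
theorem lt_inj (hr : r * r = 1) (hq : q ≠ 1) (x y : Fin (k + 1)) (h : lt r ψ x = lt r ψ y) :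
    x = y := by
  by_contra hne
  have h1 := hord x y hne
  rw [h, lt_sq r ψ hr, orderOf_one] at h1
  exact hq h1.symm

include hc in
theorem move (v : ZV q k) (κ : Equiv.Perm (Fin (k + 1)))
    (h : phi r ψ hr hab hpow (SemidirectProduct.inl v) = ψ κ) (x : Fin (k + 1)) :
    lt r ψ (κ x) * lt r ψ x = ψ κ * ψ κ := by
  have h1 : lt r ψ x * (ψ κ)⁻¹ = ψ κ * lt r ψ x := by
    have h2 := congrArg (phi r ψ hr hab hpow) (el_inl (q := q) x v⁻¹)
    rw [inv_inv, map_mul, map_mul, phi_el, map_inv SemidirectProduct.inl, map_inv, h] at h2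
    exact h2
  rw [← lt_conj r ψ hc κ x, mul_assoc (ψ κ), h1]
  calc ψ κ * (ψ κ * lt r ψ x) * lt r ψ x = ψ κ * ψ κ * (lt r ψ x * lt r ψ x) := by
        simp only [mul_assoc]
    _ = ψ κ * ψ κ := by rw [lt_sq r ψ hr, mul_one]

include hc hord in
theorem fix_one (hq : q ≠ 1) (v : ZV q k) (κ : Equiv.Perm (Fin (k + 1)))
    (h : phi r ψ hr hab hpow (SemidirectProduct.inl v) = ψ κ) (x : Fin (k + 1))
    (hx : κ x = x) : κ = 1 := by
  have h1 := move r ψ hr hc hab hpow v κ h
  have h2 := h1 x
  rw [hx, lt_sq r ψ hr] at h2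
  ext y
  have h3 := h1 y
  rw [← h2, mul_eq_one_iff_eq_inv, inv_eq_of_mul_eq_one_left (lt_sq r ψ hr y)] at h3
  rw [lt_inj r ψ hord hr hq _ _ h3]
  rfl

include hc hord hψ in
theorem rot_inter (hk : 3 ≤ k) (v : ZV q k) (κ : Equiv.Perm (Fin (k + 1)))
    (h : phi r ψ hr hab hpow (SemidirectProduct.inl v) = ψ κ) : κ = 1 := by
  by_cases hq : q = 1
  · subst hq
    have hv : v = 1 := by
      funext i
      exact Subsingleton.elim (α := ZMod 1) _ _
    rw [hv, map_one, map_one, ← map_one ψ] at h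
    exact (hψ h).symm
  by_contra hne
  have hfix : ∀ x, κ x ≠ x := fun x hx => hne (fix_one r ψ hr hc hab hpow hord hq v κ h x hx)
  have hm := move r ψ hr hc hab hpow v κ h
  by_cases hw : κ (κ 0) = 0
  · have h2 : phi r ψ hr hab hpow (SemidirectProduct.inl (v * v)) = ψ (κ * κ) := by
      rw [map_mul, map_mul, map_mul, h]
    have h3 := fix_one r ψ hr hc hab hpow hord hq (v * v) (κ * κ) h2 0 hw
    have h4 := hm 0
    rw [← map_mul, h3, map_one, mul_eq_one_iff_eq_inv,
      inv_eq_of_mul_eq_one_left (lt_sq r ψ hr 0)] at h4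
    exact hfix 0 (lt_inj r ψ hord hr hq _ _ h4)
  · obtain ⟨z, hz0, hzy, hzw⟩ := exists_ne3 k hk 0 (κ 0) (κ (κ 0))
    set g : Equiv.Perm (Fin (k + 1)) := Equiv.swap 0 z with hg
    obtain ⟨u, hu⟩ := exists_inl (dact q k g (SemidirectProduct.inl v)) (by
      rw [dact_right]; rfl)
    have h5 : phi r ψ hr hab hpow (SemidirectProduct.inl u) = ψ (g * κ * g⁻¹) := by
      rw [← hu, phi_act r ψ hr hc hab hpow, h, map_mul, map_mul, map_inv]
    have h6 : (g * κ * g⁻¹) * κ = κ * (g * κ * g⁻¹) := by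
      apply hψ
      rw [map_mul, map_mul ψ κ, ← h5, ← h, ← map_mul, ← map_mul, ← map_mul, ← map_mul, mul_comm]
    have hgi : g⁻¹ = g := Equiv.swap_inv 0 z
    have e1 : g z = 0 := Equiv.swap_apply_right 0 z
    have e2 : g (κ 0) = κ 0 := Equiv.swap_apply_of_ne_of_ne (hfix 0) hzy.symm
    have e3 : g (κ (κ 0)) = κ (κ 0) := Equiv.swap_apply_of_ne_of_ne hw hzw.symm
    have h7 := DFunLike.congr_fun h6 z
    rw [hgi] at h7
    simp only [Equiv.Perm.mul_apply] at h7
    rw [e1, e2] at h7
    -- `h7 : g (κ (g (κ z))) = κ (κ 0)`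
    have h8 : g (κ (g (κ z))) = g (κ (κ 0)) := by rw [h7, e3]
    have h9 : g (κ z) = κ 0 := κ.injective (g.injective h8)
    have h10 : κ z = κ 0 := g.injective (h9.trans e2.symm)
    exact hz0 (κ.injective h10)

include hc hord hψ in
theorem all_inter (hk : 3 ≤ k) (n : Dih q k) (γ : Equiv.Perm (Fin (k + 1)))
    (h : phi r ψ hr hab hpow n = ψ γ) : γ = 1 := by
  have hcen : ∀ g : Equiv.Perm (Fin (k + 1)), γ * g = g * γ := by
    intro g
    obtain ⟨u, hu⟩ := exists_inl (n * dact q k g n⁻¹) (by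
      rw [SemidirectProduct.mul_right, dact_right, SemidirectProduct.inv_right, mul_inv_cancel])
    have h1 : phi r ψ hr hab hpow (SemidirectProduct.inl u) = ψ (γ * (g * γ⁻¹ * g⁻¹)) := by
      rw [← hu, map_mul, phi_act r ψ hr hc hab hpow, map_inv, h, map_mul ψ γ, map_mul, map_mul,
        map_inv, map_inv]
    have h2 := rot_inter r ψ hr hψ hc hab hpow hord hk u _ h1
    calc γ * g = γ * (g * γ⁻¹ * g⁻¹) * (g * γ) := by group
      _ = g * γ := by rw [h2, one_mul]
  by_contra hne
  obtain ⟨x, hx⟩ : ∃ x, γ x ≠ x := by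
    by_contra hcon
    push Not at hcon
    exact hne (Equiv.ext hcon)
  obtain ⟨z, hzx, hzy, _⟩ := exists_ne3 k hk x (γ x) x
  have h1 := DFunLike.congr_fun (hcen (Equiv.swap x z)) z
  simp only [Equiv.Perm.mul_apply] at h1
  rw [Equiv.swap_apply_right] at h1
  -- `h1 : γ x = swap x z (γ z)`
  have h2 : Equiv.swap x z (γ x) = γ x := Equiv.swap_apply_of_ne_of_ne hx hzy.symm
  have h3 : Equiv.swap x z (γ x) = Equiv.swap x z (γ z) := h2.trans h1
  exact hzx (γ.injective ((Equiv.swap x z).injective h3)).symm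

end NW

end Pool.Agent.Helper83.UP
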