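import Pool.Agent.Helper83.UP.Nilp

/-!
# Groups generated by involutions whose blocks are nilpotent of class at most `c`
-/

namespace Pool.Agent.Helper83.UP

open Subgroup
open scoped commutatorElement Pointwise

variable {Ω : Type}

/-- Relators: the squares of the letters, and for every block `A` the elements of the term
`γ_(c+1)` of the lower central series of the free group on the letters in `A`. -/
def blkRel (F : Set (Set Ω)) (c : ℕ) : Set (FreeGroup Ω) :=
  {r | ∃ x, r = FreeGroup.of x * FreeGroup.of x} ∪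
  {r | ∃ A ∈ F, r ∈ (closure (FreeGroup.of '' A)).lowerCentralSeries c}

/-- The group generated by involutions (the letters in `Ω`), such that the letters of every block
`A ∈ F` generate a group of nilpotency class at most `c`. -/
abbrev Blk (F : Set (Set Ω)) (c : ℕ) : Type := PresentedGroup (blkRel F c)

/-- the letters -/
def ltr (F : Set (Set Ω)) (c : ℕ) (x : Ω) : Blk F c := PresentedGroup.of x

theorem ltr_closure (F : Set (Set Ω)) (c : ℕ) : closure (Set.range (ltr F c)) = ⊤ :=
  PresentedGroup.closure_range_of _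

theorem ltr_sq (F : Set (Set Ω)) (c : ℕ) (x : Ω) : ltr F c x * ltr F c x = 1 := by
  have h : FreeGroup.of x * FreeGroup.of x ∈ normalClosure (blkRel F c) :=
    subset_normalClosure (Or.inl ⟨x, rfl⟩)
  have h2 : PresentedGroup.mk (blkRel F c) (FreeGroup.of x * FreeGroup.of x) = 1 :=
    (PresentedGroup.mk_eq_one_iff).2 h
  rw [map_mul] at h2
  exact h2

theorem ltr_blk (F : Set (Set Ω)) (c : ℕ) (A : Set Ω) (hA : A ∈ F) :
    (closure (ltr F c '' A)).lowerCentralSeries c = ⊥ := by
  have h1 : closure (ltr F c '' A) =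
      (closure (FreeGroup.of '' A)).map (PresentedGroup.mk (blkRel F c)) := by
    rw [MonoidHom.map_closure, Set.image_image]
    rfl
  rw [h1, ← map_lowerCentralSeries, Subgroup.map_eq_bot_iff]
  intro r hr
  rw [MonoidHom.mem_ker]
  exact (PresentedGroup.mk_eq_one_iff).2 (subset_normalClosure (Or.inr ⟨A, hA, hr⟩))

variable {H : Type} [Group H]

theorem rel_lift (F : Set (Set Ω)) (c : ℕ) (t : Ω → H) (hsq : ∀ x, t x * t x = 1)
    (hblk : ∀ A ∈ F, (closure (t '' A)).lowerCentralSeries c = ⊥) :
    ∀ r ∈ blkRel F c, FreeGroup.lift t r = 1 := by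
  rintro r (⟨x, rfl⟩ | ⟨A, hA, hr⟩)
  · rw [map_mul, FreeGroup.lift_apply_of]
    exact hsq x
  · have h1 : closure (t '' A) = (closure (FreeGroup.of '' A)).map (FreeGroup.lift t) := by
      rw [MonoidHom.map_closure, Set.image_image]
      congr 1
      ext y
      simp
    have h2 : FreeGroup.lift t r ∈ (closure (t '' A)).lowerCentralSeries c := by
      rw [h1, ← map_lowerCentralSeries]
      exact Subgroup.mem_map_of_mem _ hr
    rw [hblk A hA, Subgroup.mem_bot] at h2
    exact h2

/-- the universal property -/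
def blkLift (F : Set (Set Ω)) (c : ℕ) (t : Ω → H) (hsq : ∀ x, t x * t x = 1)
    (hblk : ∀ A ∈ F, (closure (t '' A)).lowerCentralSeries c = ⊥) : Blk F c →* H :=
  PresentedGroup.toGroup (rel_lift F c t hsq hblk)

theorem blkLift_ltr (F : Set (Set Ω)) (c : ℕ) (t : Ω → H) (hsq : ∀ x, t x * t x = 1)
    (hblk : ∀ A ∈ F, (closure (t '' A)).lowerCentralSeries c = ⊥) (x : Ω) :
    blkLift F c t hsq hblk (ltr F c x) = t x :=
  PresentedGroup.toGroup.of _

theorem blk_hom_ext {F : Set (Set Ω)} {c : ℕ} (f g : Blk F c →* H)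
    (h : ∀ x, f (ltr F c x) = g (ltr F c x)) : f = g :=
  PresentedGroup.ext h

variable {W : Type} [Group W] [MulAction W Ω]

/-- The blocks are permuted by the group `W`. -/
def Inv (W : Type) [Group W] [MulAction W Ω] (F : Set (Set Ω)) : Prop :=
  ∀ (w : W), ∀ A ∈ F, w • A ∈ F

theorem act_blk {F : Set (Set Ω)} (hF : Inv W F) (c : ℕ) (w : W) (A : Set Ω) (hA : A ∈ F) :
    (closure ((fun x => ltr F c (w • x)) '' A)).lowerCentralSeries c = ⊥ := by
  have h : (fun x => ltr F c (w • x)) '' A = ltr F c '' (w • A) := by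
    rw [← Set.image_smul, Set.image_image]
  rw [h]
  exact ltr_blk F c _ (hF w A hA)

/-- the action of one element of `W` -/
def actHom {F : Set (Set Ω)} (hF : Inv W F) (c : ℕ) (w : W) : Blk F c →* Blk F c :=
  blkLift F c (fun x => ltr F c (w • x)) (fun x => ltr_sq F c (w • x))
    (fun A hA => act_blk hF c w A hA)

theorem actHom_ltr {F : Set (Set Ω)} (hF : Inv W F) (c : ℕ) (w : W) (x : Ω) :
    actHom hF c w (ltr F c x) = ltr F c (w • x) :=
  blkLift_ltr F c (fun x => ltr F c (w • x)) (fun x => ltr_sq F c (w • x))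
    (fun A hA => act_blk hF c w A hA) x

theorem actHom_mul {F : Set (Set Ω)} (hF : Inv W F) (c : ℕ) (v w : W) (n : Blk F c) :
    actHom hF c (v * w) n = actHom hF c v (actHom hF c w n) := by
  have : actHom hF c (v * w) = (actHom hF c v).comp (actHom hF c w) := by
    apply blk_hom_ext
    intro x
    rw [MonoidHom.comp_apply, actHom_ltr, actHom_ltr, actHom_ltr, mul_smul]
  rw [this]
  rfl

theorem actHom_one {F : Set (Set Ω)} (hF : Inv W F) (c : ℕ) (n : Blk F c) :
    actHom hF c (1 : W) n = n := by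
  have : actHom hF c (1 : W) = MonoidHom.id _ := by
    apply blk_hom_ext
    intro x
    rw [actHom_ltr, one_smul]
    rfl
  rw [this]
  rfl

/-- the action of `W` on the group `Blk F c` -/
def act {F : Set (Set Ω)} (hF : Inv W F) (c : ℕ) : W →* MulAut (Blk F c) where
  toFun w :=
    { toFun := actHom hF c w
      invFun := actHom hF c w⁻¹
      left_inv := fun n => by rw [← actHom_mul, inv_mul_cancel, actHom_one]
      right_inv := fun n => by rw [← actHom_mul, mul_inv_cancel, actHom_one]
      map_mul' := fun a b => map_mul _ a b }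
  map_one' := by
    ext n
    exact actHom_one hF c n
  map_mul' v w := by
    ext n
    exact actHom_mul hF c v w n

theorem act_ltr {F : Set (Set Ω)} (hF : Inv W F) (c : ℕ) (w : W) (x : Ω) :
    act hF c w (ltr F c x) = ltr F c (w • x) :=
  actHom_ltr hF c w x

/-- a finite number of letters, all sets of at most `c + 1` letters in a block: finite group -/
theorem blk_finite [Finite Ω] (F : Set (Set Ω)) (c : ℕ)
    (h : ∀ S : Finset Ω, S.card ≤ c + 1 → ∃ A ∈ F, (S : Set Ω) ⊆ A) : Finite (Blk F c) := by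
  refine finite_of_lcs c (Blk F c) (Set.range (ltr F c)) (ltr_closure F c)
    (Set.finite_range _) ?_ ?_
  · rintro _ ⟨x, rfl⟩
    rw [isOfFinOrder_iff_pow_eq_one]
    exact ⟨2, by norm_num, by rw [pow_two]; exact ltr_sq F c x⟩
  · refine lcs_bot_of_sc c _ (Set.range (ltr F c)) (ltr_closure F c) ?_
    intro a ha
    obtain ⟨S, hS, haS⟩ := sc_letters (ltr F c) c a ha
    obtain ⟨A, hA, hSA⟩ := h S hS
    have h1 : a ∈ (closure (ltr F c '' A)).lowerCentralSeries c :=
      lowerCentralSeries_mono c (closure_mono (Set.image_mono hSA)) haS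
    rw [ltr_blk F c A hA, Subgroup.mem_bot] at h1
    exact h1

theorem lcs_comm {G : Type} [Group G] (S : Set G) (hS : ∀ a ∈ S, ∀ b ∈ S, a * b = b * a)
    (c : ℕ) (hc : 1 ≤ c) : (closure S).lowerCentralSeries c = ⊥ := by
  obtain ⟨k, rfl⟩ : ∃ k, c = k + 1 := ⟨c - 1, by omega⟩
  rw [eq_bot_iff]
  have h1 : (closure S).lowerCentralSeries (k + 1) ≤ (closure S).lowerCentralSeries 1 :=
    Subgroup.lowerCentralSeries_antitone (closure S) (by omega)
  refine le_trans h1 ?_
  rw [Subgroup.lowerCentralSeries_succ, Subgroup.lowerCentralSeries_zero,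
    le_bot_iff, commutator_eq_bot_iff_le_centralizer, closure_le]
  intro a ha
  rw [SetLike.mem_coe, Subgroup.mem_centralizer_iff]
  intro b hb
  have h2 : closure S ≤ centralizer {a} := by
    rw [closure_le]
    intro s hs
    rw [SetLike.mem_coe, Subgroup.mem_centralizer_iff]
    intro y hy
    rw [Set.mem_singleton_iff] at hy
    subst hy
    exact hS _ ha _ hs
  have h3 := h2 hb
  rw [Subgroup.mem_centralizer_iff] at h3
  exact (h3 a rfl).symm

/-- the letters are not trivial -/
theorem ltr_ne_one (F : Set (Set Ω)) (c : ℕ) (hc : 1 ≤ c) (x : Ω) : ltr F c x ≠ 1 := by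
  intro h
  have hz : Multiplicative.ofAdd (1 : ZMod 2) * Multiplicative.ofAdd (1 : ZMod 2) = 1 := by decide
  have h1 := blkLift_ltr F c (fun _ => Multiplicative.ofAdd (1 : ZMod 2)) (fun _ => hz)
    (fun A _ => lcs_comm _ (fun a _ b _ => mul_comm a b) c hc) x
  rw [h, map_one] at h1
  exact absurd h1 (by decide)

/-- if two letters are in no common block, the group is infinite -/
theorem blk_infinite (F : Set (Set Ω)) (c : ℕ) (hc : 1 ≤ c) (x y : Ω)
    (hxy : ∀ A ∈ F, ¬ (x ∈ A ∧ y ∈ A)) (hne : x ≠ y) : Infinite (Blk F c) := by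
  classical
  set t : Ω → DihedralGroup 0 := fun z =>
    if z = x then DihedralGroup.sr 0 else if z = y then DihedralGroup.sr 1 else 1 with ht
  have hsq : ∀ z, t z * t z = 1 := by
    intro z
    simp only [ht]
    split_ifs
    · exact DihedralGroup.sr_mul_self 0
    · exact DihedralGroup.sr_mul_self 1
    · exact mul_one 1
  have hx : t x = DihedralGroup.sr 0 := by simp [ht]
  have hy : t y = DihedralGroup.sr 1 := by simp [ht, hne.symm]
  have hblk : ∀ A ∈ F, (closure (t '' A)).lowerCentralSeries c = ⊥ := by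
    intro A hA
    refine lcs_comm _ ?_ c hc
    rintro _ ⟨a, ha, rfl⟩ _ ⟨b, hb, rfl⟩
    have h1 := hxy A hA
    by_cases hab : t a = 1
    · rw [hab, one_mul, mul_one]
    by_cases hbb : t b = 1
    · rw [hbb, one_mul, mul_one]
    have ha' : a = x ∨ a = y := by
      by_contra hcon
      push Not at hcon
      exact hab (by simp [ht, hcon.1, hcon.2])
    have hb' : b = x ∨ b = y := by
      by_contra hcon
      push Not at hcon
      exact hbb (by simp [ht, hcon.1, hcon.2])
    rcases ha' with rfl | rfl <;> rcases hb' with rfl | rfl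
    · rfl
    · exact absurd ⟨ha, hb⟩ h1
    · exact absurd ⟨hb, ha⟩ h1
    · rfl
  by_contra hfin
  rw [not_infinite_iff_finite] at hfin
  have h1 : IsOfFinOrder (ltr F c x * ltr F c y) := isOfFinOrder_of_finite _
  have h2 := MonoidHom.isOfFinOrder (blkLift F c t hsq hblk) h1
  rw [map_mul, blkLift_ltr, blkLift_ltr, hx, hy, DihedralGroup.sr_mul_sr] at h2
  rw [isOfFinOrder_iff_pow_eq_one] at h2
  obtain ⟨n, hn, h3⟩ := h2
  rw [DihedralGroup.r_pow, DihedralGroup.one_def, DihedralGroup.r.injEq] at h3
  have h4 : (((1 : ℤ) - 0) * (n : ℤ)) = 0 := h3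
  rw [sub_zero, one_mul] at h4
  have : n = 0 := by exact_mod_cast h4
  omega

end Pool.Agent.Helper83.UP
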