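import Pool.Agent.Helper23.UP.ShareLem

/-!
# String C-groups: the intersection property from facets and vertex-figures
(McMullen and Schulte, Abstract Regular Polytopes, Prop. 2E16), and twisted groups.
-/

namespace Pool.Agent.Helper83.UP

open Pool.Agent.Helper23.UP

variable {Γ : Type} [Group Γ]

/-- the intersection property -/
def Inter {m : ℕ} (ρ : Fin m → Γ) : Prop :=
  ∀ I J : Set (Fin m), par ρ I ⊓ par ρ J ≤ par ρ (I ∩ J)

theorem par_mono {m : ℕ} (ρ : Fin m → Γ) {I J : Set (Fin m)} (h : I ⊆ J) :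
    par ρ I ≤ par ρ J :=
  Subgroup.closure_mono (Set.image_mono h)

theorem mem_par {m : ℕ} (ρ : Fin m → Γ) {I : Set (Fin m)} {i : Fin m} (h : i ∈ I) :
    ρ i ∈ par ρ I :=
  Subgroup.subset_closure ⟨i, h, rfl⟩

/-- indices below `k` -/
def bel {m : ℕ} (k : Fin m) : Set (Fin m) := {i | i < k}

/-- indices above `k` -/
def abo {m : ℕ} (k : Fin m) : Set (Fin m) := {i | k < i}

theorem mem_bel {m : ℕ} {k i : Fin m} : i ∈ bel k ↔ i < k := Iff.rfl
theorem mem_abo {m : ℕ} {k i : Fin m} : i ∈ abo k ↔ k < i := Iff.rfl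

/-- If the generators with index `< k` commute with the generators with index `> k` and `k` is
not in `I`, then every element of `par ρ I` splits. -/
theorem par_split {m : ℕ} (ρ : Fin m → Γ)
    (hcomm : ∀ i j : Fin m, (i : ℕ) + 2 ≤ j → ρ i * ρ j = ρ j * ρ i) (I : Set (Fin m))
    (k : Fin m) (hk : k ∉ I) (g : Γ) (hg : g ∈ par ρ I) :
    ∃ a ∈ par ρ (I ∩ bel k), ∃ b ∈ par ρ (I ∩ abo k), g = a * b := by
  have hc : ∀ a ∈ par ρ (I ∩ bel k), ∀ b ∈ par ρ (I ∩ abo k), a * b = b * a := by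
    intro a ha b hb
    have h1 : par ρ (I ∩ bel k) ≤ Subgroup.centralizer (par ρ (I ∩ abo k) : Set Γ) := by
      unfold par
      rw [Subgroup.closure_le]
      rintro _ ⟨i, ⟨_, hi⟩, rfl⟩
      rw [SetLike.mem_coe, Subgroup.mem_centralizer_iff]
      intro x hx
      have h2 : Subgroup.closure (ρ '' (I ∩ abo k)) ≤ Subgroup.centralizer {ρ i} := by
        rw [Subgroup.closure_le]
        rintro _ ⟨j, ⟨_, hj⟩, rfl⟩
        rw [SetLike.mem_coe, Subgroup.mem_centralizer_iff]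
        intro y hy
        rw [Set.mem_singleton_iff] at hy
        subst hy
        apply hcomm
        have h3 : (i : ℕ) < k := hi
        have h4 : (k : ℕ) < j := hj
        omega
      have h3 := h2 hx
      rw [Subgroup.mem_centralizer_iff] at h3
      exact (h3 (ρ i) rfl).symm
    have h2 := h1 ha
    rw [Subgroup.mem_centralizer_iff] at h2
    exact (h2 b hb).symm
  unfold par at hg
  induction hg using Subgroup.closure_induction with
  | mem x hx =>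
    obtain ⟨i, hi, rfl⟩ := hx
    rcases lt_trichotomy i k with h | h | h
    · exact ⟨ρ i, mem_par ρ ⟨hi, h⟩, 1, Subgroup.one_mem _, (mul_one _).symm⟩
    · exact absurd (h ▸ hi) hk
    · exact ⟨1, Subgroup.one_mem _, ρ i, mem_par ρ ⟨hi, h⟩, (one_mul _).symm⟩
  | one => exact ⟨1, Subgroup.one_mem _, 1, Subgroup.one_mem _, (one_mul _).symm⟩
  | mul x y _ _ hx hy =>
    obtain ⟨a, ha, b, hb, rfl⟩ := hx
    obtain ⟨a', ha', b', hb', rfl⟩ := hy
    refine ⟨a * a', Subgroup.mul_mem _ ha ha', b * b', Subgroup.mul_mem _ hb hb', ?_⟩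
    calc a * b * (a' * b') = a * (b * a') * b' := by simp only [mul_assoc]
      _ = a * (a' * b) * b' := by rw [hc a' ha' b hb]
      _ = a * a' * (b * b') := by simp only [mul_assoc]
  | inv x _ hx =>
    obtain ⟨a, ha, b, hb, rfl⟩ := hx
    refine ⟨a⁻¹, Subgroup.inv_mem _ ha, b⁻¹, Subgroup.inv_mem _ hb, ?_⟩
    rw [mul_inv_rev]
    exact (hc _ (Subgroup.inv_mem _ ha) _ (Subgroup.inv_mem _ hb)).symm

section FV

variable {n : ℕ} (ρ : Fin (n + 2) → Γ)

/-- all indices but the last one -/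
def lo (n : ℕ) : Set (Fin (n + 2)) := {i | i ≠ Fin.last (n + 1)}

/-- all indices but the first one -/
def up (n : ℕ) : Set (Fin (n + 2)) := {i | i ≠ 0}

theorem sub_lo {I : Set (Fin (n + 2))} (h : Fin.last (n + 1) ∉ I) : I ⊆ lo n := by
  intro i hi h1
  rw [h1] at hi
  exact h hi

theorem sub_up {I : Set (Fin (n + 2))} (h : (0 : Fin (n + 2)) ∉ I) : I ⊆ up n := by
  intro i hi h1
  rw [h1] at hi
  exact h hi

theorem last_not_lo : Fin.last (n + 1) ∉ lo n := fun h => h rfl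
theorem zero_not_up : (0 : Fin (n + 2)) ∉ up n := fun h => h rfl
theorem last_not_bel (k : Fin (n + 2)) : Fin.last (n + 1) ∉ bel k :=
  fun h => absurd h (not_lt.2 (Fin.le_last k))
theorem zero_not_abo (k : Fin (n + 2)) : (0 : Fin (n + 2)) ∉ abo k :=
  fun h => absurd h (not_lt.2 (Fin.zero_le k))

theorem inter_A (hfac : Inter (fun i : Fin (n + 1) => ρ i.castSucc))
    (I J : Set (Fin (n + 2))) (hI : Fin.last (n + 1) ∉ I) (hJ : Fin.last (n + 1) ∉ J) :
    par ρ I ⊓ par ρ J ≤ par ρ (I ∩ J) := by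
  have e : ∀ K : Set (Fin (n + 2)), Fin.last (n + 1) ∉ K →
      Fin.castSucc '' (Fin.castSucc ⁻¹' K) = K := by
    intro K hK
    rw [Set.image_preimage_eq_iff]
    intro x hx
    rw [Set.mem_range]
    have hx' : x ≠ Fin.last (n + 1) := fun h => hK (h ▸ hx)
    exact ⟨x.castPred hx', Fin.castSucc_castPred x hx'⟩
  have h1 := hfac (Fin.castSucc ⁻¹' I) (Fin.castSucc ⁻¹' J)
  rw [par_castSucc, par_castSucc, par_castSucc, ← Set.preimage_inter, e I hI, e J hJ,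
    e (I ∩ J) (fun h => hI h.1)] at h1
  exact h1

theorem inter_B (hver : Inter (fun i : Fin (n + 1) => ρ i.succ))
    (I J : Set (Fin (n + 2))) (hI : (0 : Fin (n + 2)) ∉ I) (hJ : (0 : Fin (n + 2)) ∉ J) :
    par ρ I ⊓ par ρ J ≤ par ρ (I ∩ J) := by
  have e : ∀ K : Set (Fin (n + 2)), (0 : Fin (n + 2)) ∉ K →
      Fin.succ '' (Fin.succ ⁻¹' K) = K := by
    intro K hK
    rw [Set.image_preimage_eq_iff]
    intro x hx
    rw [Set.mem_range]
    have hx' : x ≠ 0 := fun h => hK (h ▸ hx)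
    exact ⟨x.pred hx', Fin.succ_pred x hx'⟩
  have h1 := hver (Fin.succ ⁻¹' I) (Fin.succ ⁻¹' J)
  rw [par_succ, par_succ, par_succ, ← Set.preimage_inter, e I hI, e J hJ,
    e (I ∩ J) (fun h => hI h.1)] at h1
  exact h1

theorem inter_C (hfac : Inter (fun i : Fin (n + 1) => ρ i.castSucc))
    (hver : Inter (fun i : Fin (n + 1) => ρ i.succ))
    (hint : par ρ (lo n) ⊓ par ρ (up n) ≤ par ρ (up n ∩ lo n))
    (I J : Set (Fin (n + 2))) (hI : Fin.last (n + 1) ∉ I) (hJ : (0 : Fin (n + 2)) ∉ J) :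
    par ρ I ⊓ par ρ J ≤ par ρ (I ∩ J) := by
  rintro g ⟨hg1, hg2⟩
  have h0 : g ∈ par ρ (up n ∩ lo n) := hint ⟨par_mono ρ (sub_lo hI) hg1, par_mono ρ (sub_up hJ) hg2⟩
  have h1 : g ∈ par ρ (I ∩ (up n ∩ lo n)) :=
    inter_A ρ hfac I (up n ∩ lo n) hI (fun h => last_not_lo h.2) ⟨hg1, h0⟩
  have h2 : g ∈ par ρ (J ∩ (up n ∩ lo n)) :=
    inter_B ρ hver J (up n ∩ lo n) hJ (fun h => zero_not_up h.1) ⟨hg2, h0⟩
  have h3 := inter_A ρ hfac (I ∩ (up n ∩ lo n)) (J ∩ (up n ∩ lo n)) (fun h => hI h.1)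
    (fun h => last_not_lo h.2.2) ⟨h1, h2⟩
  have hs : (I ∩ (up n ∩ lo n)) ∩ (J ∩ (up n ∩ lo n)) ⊆ I ∩ J := fun i hi => ⟨hi.1.1, hi.2.1⟩
  exact par_mono ρ hs h3

variable (hcomm : ∀ i j : Fin (n + 2), (i : ℕ) + 2 ≤ j → ρ i * ρ j = ρ j * ρ i)

include hcomm in
theorem inter_D (hfac : Inter (fun i : Fin (n + 1) => ρ i.castSucc))
    (hver : Inter (fun i : Fin (n + 1) => ρ i.succ))
    (hint : par ρ (lo n) ⊓ par ρ (up n) ≤ par ρ (up n ∩ lo n))
    (I J : Set (Fin (n + 2))) (hJ : Fin.last (n + 1) ∉ J) :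
    par ρ I ⊓ par ρ J ≤ par ρ (I ∩ J) := by
  rintro g ⟨hg1, hg2⟩
  by_cases hI : Fin.last (n + 1) ∈ I
  swap
  · exact inter_A ρ hfac I J hI hJ ⟨hg1, hg2⟩
  by_cases hu : ∃ k, k ∉ I
  swap
  · push Not at hu
    have hsub : J ⊆ I ∩ J := fun i hi => ⟨hu i, hi⟩
    exact par_mono ρ hsub hg2
  obtain ⟨k, hk⟩ := hu
  obtain ⟨a, ha, b, hb, hab⟩ := par_split ρ hcomm I k hk g hg1
  have hkl : k < Fin.last (n + 1) := lt_of_le_of_ne (Fin.le_last k) (fun h => hk (h ▸ hI))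
  have hs1 : I ∩ bel k ⊆ I ∩ lo n := by
    intro i hi
    exact ⟨hi.1, ne_of_lt (lt_trans hi.2 hkl)⟩
  have ha' : a ∈ par ρ (I ∩ lo n) := par_mono ρ hs1 ha
  have ha'' : a ∈ par ρ (lo n) := par_mono ρ Set.inter_subset_right ha'
  have hg' : g ∈ par ρ (lo n) := par_mono ρ (sub_lo hJ) hg2
  have hb' : b ∈ par ρ (lo n) := by
    have := Subgroup.mul_mem _ (Subgroup.inv_mem _ ha'') hg'
    rwa [hab, inv_mul_cancel_left] at this
  have hb0 : b ∈ par ρ (lo n ∩ (I ∩ abo k)) :=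
    inter_C ρ hfac hver hint (lo n) (I ∩ abo k) last_not_lo (fun h => zero_not_abo k h.2) ⟨hb', hb⟩
  have hs2 : lo n ∩ (I ∩ abo k) ⊆ I ∩ lo n := fun i hi => ⟨hi.2.1, hi.1⟩
  have hg3 : g ∈ par ρ (I ∩ lo n) := by
    rw [hab]
    exact Subgroup.mul_mem _ ha' (par_mono ρ hs2 hb0)
  have h4 := inter_A ρ hfac (I ∩ lo n) J (fun h => last_not_lo h.2) hJ ⟨hg3, hg2⟩
  have hs3 : I ∩ lo n ∩ J ⊆ I ∩ J := fun i hi => ⟨hi.1.1, hi.2⟩
  exact par_mono ρ hs3 h4

include hcomm in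
theorem inter_E (hfac : Inter (fun i : Fin (n + 1) => ρ i.castSucc))
    (hver : Inter (fun i : Fin (n + 1) => ρ i.succ))
    (hint : par ρ (lo n) ⊓ par ρ (up n) ≤ par ρ (up n ∩ lo n))
    (I J : Set (Fin (n + 2))) (k l : Fin (n + 2)) (hk : k ∉ I) (hl : l ∉ J) (hkl : k ≤ l) :
    par ρ I ⊓ par ρ J ≤ par ρ (I ∩ J) := by
  rintro g ⟨hg1, hg2⟩
  obtain ⟨a, ha, b, hb, hab⟩ := par_split ρ hcomm I k hk g hg1
  obtain ⟨c, hc, d, hd, hcd⟩ := par_split ρ hcomm J l hl g hg2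
  have he : a⁻¹ * c = b * d⁻¹ := by
    have : a * b = c * d := by rw [← hab, ← hcd]
    calc a⁻¹ * c = a⁻¹ * (c * d) * d⁻¹ := by group
      _ = a⁻¹ * (a * b) * d⁻¹ := by rw [this]
      _ = b * d⁻¹ := by group
  have s1 : I ∩ bel k ⊆ bel l := fun i hi => lt_of_lt_of_le hi.2 hkl
  have s2 : J ∩ abo l ⊆ abo k := fun i hi => lt_of_le_of_lt hkl hi.2
  have he1 : a⁻¹ * c ∈ par ρ (bel l) :=
    Subgroup.mul_mem _ (Subgroup.inv_mem _ (par_mono ρ s1 ha))
      (par_mono ρ Set.inter_subset_right hc)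
  have he2 : b * d⁻¹ ∈ par ρ (abo k) :=
    Subgroup.mul_mem _ (par_mono ρ Set.inter_subset_right hb)
      (Subgroup.inv_mem _ (par_mono ρ s2 hd))
  have he3 : b * d⁻¹ ∈ par ρ (bel l ∩ abo k) :=
    inter_C ρ hfac hver hint (bel l) (abo k) (last_not_bel l) (zero_not_abo k) ⟨he ▸ he1, he2⟩
  have hb1 : b ∈ par ρ ((bel l ∩ abo k) ∪ (J ∩ abo l)) := by
    have : b = (b * d⁻¹) * d := by group
    rw [this]
    exact Subgroup.mul_mem _ (par_mono ρ Set.subset_union_left he3)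
      (par_mono ρ Set.subset_union_right hd)
  have hz : (0 : Fin (n + 2)) ∉ (bel l ∩ abo k) ∪ (J ∩ abo l) := by
    rintro (h | h)
    · exact zero_not_abo k h.2
    · exact zero_not_abo l h.2
  have hb2 : b ∈ par ρ ((I ∩ abo k) ∩ ((bel l ∩ abo k) ∪ (J ∩ abo l))) :=
    inter_B ρ hver (I ∩ abo k) ((bel l ∩ abo k) ∪ (J ∩ abo l)) (fun h => zero_not_abo k h.2) hz
      ⟨hb, hb1⟩
  have hl' : l ∉ (I ∩ abo k) ∩ ((bel l ∩ abo k) ∪ (J ∩ abo l)) := by
    rintro ⟨_, h | h⟩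
    · exact lt_irrefl _ (mem_bel.1 h.1)
    · exact lt_irrefl _ (mem_abo.1 h.2)
  obtain ⟨b1, hb1', b2, hb2', hb12⟩ := par_split ρ hcomm _ l hl' b hb2
  have s3 : (I ∩ abo k) ∩ ((bel l ∩ abo k) ∪ (J ∩ abo l)) ∩ abo l ⊆ I ∩ J := by
    rintro i ⟨⟨⟨hi, _⟩, h | h⟩, hl'⟩
    · exact absurd (mem_bel.1 h.1) (not_lt.2 (le_of_lt (mem_abo.1 hl')))
    · exact ⟨hi, h.1⟩
  have hb2J : b2 ∈ par ρ (I ∩ J) := par_mono ρ s3 hb2'
  have s4 : I ∩ bel k ⊆ I ∩ bel l := fun i hi => ⟨hi.1, lt_of_lt_of_le hi.2 hkl⟩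
  have s5 : (I ∩ abo k) ∩ ((bel l ∩ abo k) ∪ (J ∩ abo l)) ∩ bel l ⊆ I ∩ bel l :=
    fun i hi => ⟨hi.1.1.1, hi.2⟩
  have hx1 : a * b1 ∈ par ρ (I ∩ bel l) :=
    Subgroup.mul_mem _ (par_mono ρ s4 ha) (par_mono ρ s5 hb1')
  have hx2 : a * b1 ∈ par ρ J := by
    have : a * b1 = g * b2⁻¹ := by rw [hab, hb12]; group
    rw [this]
    exact Subgroup.mul_mem _ hg2 (Subgroup.inv_mem _ (par_mono ρ Set.inter_subset_right hb2J))
  have hx3 : a * b1 ∈ par ρ (J ∩ (I ∩ bel l)) :=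
    inter_D ρ hcomm hfac hver hint J (I ∩ bel l) (fun h => last_not_bel l h.2) ⟨hx2, hx1⟩
  have hg4 : g = (a * b1) * b2 := by rw [hab, hb12]; group
  have s6 : J ∩ (I ∩ bel l) ⊆ I ∩ J := fun i hi => ⟨hi.2.1, hi.1⟩
  rw [hg4]
  exact Subgroup.mul_mem _ (par_mono ρ s6 hx3) hb2J

include hcomm in
/-- The intersection property from the facets and the vertex-figures. -/
theorem inter_of_FV (hfac : Inter (fun i : Fin (n + 1) => ρ i.castSucc))
    (hver : Inter (fun i : Fin (n + 1) => ρ i.succ))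
    (hint : par ρ (lo n) ⊓ par ρ (up n) ≤ par ρ (up n ∩ lo n)) : Inter ρ := by
  intro I J
  by_cases hI : ∃ k, k ∉ I
  swap
  · push Not at hI
    rintro g ⟨_, hg2⟩
    have hsub : J ⊆ I ∩ J := fun i hi => ⟨hI i, hi⟩
    exact par_mono ρ hsub hg2
  by_cases hJ : ∃ l, l ∉ J
  swap
  · push Not at hJ
    rintro g ⟨hg1, _⟩
    have hsub : I ⊆ I ∩ J := fun i hi => ⟨hi, hJ i⟩
    exact par_mono ρ hsub hg1
  obtain ⟨k, hk⟩ := hI
  obtain ⟨l, hl⟩ := hJ
  rcases le_total k l with h | h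
  · exact inter_E ρ hcomm hfac hver hint I J k l hk hl h
  · rintro g ⟨hg1, hg2⟩
    have := inter_E ρ hcomm hfac hver hint J I l k hl hk h ⟨hg2, hg1⟩
    rwa [Set.inter_comm] at this

end FV

theorem inter_castSucc {m : ℕ} (ρ : Fin (m + 1) → Γ) (h : Inter ρ) :
    Inter (fun i : Fin m => ρ i.castSucc) := by
  intro I J
  rw [par_castSucc, par_castSucc, par_castSucc, Set.image_inter (Fin.castSucc_injective m)]
  exact h _ _

theorem inter_zero (ρ : Fin 1 → Γ) : Inter ρ := by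
  rintro I J g ⟨h1, h2⟩
  by_cases hI : (0 : Fin 1) ∈ I
  · have hs : J ⊆ I ∩ J := by
      intro i hi
      have : i = 0 := Subsingleton.elim _ _
      subst this
      exact ⟨hI, hi⟩
    exact par_mono ρ hs h2
  · have hs : I ⊆ I ∩ J := by
      intro i hi
      have : i = 0 := Subsingleton.elim _ _
      subst this
      exact absurd hi hI
    exact par_mono ρ hs h1

/-- The intersection property when the first generator dies in a quotient that is faithful on the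
group of the vertex-figure. -/
theorem inter_of_twist {W : Type} [Group W] (κ : Γ →* W) : ∀ (n : ℕ) (ρ : Fin (n + 1) → Γ),
    (∀ i j : Fin (n + 1), (i : ℕ) + 2 ≤ j → ρ i * ρ j = ρ j * ρ i) → κ (ρ 0) = 1 →
    (∀ x ∈ par ρ {i | i ≠ 0}, κ x = 1 → x = 1) →
    Inter (fun i : Fin n => ρ i.succ) → Inter ρ
  | 0, ρ, _, _, _, _ => inter_zero ρ
  | n + 1, ρ, hcomm, h0, hinj, hver => by
    refine inter_of_FV ρ hcomm ?_ hver ?_
    · refine inter_of_twist κ n (fun i => ρ i.castSucc) ?_ ?_ ?_ ?_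
      · intro i j hij
        exact hcomm i.castSucc j.castSucc hij
      · exact h0
      · intro x hx hx1
        refine hinj x ?_ hx1
        rw [par_castSucc] at hx
        refine par_mono ρ ?_ hx
        rintro _ ⟨i, hi, rfl⟩ h
        exact hi (Fin.castSucc_injective _ h)
      · have := inter_castSucc _ hver
        exact this
    · rintro g ⟨hg1, hg2⟩
      -- the image of `g` lies in the image of the middle group
      have h1 : κ g ∈ (par ρ (up n ∩ lo n)).map κ := by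
        have h2 : (par ρ (lo n)).map κ ≤ (par ρ (up n ∩ lo n)).map κ := by
          rw [Subgroup.map_le_iff_le_comap]
          unfold par
          rw [Subgroup.closure_le]
          rintro _ ⟨i, hi, rfl⟩
          rw [SetLike.mem_coe, Subgroup.mem_comap]
          by_cases hi0 : i = 0
          · rw [hi0, h0]
            exact Subgroup.one_mem _
          · exact Subgroup.mem_map_of_mem κ (Subgroup.subset_closure ⟨i, ⟨hi0, hi⟩, rfl⟩)
        exact h2 (Subgroup.mem_map_of_mem κ hg1)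
      obtain ⟨y, hy, hyg⟩ := h1
      have hy' : y ∈ par ρ (up n) := par_mono ρ Set.inter_subset_left hy
      have h3 : g * y⁻¹ = 1 := by
        refine hinj _ (Subgroup.mul_mem _ hg2 (Subgroup.inv_mem _ hy')) ?_
        rw [map_mul, map_inv, hyg, mul_inv_cancel]
      rw [mul_inv_eq_one] at h3
      rw [h3]
      exact hy

end Pool.Agent.Helper83.UP
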