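import Pool.Agent.Helper83.UP.Tw

/-!
# The nilpotent Danzer polytopes and their universal extensions
-/

namespace Pool.Agent.Helper83.UP

open Subgroup Pool.Agent.Helper23.UP
open scoped commutatorElement Pointwise

/-- `(Γ, ρ)` is the universal regular polytope with facets `(G, σ)` and vertex-figures
`(W, τ)`: it covers every regular polytope with these facets and vertex-figures. -/
structure IsUniversal {G W Γ : Type} [Group G] [Group W] [Group Γ] {n : ℕ} (σ : Fin n → G)
    (τ : Fin n → W) (ρ : Fin (n + 1) → Γ) : Prop where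
  fv : HasFV σ τ ρ
  univ : ∀ (Γ' : Type) [Group Γ'] (ρ' : Fin (n + 1) → Γ'), HasFV σ τ ρ' →
    ∃ f : Γ →* Γ', ∀ i, f (ρ i) = ρ' i

section Vert

variable {W : Type} [Group W] {m : ℕ}

/-- the group of the base vertex (all generators but the first one) -/
def vertSub (τ : Fin m → W) : Subgroup W := par τ {i | (i : ℕ) ≠ 0}

/-- the vertices of the regular polytope `(W, τ)`: the cosets of the group of the base vertex -/
abbrev Vert (τ : Fin m → W) : Type := W ⧸ vertSub τ

/-- the base vertex -/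
def baseV (τ : Fin m → W) : Vert τ := ((1 : W) : W ⧸ vertSub τ)

/-- the vertices of the base facet -/
def facetVerts (τ : Fin m → W) : Set (Vert τ) :=
  {x | ∃ h ∈ facetSub τ, x = ((h : W) : W ⧸ vertSub τ)}

/-- the vertex sets of the facets -/
def facetSets (τ : Fin m → W) : Set (Set (Vert τ)) := {A | ∃ w : W, A = w • facetVerts τ}

theorem inv_facetSets (τ : Fin m → W) : Inv W (facetSets τ) := by
  rintro w _ ⟨v, rfl⟩
  exact ⟨w * v, (mul_smul w v _).symm⟩

theorem inv_univ (τ : Fin m → W) : Inv W ({Set.univ} : Set (Set (Vert τ))) := by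
  rintro w A hA
  rw [Set.mem_singleton_iff] at hA
  rw [hA, Set.smul_set_univ]
  exact rfl

theorem smul_baseV (τ : Fin m → W) (w : W) : w • baseV τ = ((w : W) : Vert τ) := by
  show (((w * 1 : W)) : Vert τ) = _
  rw [mul_one]

theorem baseV_trans (τ : Fin m → W) (x : Vert τ) : ∃ w : W, x = w • baseV τ := by
  obtain ⟨w, rfl⟩ := QuotientGroup.mk_surjective x
  exact ⟨w, (smul_baseV τ w).symm⟩

theorem baseV_fix (τ : Fin m → W) (i : Fin m) (hi : (i : ℕ) ≠ 0) : τ i • baseV τ = baseV τ := by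
  rw [smul_baseV]
  refine QuotientGroup.eq.2 ?_
  rw [mul_one]
  exact (vertSub τ).inv_mem (subset_closure ⟨i, hi, rfl⟩)

/-- The polytope `P(K, c)`: its group is `N ⋊ V`, where `K = (V, κ)` is a regular polytope and
`N` is the free product of groups of order two indexed by the vertices of `K`, modulo the term
`γ_(c+1)` of its lower central series. -/
def nilP (κ : Fin m → W) (c : ℕ) : Fin (m + 1) → Tw (inv_univ κ) c :=
  twGen (inv_univ κ) c (baseV κ) κ

/-- The candidate for the universal polytope: its group is `N ⋊ W`, where `N` is generated by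
involutions indexed by the vertices of `(W, τ)`, subject to the relations that make the letters of
every facet nilpotent of class at most `c`. -/
def uniP (τ : Fin m → W) (c : ℕ) : Fin (m + 1) → Tw (inv_facetSets τ) c :=
  twGen (inv_facetSets τ) c (baseV τ) τ

theorem nilP_str (κ : Fin m → W) (hκ : IsStringC κ) (c : ℕ) (hc : 1 ≤ c) :
    IsStringC (nilP κ c) :=
  tw_str (inv_univ κ) c hc (baseV κ) κ hκ (baseV_fix κ) (baseV_trans κ)

theorem uniP_str (τ : Fin m → W) (hτ : IsStringC τ) (c : ℕ) (hc : 1 ≤ c) :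
    IsStringC (uniP τ c) :=
  tw_str (inv_facetSets τ) c hc (baseV τ) τ hτ (baseV_fix τ) (baseV_trans τ)

end Vert

section Embed

variable {V W : Type} [Group V] [Group W] {m : ℕ} (κ : Fin m → V) (τ : Fin (m + 1) → W)
  (f : V →* W) (hf : ∀ i, f (κ i) = τ i.castSucc)

include hf in
theorem f_par (I : Set (Fin m)) : (par κ I).map f = par τ (Fin.castSucc '' I) := by
  rw [par_map, ← par_castSucc]
  congr 1
  funext i
  exact hf i

include hf in
theorem f_vertSub (v : V) (hv : v ∈ vertSub κ) : f v ∈ vertSub τ := by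
  have h : f v ∈ (vertSub κ).map f := mem_map_of_mem f hv
  unfold vertSub at h
  rw [f_par κ τ f hf] at h
  refine par_mono τ ?_ h
  rintro _ ⟨i, hi, rfl⟩
  exact hi

include hf in
theorem f_vertSub_iff (hinj : Function.Injective f) (hκ : IsStringC κ) (hτ : IsStringC τ)
    (v : V) (hv : f v ∈ vertSub τ) : v ∈ vertSub κ := by
  have h1 : f v ∈ par τ (Fin.castSucc '' Set.univ) := by
    rw [← f_par κ τ f hf, hκ.gen]
    exact mem_map_of_mem f (mem_top v)
  have h2 : f v ∈ par τ ({i | (i : ℕ) ≠ 0} ∩ Fin.castSucc '' Set.univ) := by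
    rw [← hτ.inter]
    exact ⟨hv, h1⟩
  have h3 : ({i | (i : ℕ) ≠ 0} ∩ Fin.castSucc '' Set.univ : Set (Fin (m + 1))) =
      Fin.castSucc '' {i | (i : ℕ) ≠ 0} := by
    ext i
    constructor
    · rintro ⟨h, j, _, rfl⟩
      exact ⟨j, h, rfl⟩
    · rintro ⟨j, h, rfl⟩
      exact ⟨h, j, trivial, rfl⟩
  rw [h3, ← f_par κ τ f hf] at h2
  obtain ⟨v', hv', hvv⟩ := h2
  rw [← hinj hvv]
  exact hv'

/-- the inclusion of the vertices of the facet `K` -/
def jmap : Vert κ → Vert τ := fun x =>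
  Quotient.liftOn' x (fun v => ((f v : W) : Vert τ)) (by
    intro a b hab
    rw [QuotientGroup.leftRel_apply] at hab
    refine QuotientGroup.eq.2 ?_
    rw [← map_inv, ← map_mul]
    exact f_vertSub κ τ f hf _ hab)

theorem jmap_mk (v : V) : jmap κ τ f hf ((v : V) : Vert κ) = ((f v : W) : Vert τ) := rfl

theorem jmap_smul (v : V) (x : Vert κ) : jmap κ τ f hf (v • x) = f v • jmap κ τ f hf x := by
  obtain ⟨u, rfl⟩ := QuotientGroup.mk_surjective x
  show jmap κ τ f hf (((v * u : V)) : Vert κ) = f v • jmap κ τ f hf ((u : V) : Vert κ)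
  rw [jmap_mk, jmap_mk, map_mul]
  rfl

theorem jmap_base : jmap κ τ f hf (baseV κ) = baseV τ := by
  show ((f 1 : W) : Vert τ) = _
  rw [map_one]
  rfl

theorem jmap_inj (hinj : Function.Injective f) (hκ : IsStringC κ) (hτ : IsStringC τ) :
    Function.Injective (jmap κ τ f hf) := by
  intro x y hxy
  obtain ⟨u, rfl⟩ := QuotientGroup.mk_surjective x
  obtain ⟨v, rfl⟩ := QuotientGroup.mk_surjective y
  have h1 : ((f u : W) : Vert τ) = ((f v : W) : Vert τ) := hxy
  rw [QuotientGroup.eq, ← map_inv, ← map_mul] at h1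
  exact QuotientGroup.eq.2 (f_vertSub_iff κ τ f hf hinj hκ hτ _ h1)

include hf in
theorem facetSub_eq (hκ : IsStringC κ) : facetSub τ = f.range := by
  unfold facetSub
  rw [MonoidHom.range_eq_map, ← hκ.gen, f_par κ τ f hf]
  congr 1
  ext i
  constructor
  · intro h
    have hi : (i : ℕ) + 1 ≠ m + 1 := h
    have hlt : (i : ℕ) < m := by have := i.isLt; omega
    exact ⟨⟨i, hlt⟩, trivial, Fin.ext rfl⟩
  · rintro ⟨j, _, rfl⟩
    show ((j.castSucc : Fin (m + 1)) : ℕ) + 1 ≠ m + 1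
    have := j.isLt
    simp only [Fin.val_castSucc]
    omega

theorem facetVerts_eq (hκ : IsStringC κ) : facetVerts τ = Set.range (jmap κ τ f hf) := by
  ext x
  constructor
  · rintro ⟨h, hh, rfl⟩
    rw [facetSub_eq κ τ f hf hκ] at hh
    obtain ⟨v, rfl⟩ := hh
    exact ⟨((v : V) : Vert κ), rfl⟩
  · rintro ⟨y, rfl⟩
    obtain ⟨v, rfl⟩ := QuotientGroup.mk_surjective y
    refine ⟨f v, ?_, rfl⟩
    rw [facetSub_eq κ τ f hf hκ]
    exact ⟨v, rfl⟩

/-- the group of the letters of the facet, inside -/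
def emb (hκ : IsStringC κ) (c : ℕ) :
    Blk ({Set.univ} : Set (Set (Vert κ))) c →* Blk (facetSets τ) c :=
  blkLift {Set.univ} c (fun x => ltr (facetSets τ) c (jmap κ τ f hf x))
    (fun x => ltr_sq _ c _) (by
      intro A hA
      rw [Set.mem_singleton_iff] at hA
      have h : (fun x => ltr (facetSets τ) c (jmap κ τ f hf x)) '' A =
          ltr (facetSets τ) c '' (facetVerts τ) := by
        rw [hA, facetVerts_eq κ τ f hf hκ, Set.image_univ, ← Set.range_comp]
        rfl
      rw [h]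
      exact ltr_blk _ c _ ⟨1, (one_smul _ _).symm⟩)

theorem emb_ltr (hκ : IsStringC κ) (c : ℕ) (x : Vert κ) :
    emb κ τ f hf hκ c (ltr _ c x) = ltr (facetSets τ) c (jmap κ τ f hf x) :=
  blkLift_ltr {Set.univ} c (fun x => ltr (facetSets τ) c (jmap κ τ f hf x)) _ _ x

theorem blk_univ_top {Ω : Type} (c : ℕ) :
    (⊤ : Subgroup (Blk ({Set.univ} : Set (Set Ω)) c)).lowerCentralSeries c = ⊥ := by
  have h := ltr_blk ({Set.univ} : Set (Set Ω)) c Set.univ rfl
  rwa [Set.image_univ, ltr_closure] at h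

open Classical in
/-- the retraction: the letters outside the facet are killed -/
noncomputable def ret (c : ℕ) : Blk (facetSets τ) c →* Blk ({Set.univ} : Set (Set (Vert κ))) c :=
  blkLift (facetSets τ) c (fun y => if h : ∃ x, jmap κ τ f hf x = y then ltr _ c h.choose else 1)
    (by
      intro y
      by_cases h : ∃ x, jmap κ τ f hf x = y
      · simp only [h, dite_true]
        exact ltr_sq _ c _
      · simp only [h, dite_false, mul_one])
    (by
      intro A _
      rw [eq_bot_iff, ← blk_univ_top c]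
      exact lowerCentralSeries_mono c le_top)

theorem ret_emb (hinj : Function.Injective f) (hκ : IsStringC κ) (hτ : IsStringC τ) (c : ℕ)
    (n : Blk ({Set.univ} : Set (Set (Vert κ))) c) :
    ret κ τ f hf c (emb κ τ f hf hκ c n) = n := by
  have h : (ret κ τ f hf c).comp (emb κ τ f hf hκ c) = MonoidHom.id _ := by
    apply blk_hom_ext
    intro x
    rw [MonoidHom.comp_apply, emb_ltr]
    unfold ret
    rw [blkLift_ltr]
    have hx : ∃ x', jmap κ τ f hf x' = jmap κ τ f hf x := ⟨x, rfl⟩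
    rw [dif_pos hx, jmap_inj κ τ f hf hinj hκ hτ hx.choose_spec]
    rfl
  have := DFunLike.congr_fun h n
  exact this

theorem emb_inj (hinj : Function.Injective f) (hκ : IsStringC κ) (hτ : IsStringC τ) (c : ℕ) :
    Function.Injective (emb κ τ f hf hκ c) :=
  Function.LeftInverse.injective (ret_emb κ τ f hf hinj hκ hτ c)

/-- the group of the facets inside the big group -/
def embTw (hκ : IsStringC κ) (c : ℕ) : Tw (inv_univ κ) c →* Tw (inv_facetSets τ) c :=
  SemidirectProduct.map (emb κ τ f hf hκ c) f (by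
    intro v
    apply blk_hom_ext
    intro x
    show emb κ τ f hf hκ c (act (inv_univ κ) c v (ltr _ c x)) =
      act (inv_facetSets τ) c (f v) (emb κ τ f hf hκ c (ltr _ c x))
    rw [act_ltr, emb_ltr, emb_ltr, act_ltr, jmap_smul])

theorem embTw_inj (hinj : Function.Injective f) (hκ : IsStringC κ) (hτ : IsStringC τ) (c : ℕ) :
    Function.Injective (embTw κ τ f hf hκ c) := by
  intro a b hab
  have h1 := congrArg SemidirectProduct.left hab
  have h2 := congrArg SemidirectProduct.right hab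
  exact SemidirectProduct.ext (emb_inj κ τ f hf hinj hκ hτ c h1) (hinj h2)

include hf in
theorem uniP_FV (hinj : Function.Injective f) (hκ : IsStringC κ) (hτ : IsStringC τ) (c : ℕ)
    (hc : 1 ≤ c) : HasFV (nilP κ c) τ (uniP τ c) where
  str := uniP_str τ hτ c hc
  fac := by
    refine ⟨embTw κ τ f hf hκ c, embTw_inj κ τ f hf hinj hκ hτ c, ?_⟩
    intro i
    refine Fin.cases ?_ (fun i => ?_) i
    · show embTw κ τ f hf hκ c (SemidirectProduct.inl (ltr _ c (baseV κ))) =
        SemidirectProduct.inl (ltr _ c (baseV τ))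
      unfold embTw
      rw [SemidirectProduct.map_inl, emb_ltr, jmap_base]
    · show embTw κ τ f hf hκ c (SemidirectProduct.inr (κ i)) =
        SemidirectProduct.inr (τ i.castSucc)
      unfold embTw
      rw [SemidirectProduct.map_inr, hf]
  ver := ⟨SemidirectProduct.inr, SemidirectProduct.inr_injective, fun i => rfl⟩

end Embed

section Universal

variable {V W Γ : Type} [Group V] [Group W] [Group Γ] {m : ℕ} (κ : Fin m → V)
  (τ : Fin (m + 1) → W) (f : V →* W) (hf : ∀ i, f (κ i) = τ i.castSucc) (c : ℕ)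
  (ρ : Fin (m + 2) → Γ) (θ : Tw (inv_univ κ) c →* Γ)
  (hθ : ∀ i, θ (nilP κ c i) = ρ i.castSucc) (ψ : W →* Γ) (hψ : ∀ i, ψ (τ i) = ρ i.succ)

include hf hθ hψ in
theorem θ_inr (hκ : IsStringC κ) (v : V) : θ (SemidirectProduct.inr v) = ψ (f v) := by
  have h : par κ Set.univ ≤ ((θ.comp SemidirectProduct.inr).eqLocus (ψ.comp f)) := by
    unfold par
    rw [closure_le]
    rintro _ ⟨i, _, rfl⟩
    show θ (SemidirectProduct.inr (κ i)) = ψ (f (κ i))
    rw [hf, hψ]
    exact hθ i.succ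
  rw [hκ.gen] at h
  exact h (mem_top v)

/-- the images of the letters -/
noncomputable def tlet (x : Vert τ) : Γ := ψ x.out * ρ 0 * (ψ x.out)⁻¹

include hψ in
theorem comm_zero (hρ : IsStringC ρ) (w : W) (hw : w ∈ vertSub τ) :
    ψ w * ρ 0 = ρ 0 * ψ w := by
  have h : vertSub τ ≤ (centralizer {ρ 0}).comap ψ := by
    unfold vertSub par
    rw [closure_le]
    rintro _ ⟨i, hi, rfl⟩
    rw [SetLike.mem_coe, mem_comap, mem_centralizer_iff]
    intro y hy
    rw [Set.mem_singleton_iff] at hy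
    rw [hy, hψ]
    apply hρ.comm
    have hi' : (i : ℕ) ≠ 0 := hi
    simp only [Fin.val_zero, Fin.val_succ]
    omega
  have h1 := h hw
  rw [mem_comap, mem_centralizer_iff] at h1
  exact (h1 (ρ 0) rfl).symm

include hψ in
theorem tlet_mk (hρ : IsStringC ρ) (w : W) :
    tlet τ ρ ψ ((w : W) : Vert τ) = ψ w * ρ 0 * (ψ w)⁻¹ := by
  obtain ⟨k, hk, hw⟩ : ∃ k ∈ vertSub τ, (((w : W) : Vert τ)).out = w * k := by
    refine ⟨w⁻¹ * (((w : W) : Vert τ)).out, ?_, by group⟩
    rw [← QuotientGroup.eq]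
    exact (QuotientGroup.out_eq' _).symm
  unfold tlet
  rw [hw, map_mul]
  have h := comm_zero τ ρ ψ hψ hρ k hk
  calc ψ w * ψ k * ρ 0 * (ψ w * ψ k)⁻¹ = ψ w * (ψ k * ρ 0) * (ψ w * ψ k)⁻¹ := by
        simp only [mul_assoc]
    _ = ψ w * (ρ 0 * ψ k) * (ψ w * ψ k)⁻¹ := by rw [h]
    _ = ψ w * ρ 0 * (ψ w)⁻¹ := by group

include hψ in
theorem tlet_smul (hρ : IsStringC ρ) (w : W) (x : Vert τ) :
    tlet τ ρ ψ (w • x) = ψ w * tlet τ ρ ψ x * (ψ w)⁻¹ := by
  obtain ⟨u, rfl⟩ := QuotientGroup.mk_surjective x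
  have h : w • ((u : W) : Vert τ) = (((w * u : W)) : Vert τ) := rfl
  show tlet τ ρ ψ (w • ((u : W) : Vert τ)) = ψ w * tlet τ ρ ψ ((u : W) : Vert τ) * (ψ w)⁻¹
  rw [h, tlet_mk τ ρ ψ hψ hρ, tlet_mk τ ρ ψ hψ hρ, map_mul]
  group

include hψ in
theorem tlet_sq (hρ : IsStringC ρ) (x : Vert τ) : tlet τ ρ ψ x * tlet τ ρ ψ x = 1 := by
  obtain ⟨u, rfl⟩ := QuotientGroup.mk_surjective x
  show tlet τ ρ ψ ((u : W) : Vert τ) * tlet τ ρ ψ ((u : W) : Vert τ) = 1
  rw [tlet_mk τ ρ ψ hψ hρ]
  calc ψ u * ρ 0 * (ψ u)⁻¹ * (ψ u * ρ 0 * (ψ u)⁻¹) = ψ u * (ρ 0 * ρ 0) * (ψ u)⁻¹ := by group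
    _ = 1 := by rw [hρ.sq]; group

include hθ hψ in
theorem θ_ltr (hκ : IsStringC κ) (hρ : IsStringC ρ) (x : Vert κ) :
    θ (SemidirectProduct.inl (ltr _ c x)) = tlet τ ρ ψ (jmap κ τ f hf x) := by
  obtain ⟨v, rfl⟩ := QuotientGroup.mk_surjective x
  have h0 : θ (SemidirectProduct.inl (ltr _ c (baseV κ))) = ρ 0 := hθ 0
  have h1 := tw_conj (inv_univ κ) c v (baseV κ)
  rw [smul_baseV] at h1
  show θ (SemidirectProduct.inl (ltr _ c ((v : V) : Vert κ))) = _
  rw [← h1, map_mul, map_mul, map_inv, h0, θ_inr κ τ f hf c ρ θ hθ ψ hψ hκ]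
  show _ = tlet τ ρ ψ ((f v : W) : Vert τ)
  rw [tlet_mk τ ρ ψ hψ hρ]

include hf hθ hψ in
theorem tlet_blk (hκ : IsStringC κ) (hρ : IsStringC ρ) (A : Set (Vert τ))
    (hA : A ∈ facetSets τ) : (closure (tlet τ ρ ψ '' A)).lowerCentralSeries c = ⊥ := by
  obtain ⟨w, rfl⟩ := hA
  have h1 : (closure (tlet τ ρ ψ '' facetVerts τ)).lowerCentralSeries c = ⊥ := by
    have h2 : closure (tlet τ ρ ψ '' facetVerts τ) =
        (⊤ : Subgroup (Blk ({Set.univ} : Set (Set (Vert κ))) c)).map
          (θ.comp SemidirectProduct.inl) := by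
      rw [← ltr_closure, MonoidHom.map_closure, facetVerts_eq κ τ f hf hκ, ← Set.range_comp,
        ← Set.range_comp]
      congr 1
      apply congrArg Set.range
      funext x
      exact (θ_ltr κ τ f hf c ρ θ hθ ψ hψ hκ hρ x).symm
    rw [h2, ← map_lowerCentralSeries, blk_univ_top, Subgroup.map_bot]
  have h3 : closure (tlet τ ρ ψ '' (w • facetVerts τ)) =
      (closure (tlet τ ρ ψ '' facetVerts τ)).map (MulAut.conj (ψ w)).toMonoidHom := by
    rw [MonoidHom.map_closure, ← Set.image_smul, Set.image_image, Set.image_image]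
    congr 1
    apply Set.image_congr
    intro x _
    rw [tlet_smul τ ρ ψ hψ hρ]
    rfl
  rw [h3, ← map_lowerCentralSeries, h1, Subgroup.map_bot]

include hf hθ hψ in
theorem exists_lift (hκ : IsStringC κ) (hρ : IsStringC ρ) :
    ∃ g : Tw (inv_facetSets τ) c →* Γ, ∀ i, g (uniP τ c i) = ρ i := by
  set fn : Blk (facetSets τ) c →* Γ := blkLift (facetSets τ) c (tlet τ ρ ψ)
    (tlet_sq τ ρ ψ hψ hρ) (tlet_blk κ τ f hf c ρ θ hθ ψ hψ hκ hρ) with hfn
  have hltr : ∀ x, fn (ltr _ c x) = tlet τ ρ ψ x := fun x => by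
    rw [hfn, blkLift_ltr]
  refine ⟨SemidirectProduct.lift fn ψ ?_, ?_⟩
  · intro w
    apply blk_hom_ext
    intro x
    show fn (act (inv_facetSets τ) c w (ltr _ c x)) = ψ w * fn (ltr _ c x) * (ψ w)⁻¹
    rw [act_ltr, hltr, hltr, tlet_smul τ ρ ψ hψ hρ]
  · intro i
    refine Fin.cases ?_ (fun i => ?_) i
    · show SemidirectProduct.lift fn ψ _ (SemidirectProduct.inl (ltr _ c (baseV τ))) = ρ 0
      rw [SemidirectProduct.lift_inl, hltr]
      have := tlet_mk τ ρ ψ hψ hρ 1
      rw [map_one] at this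
      show tlet τ ρ ψ (((1 : W)) : Vert τ) = ρ 0
      rw [this]
      group
    · show SemidirectProduct.lift fn ψ _ (SemidirectProduct.inr (τ i)) = ρ i.succ
      rw [SemidirectProduct.lift_inr, hψ]

end Universal

/-- The universal polytope with facets `P(K, c)` and vertex-figures `(W, τ)` exists. -/
theorem uniP_universal {V W : Type} [Group V] [Group W] {m : ℕ} (κ : Fin m → V)
    (τ : Fin (m + 1) → W) (f : V →* W) (hf : ∀ i, f (κ i) = τ i.castSucc)
    (hinj : Function.Injective f) (hκ : IsStringC κ) (hτ : IsStringC τ) (c : ℕ) (hc : 1 ≤ c) :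
    IsUniversal (nilP κ c) τ (uniP τ c) where
  fv := uniP_FV κ τ f hf hinj hκ hτ c hc
  univ := by
    intro Γ' _ ρ' h
    obtain ⟨θ, _, hθ⟩ := h.fac
    obtain ⟨ψ, _, hψ⟩ := h.ver
    exact exists_lift κ τ f hf c ρ' θ hθ ψ hψ hκ h.str

/-- Two vertices in no common facet: infinite. -/
theorem uniP_infinite {W : Type} [Group W] {m : ℕ} (τ : Fin (m + 1) → W) (c : ℕ) (hc : 1 ≤ c)
    (x y : Vert τ) (hne : x ≠ y) (hxy : ∀ A ∈ facetSets τ, ¬ (x ∈ A ∧ y ∈ A)) :
    Infinite (Tw (inv_facetSets τ) c) := by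
  have h := blk_infinite (facetSets τ) c hc x y hxy hne
  exact Infinite.of_injective (SemidirectProduct.inl : Blk (facetSets τ) c →* _)
    SemidirectProduct.inl_injective

/-- the universal polytope is unique up to isomorphism -/
theorem universal_unique {G W Γ Γ' : Type} [Group G] [Group W] [Group Γ] [Group Γ'] {n : ℕ}
    (σ : Fin n → G) (τ : Fin n → W) (ρ : Fin (n + 1) → Γ) (ρ' : Fin (n + 1) → Γ')
    (h : IsUniversal σ τ ρ) (h' : IsUniversal σ τ ρ') : StrIso ρ ρ' := by
  obtain ⟨f, hf⟩ := h.univ Γ' ρ' h'.fv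
  obtain ⟨g, hg⟩ := h'.univ Γ ρ h.fv
  have h1 : g.comp f = MonoidHom.id Γ := by
    apply MonoidHom.eq_of_eqOn_dense h.fv.str.gen
    rintro _ ⟨i, _, rfl⟩
    show g (f (ρ i)) = ρ i
    rw [hf, hg]
  have h2 : f.comp g = MonoidHom.id Γ' := by
    apply MonoidHom.eq_of_eqOn_dense h'.fv.str.gen
    rintro _ ⟨i, _, rfl⟩
    show f (g (ρ' i)) = ρ' i
    rw [hg, hf]
  exact ⟨MonoidHom.toMulEquiv f g h1 h2, hf⟩

end Pool.Agent.Helper83.UP
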