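import Pool.Agent.Helper83.UP.GTw
import Pool.Agent.Helper83.UP.Univ

/-!
# The polytopes `2^K / C` for a code `C`
-/

namespace Pool.Agent.Helper83.UP

open Subgroup Pool.Agent.Helper23.UP

section Words

variable {Ω W : Type} [Group W] [MulAction W Ω]

/-- binary words indexed by `Ω` (written multiplicatively) -/
abbrev Wd (Ω : Type) : Type := Ω → C2

/-- the action of a group element on the words -/
def wact (w : W) : Wd Ω ≃* Wd Ω where
  toFun c := fun x => c (w⁻¹ • x)
  invFun c := fun x => c (w • x)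
  left_inv c := by
    funext x
    show c (w⁻¹ • w • x) = c x
    rw [inv_smul_smul]
  right_inv c := by
    funext x
    show c (w • w⁻¹ • x) = c x
    rw [smul_inv_smul]
  map_mul' _ _ := rfl

theorem wact_apply (w : W) (c : Wd Ω) (x : Ω) : wact w c x = c (w⁻¹ • x) := rfl

theorem wact_mul (v w : W) (c : Wd Ω) : wact (v * w) c = wact v (wact w c) := by
  funext x
  rw [wact_apply, wact_apply, wact_apply, mul_inv_rev, mul_smul]

theorem wact_one (c : Wd Ω) : wact (1 : W) c = c := by
  funext x
  rw [wact_apply, inv_one, one_smul]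

open Classical in
/-- the word of weight one at `x` -/
noncomputable def sgl (x : Ω) : Wd Ω := fun y => if y = x then z2 else 1

theorem sgl_same (x : Ω) : sgl x x = z2 := if_pos rfl

theorem sgl_ne {x y : Ω} (h : y ≠ x) : sgl x y = 1 := if_neg h

theorem wact_single (w : W) (x : Ω) : wact w (sgl x) = sgl (w • x) := by
  funext y
  rw [wact_apply]
  by_cases h : y = w • x
  · rw [h, inv_smul_smul, sgl_same, sgl_same]
  · rw [sgl_ne h, sgl_ne]
    intro h'
    exact h (by rw [← h', smul_inv_smul])

/-- The code is invariant under the group `W`. -/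
def CInv (W : Type) [Group W] [MulAction W Ω] (C : Subgroup (Wd Ω)) : Prop :=
  ∀ (w : W), ∀ c ∈ C, wact w c ∈ C

theorem cinv_map {C : Subgroup (Wd Ω)} (hC : CInv W C) (w : W) :
    C.map (wact w : Wd Ω ≃* Wd Ω).toMonoidHom = C := by
  ext c
  constructor
  · rintro ⟨d, hd, rfl⟩
    exact hC w d hd
  · intro hc
    refine ⟨wact w⁻¹ c, hC w⁻¹ c hc, ?_⟩
    show wact w (wact w⁻¹ c) = c
    rw [← wact_mul, mul_inv_cancel, wact_one]

/-- the action on the quotient by the code -/
def cact {C : Subgroup (Wd Ω)} (hC : CInv W C) : W →* MulAut (Wd Ω ⧸ C) where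
  toFun w := QuotientGroup.congr C C (wact w) (cinv_map hC w)
  map_one' := by
    apply MulEquiv.ext
    intro n
    obtain ⟨c, rfl⟩ := QuotientGroup.mk_surjective n
    show ((wact (1 : W) c : Wd Ω) : Wd Ω ⧸ C) = (c : Wd Ω ⧸ C)
    rw [wact_one]
  map_mul' v w := by
    apply MulEquiv.ext
    intro n
    obtain ⟨c, rfl⟩ := QuotientGroup.mk_surjective n
    show ((wact (v * w) c : Wd Ω) : Wd Ω ⧸ C) = ((wact v (wact w c) : Wd Ω) : Wd Ω ⧸ C)
    rw [wact_mul]

theorem cact_mk {C : Subgroup (Wd Ω)} (hC : CInv W C) (w : W) (c : Wd Ω) :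
    cact hC w (c : Wd Ω ⧸ C) = ((wact w c : Wd Ω) : Wd Ω ⧸ C) := rfl

/-- the letters -/
noncomputable def cl (C : Subgroup (Wd Ω)) (x : Ω) : Wd Ω ⧸ C := ((sgl x : Wd Ω) : Wd Ω ⧸ C)

theorem cl_act {C : Subgroup (Wd Ω)} (hC : CInv W C) (w : W) (x : Ω) :
    cact hC w (cl C x) = cl C (w • x) := by
  unfold cl
  rw [cact_mk, wact_single]

theorem c2_sq (a : C2) : a * a = 1 := by
  revert a
  decide

theorem wd_sq (c : Wd Ω) : c * c = 1 := by
  funext x
  exact c2_sq (c x)

theorem cl_sq (C : Subgroup (Wd Ω)) (x : Ω) : cl C x * cl C x = 1 := by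
  unfold cl
  rw [← QuotientGroup.mk_mul, wd_sq]
  rfl

theorem c2_pow (a : C2) : a = 1 ∨ a = z2 := by
  revert a
  decide

theorem wd_ext [Finite Ω] {H : Type} [Group H] (f g : Wd Ω →* H)
    (h : ∀ x, f (sgl x) = g (sgl x)) : f = g := by
  classical
  apply MonoidHom.pi_ext
  intro x a
  rcases c2_pow a with rfl | rfl
  · rw [Pi.mulSingle_one, map_one, map_one]
  · have e : (Pi.mulSingle x z2 : Wd Ω) = sgl x := by
      funext y
      by_cases hy : y = x
      · rw [hy, sgl_same, Pi.mulSingle_eq_same]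
      · rw [sgl_ne hy, Pi.mulSingle_eq_of_ne hy]
    rw [e]
    exact h x

theorem cl_closure [Finite Ω] (C : Subgroup (Wd Ω)) :
    Subgroup.closure (Set.range (cl C)) = ⊤ := by
  set K := Subgroup.closure (Set.range (cl C)) with hK
  have h1 : ((QuotientGroup.mk' K).comp (QuotientGroup.mk' C)) = 1 := by
    apply wd_ext
    intro x
    show ((cl C x : Wd Ω ⧸ C) : (Wd Ω ⧸ C) ⧸ K) = 1
    rw [QuotientGroup.eq_one_iff]
    exact subset_closure ⟨x, rfl⟩
  rw [eq_top_iff]
  intro n _
  obtain ⟨c, rfl⟩ := QuotientGroup.mk_surjective n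
  rw [← QuotientGroup.eq_one_iff]
  exact DFunLike.congr_fun h1 c

end Words

section Poly

variable {W : Type} [Group W] {m : ℕ}

/-- The polytope `2^K / C`: `K = (W, τ)` is a regular polytope, `C` an invariant code on its
vertices; its group is the semidirect product of the group of all words modulo `C` with `W`. -/
noncomputable def codeP (τ : Fin m → W) {C : Subgroup (Wd (Vert τ))} (hC : CInv W C) :
    Fin (m + 1) → (Wd (Vert τ) ⧸ C) ⋊[cact hC] W :=
  gtw (cact hC) (cl C) (baseV τ) τ

theorem codeP_str (τ : Fin m → W) (hτ : IsStringC τ) [Finite (Vert τ)]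
    {C : Subgroup (Wd (Vert τ))} (hC : CInv W C) (h1 : sgl (baseV τ) ∉ C) :
    IsStringC (codeP τ hC) := by
  refine gtw_str (cact hC) (cl C) (fun w x => cl_act hC w x) (cl_closure C) (cl_sq C) (baseV τ)
    ?_ τ hτ (baseV_fix τ) (baseV_trans τ)
  intro h
  unfold cl at h
  rw [QuotientGroup.eq_one_iff] at h
  exact h1 h

end Poly

section Ext

variable {V W : Type} [Group V] [Group W] {m : ℕ} (κ : Fin m → V) (τ : Fin (m + 1) → W)
  (f : V →* W) (hf : ∀ i, f (κ i) = τ i.castSucc)

open Classical in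
/-- extension of the words of the facet by the trivial word -/
noncomputable def wextFun (c : Wd (Vert κ)) : Wd (Vert τ) :=
  fun y => if h : ∃ x, jmap κ τ f hf x = y then c h.choose else 1

theorem wextFun_range (hji : Function.Injective (jmap κ τ f hf)) (c : Wd (Vert κ))
    (x : Vert κ) : wextFun κ τ f hf c (jmap κ τ f hf x) = c x := by
  have h : ∃ x', jmap κ τ f hf x' = jmap κ τ f hf x := ⟨x, rfl⟩
  unfold wextFun
  rw [dif_pos h, hji h.choose_spec]

/-- extension of words, as a homomorphism -/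
noncomputable def wext : Wd (Vert κ) →* Wd (Vert τ) where
  toFun := wextFun κ τ f hf
  map_one' := by
    funext y
    unfold wextFun
    split_ifs
    · rfl
    · rfl
  map_mul' a b := by
    funext y
    rw [Pi.mul_apply]
    unfold wextFun
    split_ifs
    · rfl
    · rw [mul_one]

theorem wext_range (hji : Function.Injective (jmap κ τ f hf)) (c : Wd (Vert κ))
    (x : Vert κ) : wext κ τ f hf c (jmap κ τ f hf x) = c x := wextFun_range κ τ f hf hji c x

theorem wext_out (c : Wd (Vert κ)) (y : Vert τ) (hy : ∀ x, jmap κ τ f hf x ≠ y) :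
    wext κ τ f hf c y = 1 := by
  show wextFun κ τ f hf c y = 1
  unfold wextFun
  rw [dif_neg]
  rintro ⟨x, hx⟩
  exact hy x hx

theorem wext_single (hji : Function.Injective (jmap κ τ f hf)) (x : Vert κ) :
    wext κ τ f hf (sgl x) = sgl (jmap κ τ f hf x) := by
  funext y
  by_cases hy : ∃ x', jmap κ τ f hf x' = y
  · obtain ⟨x', rfl⟩ := hy
    rw [wext_range κ τ f hf hji]
    by_cases h : x' = x
    · rw [h, sgl_same, sgl_same]
    · rw [sgl_ne h, sgl_ne (fun h' => h (hji h'))]
  · push Not at hy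
    rw [wext_out κ τ f hf _ y hy, sgl_ne (hy x).symm]

/-- The code on the vertices of `(W, τ)` generated by the copies of `C` on the facets. -/
noncomputable def spanC (C : Subgroup (Wd (Vert κ))) : Subgroup (Wd (Vert τ)) :=
  closure {d | ∃ (w : W), ∃ c ∈ C, d = wact w (wext κ τ f hf c)}

theorem spanC_inv (C : Subgroup (Wd (Vert κ))) : CInv W (spanC κ τ f hf C) := by
  intro w
  have h : spanC κ τ f hf C ≤
      (spanC κ τ f hf C).comap (wact w : Wd (Vert τ) ≃* Wd (Vert τ)).toMonoidHom := by
    conv_lhs => unfold spanC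
    rw [closure_le]
    rintro _ ⟨v, c, hc, rfl⟩
    show wact w (wact v (wext κ τ f hf c)) ∈ spanC κ τ f hf C
    rw [← wact_mul]
    exact subset_closure ⟨w * v, c, hc, rfl⟩
  exact fun c hc => h hc

theorem wext_mem (C : Subgroup (Wd (Vert κ))) (c : Wd (Vert κ)) (hc : c ∈ C) :
    wext κ τ f hf c ∈ spanC κ τ f hf C :=
  subset_closure ⟨1, c, hc, (wact_one _).symm⟩

theorem wext_act (hji : Function.Injective (jmap κ τ f hf)) [Finite (Vert κ)] (v : V)
    (c : Wd (Vert κ)) : wext κ τ f hf (wact v c) = wact (f v) (wext κ τ f hf c) := by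
  have h : (wext κ τ f hf).comp (wact v : Wd (Vert κ) ≃* Wd (Vert κ)).toMonoidHom =
      (wact (f v) : Wd (Vert τ) ≃* Wd (Vert τ)).toMonoidHom.comp (wext κ τ f hf) := by
    apply wd_ext
    intro x
    show wext κ τ f hf (wact v _) = wact (f v) (wext κ τ f hf _)
    rw [wact_single, wext_single κ τ f hf hji, wext_single κ τ f hf hji, wact_single,
      jmap_smul]
  exact DFunLike.congr_fun h c

/-- the criterion gives facets -/
theorem codeP_FV (hinj : Function.Injective f) (hκ : IsStringC κ) (hτ : IsStringC τ)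
    [Finite (Vert κ)] [Finite (Vert τ)] {C : Subgroup (Wd (Vert κ))} (hC : CInv V C)
    (h1 : sgl (baseV κ) ∉ C)
    (hcrit : ∀ c, wext κ τ f hf c ∈ spanC κ τ f hf C → c ∈ C) :
    HasFV (codeP κ hC) τ (codeP τ (spanC_inv κ τ f hf C)) where
  str := by
    apply codeP_str τ hτ
    intro h
    rw [← jmap_base κ τ f hf, ← wext_single κ τ f hf (jmap_inj κ τ f hf hinj hκ hτ)] at h
    exact h1 (hcrit _ h)
  fac := by
    have hji := jmap_inj κ τ f hf hinj hκ hτ
    have hle : C ≤ (spanC κ τ f hf C).comap (wext κ τ f hf) :=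
      fun c hc => wext_mem κ τ f hf C c hc
    refine ⟨SemidirectProduct.map (QuotientGroup.map C (spanC κ τ f hf C) (wext κ τ f hf) hle) f
      ?_, ?_, ?_⟩
    · intro v
      apply MonoidHom.ext
      intro n
      obtain ⟨c, rfl⟩ := QuotientGroup.mk_surjective n
      show ((wext κ τ f hf (wact v c) : Wd (Vert τ)) : Wd (Vert τ) ⧸ spanC κ τ f hf C) =
        ((wact (f v) (wext κ τ f hf c) : Wd (Vert τ)) : Wd (Vert τ) ⧸ spanC κ τ f hf C)
      rw [wext_act κ τ f hf hji]
    · intro a b hab
      have e1 := congrArg SemidirectProduct.left hab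
      have e2 := congrArg SemidirectProduct.right hab
      refine SemidirectProduct.ext ?_ (hinj e2)
      have h3 : Function.Injective
          (QuotientGroup.map C (spanC κ τ f hf C) (wext κ τ f hf) hle) := by
        rw [injective_iff_map_eq_one]
        intro n hn
        obtain ⟨c, rfl⟩ := QuotientGroup.mk_surjective n
        have h4 : ((wext κ τ f hf c : Wd (Vert τ)) : Wd (Vert τ) ⧸ spanC κ τ f hf C) = 1 := hn
        rw [QuotientGroup.eq_one_iff] at h4
        exact (QuotientGroup.eq_one_iff c).2 (hcrit c h4)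
      exact h3 e1
    · intro i
      refine Fin.cases ?_ (fun i => ?_) i
      · show SemidirectProduct.map _ f _ (SemidirectProduct.inl (cl C (baseV κ))) =
          SemidirectProduct.inl (cl _ (baseV τ))
        rw [SemidirectProduct.map_inl]
        congr 1
        show ((wext κ τ f hf (sgl (baseV κ)) : Wd (Vert τ)) :
          Wd (Vert τ) ⧸ spanC κ τ f hf C) = _
        rw [wext_single κ τ f hf hji, jmap_base]
        rfl
      · show SemidirectProduct.map _ f _ (SemidirectProduct.inr (κ i)) =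
          SemidirectProduct.inr (τ i.castSucc)
        rw [SemidirectProduct.map_inr, hf]
  ver := ⟨SemidirectProduct.inr, SemidirectProduct.inr_injective, fun i => rfl⟩

end Ext

end Pool.Agent.Helper83.UP
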