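import Pool.Agent.Helper83.UP.Nilp

/-!
# An infinite group generated by `m + 2` involutions, any `m + 1` of which generate a group of
nilpotency class at most `m + 1`
-/

namespace Pool.Agent.Helper83.UP

open Subgroup
open scoped commutatorElement

/-- functions on the integers with values in the field with two elements -/
abbrev VV : Type := ℤ → ZMod 2

/-- the linear maps -/
abbrev RR : Type := Module.End (ZMod 2) VV

/-- the shift on the residue class `i` modulo `m + 2` -/
def xx (m : ℕ) (i : ZMod (m + 2)) : RR where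
  toFun v := fun k => if ((k - 1 : ℤ) : ZMod (m + 2)) = i then v (k - 1) else 0
  map_add' v w := by
    funext k
    by_cases h : ((k - 1 : ℤ) : ZMod (m + 2)) = i
    · simp only [h, if_true, Pi.add_apply]
    · simp only [h, if_false, Pi.add_apply, add_zero]
  map_smul' a v := by
    funext k
    by_cases h : ((k - 1 : ℤ) : ZMod (m + 2)) = i
    · simp only [h, if_true, Pi.smul_apply, RingHom.id_apply]
    · simp only [h, if_false, Pi.smul_apply, smul_zero, RingHom.id_apply]

theorem xx_apply (m : ℕ) (i : ZMod (m + 2)) (v : VV) (k : ℤ) :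
    xx m i v k = if ((k - 1 : ℤ) : ZMod (m + 2)) = i then v (k - 1) else 0 := rfl

theorem xx_sq (m : ℕ) (i : ZMod (m + 2)) : xx m i * xx m i = 0 := by
  apply LinearMap.ext
  intro v
  funext k
  show xx m i (xx m i v) k = 0
  rw [xx_apply, xx_apply]
  by_cases h : ((k - 1 : ℤ) : ZMod (m + 2)) = i
  · by_cases h2 : ((k - 1 - 1 : ℤ) : ZMod (m + 2)) = i
    · exfalso
      have h3 : ((k - 1 - 1 : ℤ) : ZMod (m + 2)) = ((k - 1 : ℤ) : ZMod (m + 2)) - 1 := by
        push_cast
        ring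
      rw [h3, h] at h2
      have h4 : (1 : ZMod (m + 2)) = 0 := by
        have := congrArg (fun z => i - z) h2
        simp only [sub_sub_cancel, sub_self] at this
        exact this
      have : Fact (1 < m + 2) := ⟨by omega⟩
      exact one_ne_zero h4
    · rw [if_pos h, if_neg h2]
  · rw [if_neg h]

theorem RR_two (a : RR) : a + a = 0 := by
  apply LinearMap.ext
  intro v
  funext k
  show a v k + a v k = 0
  exact CharTwo.add_self_eq_zero _

/-- the involutions -/
def tt (m : ℕ) (i : ZMod (m + 2)) : RRˣ where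
  val := 1 + xx m i
  inv := 1 + xx m i
  val_inv := by
    rw [mul_add, add_mul, one_mul, mul_one, add_mul, xx_sq, one_mul, add_zero, add_assoc,
      RR_two, add_zero]
  inv_val := by
    rw [mul_add, add_mul, one_mul, mul_one, add_mul, xx_sq, one_mul, add_zero, add_assoc,
      RR_two, add_zero]

theorem tt_sq (m : ℕ) (i : ZMod (m + 2)) : tt m i * tt m i = 1 := by
  ext1
  exact (tt m i).val_inv

/-- the position of `k` in its block (the blocks end at the integers congruent to `j`) -/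
def pos (m : ℕ) (j : ZMod (m + 2)) (k : ℤ) : ℤ := (((k : ZMod (m + 2)) - j - 1).val : ℤ)

theorem pos_nonneg (m : ℕ) (j : ZMod (m + 2)) (k : ℤ) : 0 ≤ pos m j k := by
  unfold pos
  positivity

theorem pos_lt (m : ℕ) (j : ZMod (m + 2)) (k : ℤ) : pos m j k < m + 2 := by
  unfold pos
  have := ZMod.val_lt ((k : ZMod (m + 2)) - j - 1)
  exact_mod_cast this

theorem pos_sub (m : ℕ) (j : ZMod (m + 2)) (k l : ℤ) (h1 : k - pos m j k ≤ l) (h2 : l ≤ k) :
    pos m j l = pos m j k - (k - l) := by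
  obtain ⟨d, hd⟩ : ∃ d : ℕ, k - l = d := ⟨(k - l).toNat, by omega⟩
  have hl : l = k - d := by omega
  have hd2 : (d : ℤ) ≤ pos m j k := by omega
  rw [hd, hl]
  unfold pos at *
  have hd3 : d ≤ ((k : ZMod (m + 2)) - j - 1).val := by exact_mod_cast hd2
  have h3 : (((k - d : ℤ)) : ZMod (m + 2)) - j - 1 =
      ((((k : ZMod (m + 2)) - j - 1).val - d : ℕ) : ZMod (m + 2)) := by
    rw [Nat.cast_sub hd3, ZMod.natCast_zmod_val]
    push_cast
    ring
  rw [h3, ZMod.val_natCast_of_lt]
  · omega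
  · have := ZMod.val_lt ((k : ZMod (m + 2)) - j - 1)
    omega

/-- operators that shift by at least `s` within the blocks -/
def II (m : ℕ) (j : ZMod (m + 2)) (s : ℕ) : Set RR :=
  {a | ∀ (k : ℤ) (v : VV), (∀ l : ℤ, k - pos m j k ≤ l → l ≤ k - s → v l = 0) → a v k = 0}

theorem II_mul (m : ℕ) (j : ZMod (m + 2)) (s t : ℕ) (a b : RR) (ha : a ∈ II m j s)
    (hb : b ∈ II m j t) : a * b ∈ II m j (s + t) := by
  intro k v hv
  show a (b v) k = 0
  apply ha k
  intro l hl1 hl2
  apply hb l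
  intro l' hl1' hl2'
  have h := pos_sub m j k l hl1 (by omega)
  apply hv l'
  · omega
  · push_cast
    omega

theorem II_anti (m : ℕ) (j : ZMod (m + 2)) (s t : ℕ) (h : s ≤ t) : II m j t ⊆ II m j s := by
  intro a ha k v hv
  apply ha k v
  intro l h1 h2
  apply hv l h1
  have : (s : ℤ) ≤ t := by exact_mod_cast h
  omega

theorem II_add (m : ℕ) (j : ZMod (m + 2)) (s : ℕ) (a b : RR) (ha : a ∈ II m j s)
    (hb : b ∈ II m j s) : a + b ∈ II m j s := by
  intro k v hv
  show a v k + b v k = 0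
  rw [ha k v hv, hb k v hv, add_zero]

theorem II_neg (m : ℕ) (j : ZMod (m + 2)) (s : ℕ) (a : RR) (ha : a ∈ II m j s) :
    -a ∈ II m j s := by
  intro k v hv
  show -(a v k) = 0
  rw [ha k v hv, neg_zero]

theorem II_one (m : ℕ) (j : ZMod (m + 2)) : (1 : RR) ∈ II m j 0 := by
  intro k v hv
  exact hv k (by have := pos_nonneg m j k; omega) (by simp)

theorem II_top (m : ℕ) (j : ZMod (m + 2)) (a : RR) (ha : a ∈ II m j (m + 2)) : a = 0 := by
  apply LinearMap.ext
  intro v
  funext k
  apply ha k v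
  intro l h1 h2
  have := pos_lt m j k
  exfalso
  push_cast at h2
  omega

theorem II_xx (m : ℕ) (i j : ZMod (m + 2)) (hij : i ≠ j) : xx m i ∈ II m j 1 := by
  intro k v hv
  rw [xx_apply]
  by_cases h : ((k - 1 : ℤ) : ZMod (m + 2)) = i
  · rw [if_pos h]
    apply hv
    · have h1 : pos m j k ≠ 0 := by
        intro h0
        unfold pos at h0
        have h2 : ((k : ZMod (m + 2)) - j - 1).val = 0 := by exact_mod_cast h0
        rw [ZMod.val_eq_zero] at h2
        apply hij
        rw [← h]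
        push_cast
        have h3 : ((k : ZMod (m + 2)) - j - 1) + j = 0 + j := by rw [h2]
        rw [zero_add] at h3
        rw [← h3]
        ring
      have := pos_nonneg m j k
      omega
    · simp
  · rw [if_neg h]

/-- the corresponding subgroups -/
def KK (m : ℕ) (j : ZMod (m + 2)) (s : ℕ) : Subgroup RRˣ where
  carrier := {u | (u : RR) - 1 ∈ II m j s ∧ ((u⁻¹ : RRˣ) : RR) - 1 ∈ II m j s}
  one_mem' := by
    have h : (0 : RR) ∈ II m j s := fun k v _ => rfl
    constructor
    · rw [Units.val_one, sub_self]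
      exact h
    · rw [inv_one, Units.val_one, sub_self]
      exact h
  inv_mem' := by
    rintro u ⟨h1, h2⟩
    refine ⟨h2, ?_⟩
    rw [inv_inv]
    exact h1
  mul_mem' := by
    have key : ∀ u w : RRˣ, (u : RR) - 1 ∈ II m j s → (w : RR) - 1 ∈ II m j s →
        ((u * w : RRˣ) : RR) - 1 ∈ II m j s := by
      intro u w hu hw
      have h : ((u * w : RRˣ) : RR) - 1 =
          ((u : RR) - 1) * ((w : RR) - 1) + (((u : RR) - 1) + ((w : RR) - 1)) := by
        rw [Units.val_mul, sub_mul, mul_sub, one_mul, mul_one]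
        abel
      rw [h]
      refine II_add m j s _ _ (II_anti m j s (s + s) (by omega) (II_mul m j s s _ _ hu hw)) ?_
      exact II_add m j s _ _ hu hw
    rintro u w ⟨hu, hu'⟩ ⟨hw, hw'⟩
    refine ⟨key u w hu hw, ?_⟩
    rw [mul_inv_rev]
    exact key _ _ hw' hu'

theorem KK_comm (m : ℕ) (j : ZMod (m + 2)) (s t : ℕ) (u w : RRˣ) (hu : u ∈ KK m j s)
    (hw : w ∈ KK m j t) : ⁅u, w⁆ ∈ KK m j (s + t) := by
  have key : ∀ (s t : ℕ) (u w : RRˣ), u ∈ KK m j s → w ∈ KK m j t →
      ((⁅u, w⁆ : RRˣ) : RR) - 1 ∈ II m j (s + t) := by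
    intro s t u w hu hw
    have h : ((⁅u, w⁆ : RRˣ) : RR) - 1 =
        ((((u : RR) - 1) * ((w : RR) - 1) + -(((w : RR) - 1) * ((u : RR) - 1))) *
          ((u⁻¹ : RRˣ) : RR)) * ((w⁻¹ : RRˣ) : RR) := by
      rw [commutatorElement_def]
      have h1 : ((u * w * u⁻¹ * w⁻¹ : RRˣ) : RR) - 1 =
          ((((u * w : RRˣ) : RR) - ((w * u : RRˣ) : RR)) * ((u⁻¹ : RRˣ) : RR)) *
            ((w⁻¹ : RRˣ) : RR) := by
        rw [sub_mul, sub_mul, ← Units.val_mul, ← Units.val_mul, ← Units.val_mul,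
          ← Units.val_mul]
        congr 1
        have : w * u * u⁻¹ * w⁻¹ = 1 := by group
        rw [this, Units.val_one]
      rw [h1, Units.val_mul, Units.val_mul]
      congr 2
      simp only [sub_mul, mul_sub, one_mul, mul_one]
      abel
    have h0 : ∀ z : RRˣ, ∀ r : ℕ, z ∈ KK m j r → ((z⁻¹ : RRˣ) : RR) ∈ II m j 0 := by
      intro z r hz
      have : ((z⁻¹ : RRˣ) : RR) = (((z⁻¹ : RRˣ) : RR) - 1) + 1 := by noncomm_ring
      rw [this]
      exact II_add m j 0 _ _ (II_anti m j 0 r (by omega) hz.2) (II_one m j)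
    rw [h]
    have h2 := II_add m j (s + t) _ _ (II_mul m j s t _ _ hu.1 hw.1)
      (II_neg m j _ _ (by rw [add_comm]; exact II_mul m j t s _ _ hw.1 hu.1))
    exact II_mul m j (s + t) 0 _ _ (II_mul m j (s + t) 0 _ _ h2 (h0 u s hu)) (h0 w t hw)
  refine ⟨key s t u w hu hw, ?_⟩
  rw [commutatorElement_inv, add_comm]
  exact key t s w u hw hu

theorem lcs_KK (m : ℕ) (j : ZMod (m + 2)) (S : Subgroup RRˣ) (hS : S ≤ KK m j 1) :
    ∀ k : ℕ, S.lowerCentralSeries k ≤ KK m j (k + 1)
  | 0 => hS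
  | k + 1 => by
    rw [Subgroup.lowerCentralSeries_succ, commutator_le]
    intro u hu w hw
    exact KK_comm m j (k + 1) 1 u w (lcs_KK m j S hS k hu) (hS hw)

theorem tt_KK (m : ℕ) (i j : ZMod (m + 2)) (hij : i ≠ j) : tt m i ∈ KK m j 1 := by
  have h : ((tt m i : RRˣ) : RR) - 1 = xx m i := by
    show (1 + xx m i) - 1 = xx m i
    rw [add_sub_cancel_left]
  have h' : (((tt m i)⁻¹ : RRˣ) : RR) - 1 = xx m i := by
    show (1 + xx m i) - 1 = xx m i
    rw [add_sub_cancel_left]
  refine ⟨?_, ?_⟩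
  · rw [h]
    exact II_xx m i j hij
  · rw [h']
    exact II_xx m i j hij

/-- the letters different from `j` generate a group of class at most `m + 1` -/
theorem tt_lcs (m : ℕ) (j : ZMod (m + 2)) (A : Set (ZMod (m + 2))) (hA : j ∉ A) (c : ℕ)
    (hc : m + 1 ≤ c) : (closure (tt m '' A)).lowerCentralSeries c = ⊥ := by
  have h1 : closure (tt m '' A) ≤ KK m j 1 := by
    rw [closure_le]
    rintro _ ⟨i, hi, rfl⟩
    exact tt_KK m i j (fun h => hA (h ▸ hi))
  rw [eq_bot_iff]
  refine le_trans (Subgroup.lowerCentralSeries_antitone _ hc) ?_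
  refine le_trans (lcs_KK m j _ h1 (m + 1)) ?_
  rintro u ⟨hu, _⟩
  rw [Subgroup.mem_bot]
  ext1
  have := II_top m j _ hu
  rw [sub_eq_zero] at this
  exact this

/-- the vector supported at `0` -/
def δ0 : VV := fun k => if k = 0 then 1 else 0

/-- one more step moves the top of the support by one -/
theorem tt_top (m : ℕ) (k : ℕ) (v : VV) (h1 : v k = 1) (h2 : ∀ l : ℤ, (k : ℤ) < l → v l = 0) :
    (((tt m (k : ZMod (m + 2)) : RRˣ) : RR) v) ((k + 1 : ℕ) : ℤ) = 1 ∧
      ∀ l : ℤ, (((k + 1 : ℕ) : ℤ)) < l → (((tt m (k : ZMod (m + 2)) : RRˣ) : RR) v) l = 0 := by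
  have e : ∀ l : ℤ, (((tt m (k : ZMod (m + 2)) : RRˣ) : RR) v) l =
      v l + xx m (k : ZMod (m + 2)) v l := fun l => rfl
  constructor
  · rw [e, xx_apply]
    have h3 : (((k + 1 : ℕ) : ℤ) - 1 : ℤ) = k := by push_cast; ring
    rw [h3, h2 _ (by push_cast; omega), h1]
    simp
  · intro l hl
    rw [e, xx_apply, h2 l (by push_cast at hl; omega), h2 (l - 1) (by push_cast at hl; omega)]
    simp

end Pool.Agent.Helper83.UP
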