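import Pool.Agent.Helper83.UP.Univ
import Pool.Agent.Helper83.UP.Uni2
import Pool.Agent.Helper23.UP.Young

/-!
# The case of the simplex
-/

namespace Pool.Agent.Helper83.UP

open Subgroup Pool.Agent.Helper23.UP
open scoped commutatorElement Pointwise

variable (m : ℕ)

theorem mem_vertSub_smp (g : Equiv.Perm (Fin (m + 2))) :
    g ∈ vertSub (smp (m + 1)) ↔ g 0 = 0 := by
  unfold vertSub
  rw [mem_par_smp]
  constructor
  · intro h
    have h1 := h 0 (fun h => h rfl) 0 (by simp)
    ext
    simpa using h1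
  · intro h i hi x hx
    have hi0 : (i : ℕ) = 0 := by
      by_contra hne
      exact hi hne
    rw [hi0] at hx ⊢
    have hx0 : x = 0 := by
      ext
      simpa using hx
    rw [hx0, h]
    simp

theorem mem_facetSub_smp (g : Equiv.Perm (Fin (m + 2))) :
    g ∈ facetSub (smp (m + 1)) ↔ g (Fin.last (m + 1)) = Fin.last (m + 1) := by
  unfold facetSub
  rw [mem_par_smp]
  constructor
  · intro h
    -- `g` preserves the set of the first points, hence fixes the last one
    by_contra hne
    have hlt : (g (Fin.last (m + 1)) : ℕ) ≤ m := by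
      have := (g (Fin.last (m + 1))).isLt
      have h2 : (g (Fin.last (m + 1)) : ℕ) ≠ m + 1 := fun h3 => hne (Fin.ext (by simpa using h3))
      omega
    have h1 : ∀ x : Fin (m + 2), (x : ℕ) ≤ m → (g x : ℕ) ≤ m := by
      intro x hx
      have := h (Fin.last m) (by intro hcon; exact hcon (by simp)) x (by simpa using hx)
      simpa using this
    -- then `g` maps everything into the first `m + 1` points
    have h2 : ∀ x : Fin (m + 2), (g x : ℕ) ≤ m := by
      intro x
      by_cases hx : (x : ℕ) ≤ m
      · exact h1 x hx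
      · have hx' : x = Fin.last (m + 1) := by
          ext
          have := x.isLt
          simp only [Fin.val_last]
          omega
        rw [hx']
        exact hlt
    obtain ⟨x, hx⟩ := g.surjective (Fin.last (m + 1))
    have h3 := h2 x
    rw [hx] at h3
    simp only [Fin.val_last] at h3
    omega
  · intro h i hi x hx
    have hi' : (i : ℕ) = m := by
      have h1 : ¬ ((i : ℕ) + 1 ≠ m + 1) := hi
      omega
    rw [hi'] at hx ⊢
    have hne : x ≠ Fin.last (m + 1) := by
      intro h1
      rw [h1] at hx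
      simp only [Fin.val_last] at hx
      omega
    have h2 : g x ≠ Fin.last (m + 1) := by
      intro h3
      rw [← h] at h3
      exact hne (g.injective h3)
    have h3 := (g x).isLt
    have h4 : (g x : ℕ) ≠ m + 1 := fun h5 => h2 (Fin.ext (by simpa using h5))
    omega

/-- the vertices of the simplex as points -/
def pt : Vert (smp (m + 1)) → Fin (m + 2) := fun x =>
  Quotient.liftOn' x (fun g => g 0) (by
    intro a b hab
    rw [QuotientGroup.leftRel_apply, mem_vertSub_smp] at hab
    rw [Equiv.Perm.mul_apply, Equiv.Perm.inv_eq_iff_eq] at hab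
    exact hab.symm)

theorem pt_mk (g : Equiv.Perm (Fin (m + 2))) :
    pt m ((g : Equiv.Perm (Fin (m + 2))) : Vert (smp (m + 1))) = g 0 := rfl

theorem pt_inj : Function.Injective (pt m) := by
  intro x y hxy
  obtain ⟨u, rfl⟩ := QuotientGroup.mk_surjective x
  obtain ⟨v, rfl⟩ := QuotientGroup.mk_surjective y
  have h : u 0 = v 0 := hxy
  refine QuotientGroup.eq.2 ?_
  rw [mem_vertSub_smp, Equiv.Perm.mul_apply, ← h, Equiv.Perm.inv_eq_iff_eq]

theorem pt_mem (w : Equiv.Perm (Fin (m + 2))) (x : Vert (smp (m + 1))) :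
    x ∈ w • facetVerts (smp (m + 1)) ↔ pt m x ≠ w (Fin.last (m + 1)) := by
  obtain ⟨u, rfl⟩ := QuotientGroup.mk_surjective x
  have e : w⁻¹ • ((u : Equiv.Perm (Fin (m + 2))) : Vert (smp (m + 1))) =
      (((w⁻¹ * u : Equiv.Perm (Fin (m + 2)))) : Vert (smp (m + 1))) := rfl
  rw [Set.mem_smul_set_iff_inv_smul_mem]
  show w⁻¹ • ((u : Equiv.Perm (Fin (m + 2))) : Vert (smp (m + 1))) ∈ _ ↔
    pt m ((u : Equiv.Perm (Fin (m + 2))) : Vert (smp (m + 1))) ≠ _
  rw [e, pt_mk]
  constructor
  · rintro ⟨h, hh, hx⟩ hcon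
    rw [mem_facetSub_smp] at hh
    rw [QuotientGroup.eq, mem_vertSub_smp] at hx
    rw [mul_inv_rev, inv_inv, Equiv.Perm.mul_apply, Equiv.Perm.mul_apply,
      Equiv.Perm.inv_eq_iff_eq, hcon] at hx
    have h1 : h 0 = Fin.last (m + 1) := w.injective hx
    rw [← hh] at h1
    have h2 := h.injective h1
    rw [Fin.ext_iff] at h2
    simp only [Fin.val_zero, Fin.val_last] at h2
    omega
  · intro hne
    have hne' : w⁻¹ (u 0) ≠ Fin.last (m + 1) := by
      intro h
      rw [Equiv.Perm.inv_eq_iff_eq] at h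
      exact hne h
    have h0 : (0 : Fin (m + 2)) ≠ Fin.last (m + 1) := by
      intro h
      rw [Fin.ext_iff] at h
      simp only [Fin.val_zero, Fin.val_last] at h
      omega
    refine ⟨Equiv.swap 0 (w⁻¹ (u 0)), ?_, ?_⟩
    · rw [mem_facetSub_smp, Equiv.swap_apply_of_ne_of_ne h0.symm hne'.symm]
    · rw [QuotientGroup.eq, mem_vertSub_smp, Equiv.Perm.mul_apply, Equiv.swap_apply_left,
        Equiv.Perm.inv_eq_iff_eq]
      rfl

theorem smp_finite (c : ℕ) (hc : c ≤ m) : Finite (Blk (facetSets (smp (m + 1))) c) := by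
  classical
  have hfin : Finite (Vert (smp (m + 1))) := Finite.of_injective _ (pt_inj m)
  refine blk_finite _ c ?_
  intro S hS
  obtain ⟨j, hj⟩ : ∃ j : Fin (m + 2), j ∉ S.image (pt m) := by
    by_contra hcon
    push Not at hcon
    have h1 : S.image (pt m) = Finset.univ := Finset.eq_univ_iff_forall.2 hcon
    have h2 := congrArg Finset.card h1
    rw [Finset.card_univ, Fintype.card_fin] at h2
    have h3 := Finset.card_image_le (s := S) (f := pt m)
    omega
  refine ⟨Equiv.swap (Fin.last (m + 1)) j • facetVerts (smp (m + 1)), ⟨_, rfl⟩, ?_⟩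
  intro x hx
  rw [pt_mem, Equiv.swap_apply_left]
  intro h
  exact hj (Finset.mem_image.2 ⟨x, hx, h⟩)

/-- points as residues -/
def fz (i : Fin (m + 2)) : ZMod (m + 2) := i

theorem fz_inj : Function.Injective (fz m) := fun _ _ h => h

theorem fz_surj (z : ZMod (m + 2)) : ∃ i, fz m i = z := ⟨z, rfl⟩

/-- the letters as involutions of the infinite group -/
def tl (x : Vert (smp (m + 1))) : RRˣ := tt m (fz m (pt m x))

theorem tl_sq (x : Vert (smp (m + 1))) : tl m x * tl m x = 1 := tt_sq m _

theorem tl_blk (c : ℕ) (hc : m + 1 ≤ c) (A : Set (Vert (smp (m + 1))))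
    (hA : A ∈ facetSets (smp (m + 1))) : (closure (tl m '' A)).lowerCentralSeries c = ⊥ := by
  obtain ⟨w, rfl⟩ := hA
  have h : tl m '' (w • facetVerts (smp (m + 1))) =
      tt m '' ((fun x => fz m (pt m x)) '' (w • facetVerts (smp (m + 1)))) := by
    rw [Set.image_image]
    rfl
  rw [h]
  refine tt_lcs m (fz m (w (Fin.last (m + 1)))) _ ?_ c hc
  rintro ⟨x, hx, hx2⟩
  rw [pt_mem] at hx
  exact hx (fz_inj m hx2)

/-- a letter with a given point -/
theorem exists_pt (i : Fin (m + 2)) : ∃ x, pt m x = i :=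
  ⟨((Equiv.swap 0 i : Equiv.Perm (Fin (m + 2))) : Vert (smp (m + 1))), by
    rw [pt_mk, Equiv.swap_apply_left]⟩

theorem smp_infinite (c : ℕ) (hc : m + 1 ≤ c) :
    Infinite (Blk (facetSets (smp (m + 1))) c) := by
  set F := blkLift (facetSets (smp (m + 1))) c (tl m) (tl_sq m)
    (tl_blk m c hc) with hF
  have key : ∀ k : ℕ, ∃ n : Blk (facetSets (smp (m + 1))) c,
      (((F n : RRˣ) : RR) δ0) (k : ℤ) = 1 ∧
        ∀ l : ℤ, (k : ℤ) < l → (((F n : RRˣ) : RR) δ0) l = 0 := by
    intro k
    induction k with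
    | zero =>
      refine ⟨1, ?_, ?_⟩
      · rw [map_one, Units.val_one]
        show δ0 ((0 : ℕ) : ℤ) = 1
        simp [δ0]
      · intro l hl
        rw [map_one, Units.val_one]
        show δ0 l = 0
        have : l ≠ 0 := by
          push_cast at hl
          omega
        simp [δ0, this]
    | succ k ih =>
      obtain ⟨n, h1, h2⟩ := ih
      obtain ⟨i, hi⟩ := fz_surj m (k : ZMod (m + 2))
      obtain ⟨x, hx⟩ := exists_pt m i
      refine ⟨ltr _ c x * n, ?_⟩
      have h3 : ((F (ltr _ c x * n) : RRˣ) : RR) δ0 =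
          ((tt m (k : ZMod (m + 2)) : RRˣ) : RR) (((F n : RRˣ) : RR) δ0) := by
        have h4 : F (ltr _ c x) = tt m (k : ZMod (m + 2)) := by
          rw [hF, blkLift_ltr]
          unfold tl
          rw [hx, hi]
        rw [map_mul, h4]
        rfl
      rw [h3]
      exact tt_top m k _ h1 h2
  choose n hn1 hn2 using key
  refine Infinite.of_injective n ?_
  intro k l hkl
  by_contra hne
  rcases lt_or_gt_of_ne hne with h | h
  · have h1 := hn2 k (l : ℤ) (by exact_mod_cast h)
    rw [hkl, hn1 l] at h1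
    exact one_ne_zero h1
  · have h1 := hn2 l (k : ℤ) (by exact_mod_cast h)
    rw [← hkl, hn1 k] at h1
    exact one_ne_zero h1

/-- The universal polytope with facets `P(simplex, c)` and vertex-figures simplices is finite if
and only if `c` is smaller than the rank of the facets. -/
theorem smp_finite_iff (c : ℕ) :
    Finite (Tw (inv_facetSets (smp (m + 1))) c) ↔ c < m + 1 := by
  constructor
  · intro h
    by_contra hc
    have h1 := smp_infinite m c (by omega)
    have h2 : Finite (Blk (facetSets (smp (m + 1))) c) :=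
      Finite.of_injective (SemidirectProduct.inl : _ →* Tw (inv_facetSets (smp (m + 1))) c)
        SemidirectProduct.inl_injective
    exact not_finite (Blk (facetSets (smp (m + 1))) c)
  · intro h
    have h1 := smp_finite m c (by omega)
    exact Finite.of_equiv (Blk (facetSets (smp (m + 1))) c × Equiv.Perm (Fin (m + 2)))
      SemidirectProduct.equivProd.symm

end Pool.Agent.Helper83.UP
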