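import Pool.Agent.Helper83.UP.GTw
import Pool.Agent.Helper83.UP.Simp

/-!
# Generalised dihedral groups generated by involutions, with abelian rotation subgroup
-/

namespace Pool.Agent.Helper83.UP

open Subgroup Pool.Agent.Helper23.UP

theorem c2c (e : C2) : e = 1 ∨ e = z2 := by
  revert e
  decide

theorem z2m : z2 * z2 = 1 := by decide

theorem z2n : z2 ≠ 1 := by decide

/-- inversion, as an action of the group of order two -/
def invAct (A : Type) [CommGroup A] : C2 →* MulAut A where
  toFun s := if s = 1 then 1 else MulEquiv.inv A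
  map_one' := if_pos rfl
  map_mul' := by
    intro a b
    rcases c2c a with rfl | rfl <;> rcases c2c b with rfl | rfl
    · simp
    · simp
    · simp
    · rw [z2m, if_pos rfl, if_neg z2n]
      ext x
      simp

theorem invAct_z (A : Type) [CommGroup A] (a : A) : invAct A z2 a = a⁻¹ := by
  show (if z2 = 1 then (1 : MulAut A) else MulEquiv.inv A) a = a⁻¹
  rw [if_neg z2n]
  rfl

/-- `k` copies of the cyclic group of order `q` -/
abbrev ZV (q k : ℕ) : Type := Fin k → Multiplicative (ZMod q)

/-- the generalised dihedral group over `k` copies of the cyclic group of order `q` -/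
abbrev Dih (q k : ℕ) : Type := ZV q k ⋊[invAct (ZV q k)] C2

variable {q k : ℕ}

/-- the coordinates of the letters -/
def ec (q k : ℕ) : Fin (k + 1) → ZV q k :=
  fun x => Fin.cases 1 (fun j => Pi.mulSingle j (Multiplicative.ofAdd 1)) x

/-- the letters -/
def el (q k : ℕ) (x : Fin (k + 1)) : Dih q k :=
  SemidirectProduct.inl (ec q k x) * SemidirectProduct.inr z2

theorem inr_inl (a : ZV q k) : (SemidirectProduct.inr z2 : Dih q k) * SemidirectProduct.inl a =
    SemidirectProduct.inl a⁻¹ * SemidirectProduct.inr z2 := by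
  rw [← invAct_z, SemidirectProduct.inl_aut, mul_assoc _ (SemidirectProduct.inr z2⁻¹), ← map_mul,
    inv_mul_cancel, map_one, mul_one]

theorem inr_sq : (SemidirectProduct.inr z2 : Dih q k) * SemidirectProduct.inr z2 = 1 := by
  rw [← map_mul, z2m, map_one]

theorem el_mul (x y : Fin (k + 1)) :
    el q k x * el q k y = SemidirectProduct.inl (ec q k x * (ec q k y)⁻¹) := by
  unfold el
  calc SemidirectProduct.inl (ec q k x) * SemidirectProduct.inr z2 *
        (SemidirectProduct.inl (ec q k y) * SemidirectProduct.inr z2)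
      = SemidirectProduct.inl (ec q k x) * (SemidirectProduct.inr z2 *
        SemidirectProduct.inl (ec q k y)) * SemidirectProduct.inr z2 := by
          simp only [mul_assoc]
    _ = SemidirectProduct.inl (ec q k x) * (SemidirectProduct.inl (ec q k y)⁻¹ *
        SemidirectProduct.inr z2) * SemidirectProduct.inr z2 := by rw [inr_inl]
    _ = SemidirectProduct.inl (ec q k x) * SemidirectProduct.inl (ec q k y)⁻¹ *
        (SemidirectProduct.inr z2 * SemidirectProduct.inr z2) := by simp only [mul_assoc]
    _ = _ := by rw [inr_sq, mul_one, ← map_mul]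

theorem el_sq (x : Fin (k + 1)) : el q k x * el q k x = 1 := by
  rw [el_mul, mul_inv_cancel, map_one]

theorem zmod_pow (a : Multiplicative (ZMod q)) : a ^ q = 1 := by
  rw [← ofAdd_toAdd a, ← ofAdd_nsmul, nsmul_eq_mul, ZMod.natCast_self, zero_mul, ofAdd_zero]

theorem zv_pow (a : ZV q k) : a ^ q = 1 := by
  funext i
  rw [Pi.pow_apply, zmod_pow, Pi.one_apply]

theorem el_comm (x y z w : Fin (k + 1)) :
    Commute (el q k x * el q k y) (el q k z * el q k w) := by
  rw [el_mul, el_mul]
  show _ * _ = _ * _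
  rw [← map_mul, ← map_mul, mul_comm]

theorem el_pow (x y : Fin (k + 1)) : (el q k x * el q k y) ^ q = 1 := by
  rw [el_mul, ← map_pow, zv_pow, map_one]

section Lift

variable {H : Type} [Group H]

/-- the powers of an element `g` with `g ^ q = 1` -/
def zp (g : H) (h : g ^ q = 1) : Multiplicative (ZMod q) →* H :=
  AddMonoidHom.toMultiplicativeLeft
    (ZMod.lift q ⟨zmultiplesHom (Additive H) (Additive.ofMul g), by
      show (q : ℤ) • Additive.ofMul g = 0
      rw [natCast_zsmul, ← ofMul_pow, h, ofMul_one]⟩)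

theorem zp_coe (g : H) (h : g ^ q = 1) (n : ℤ) :
    zp g h (Multiplicative.ofAdd (n : ZMod q)) = g ^ n := by
  show Additive.toMul (ZMod.lift q _ (n : ZMod q)) = g ^ n
  rw [ZMod.lift_coe]
  rfl

theorem zp_one (g : H) (h : g ^ q = 1) : zp g h (Multiplicative.ofAdd (1 : ZMod q)) = g := by
  have := zp_coe g h 1
  rwa [Int.cast_one, zpow_one] at this

theorem exists_int (x : Multiplicative (ZMod q)) :
    ∃ n : ℤ, x = Multiplicative.ofAdd (n : ZMod q) := by
  obtain ⟨n, hn⟩ := ZMod.intCast_surjective (Multiplicative.toAdd x)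
  exact ⟨n, by rw [hn]; rfl⟩

theorem ofAdd_int (n : ℤ) : (Multiplicative.ofAdd (n : ZMod q)) =
    (Multiplicative.ofAdd (1 : ZMod q)) ^ n := by
  rw [← ofAdd_zsmul, zsmul_eq_mul, mul_one]

variable (t : Fin (k + 1) → H) (hsq : ∀ x, t x * t x = 1)
  (hab : ∀ x y z w, Commute (t x * t y) (t z * t w)) (hpow : ∀ x y, (t x * t y) ^ q = 1)

/-- the translations -/
def bet : ZV q k →* H :=
  MonoidHom.noncommPiCoprod (fun j : Fin k => zp (t j.succ * t 0) (hpow j.succ 0)) (by
    intro i j _ x y
    obtain ⟨n, rfl⟩ := exists_int x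
    obtain ⟨l, rfl⟩ := exists_int y
    rw [zp_coe, zp_coe]
    exact (hab _ _ _ _).zpow_zpow n l)

theorem bet_single (j : Fin k) (x : Multiplicative (ZMod q)) :
    bet t hab hpow (Pi.mulSingle j x) = zp (t j.succ * t 0) (hpow j.succ 0) x :=
  MonoidHom.noncommPiCoprod_mulSingle _ _ _

include hsq in
theorem bet_conj (v : ZV q k) : t 0 * bet t hab hpow v * (t 0)⁻¹ = (bet t hab hpow v)⁻¹ := by
  have h : (MulAut.conj (t 0)).toMonoidHom.comp (bet t hab hpow) =
      (bet t hab hpow).comp (MulEquiv.inv (ZV q k)).toMonoidHom := by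
    apply MonoidHom.pi_ext
    intro j x
    show t 0 * bet t hab hpow (Pi.mulSingle j x) * (t 0)⁻¹ =
      bet t hab hpow (Pi.mulSingle j x)⁻¹
    rw [map_inv, bet_single]
    obtain ⟨n, rfl⟩ := exists_int x
    rw [zp_coe, ← conj_zpow, ← inv_zpow]
    congr 1
    have h0 : (t 0)⁻¹ = t 0 := inv_eq_of_mul_eq_one_left (hsq 0)
    have hj : (t j.succ)⁻¹ = t j.succ := inv_eq_of_mul_eq_one_left (hsq _)
    rw [mul_inv_rev, hj, h0, mul_assoc, mul_assoc, hsq, mul_one]
  have := DFunLike.congr_fun h v
  rw [← map_inv]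
  exact this

/-- the universal property -/
def dlift : Dih q k →* H :=
  SemidirectProduct.lift (bet t hab hpow) (zp (q := 2) (t 0) (by rw [pow_two, hsq])) (by
    intro g
    rcases c2c g with rfl | rfl
    · ext v
      simp
    · ext v
      show bet t hab hpow (invAct (ZV q k) z2 v) = (zp (q := 2) (t 0) _ z2) *
        bet t hab hpow v * (zp (q := 2) (t 0) _ z2)⁻¹
      have h1 : zp (q := 2) (t 0) (by rw [pow_two, hsq]) z2 = t 0 := zp_one _ _
      rw [h1, bet_conj t hsq, invAct_z, map_inv])

theorem dlift_inl (v : ZV q k) :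
    dlift t hsq hab hpow (SemidirectProduct.inl v) = bet t hab hpow v :=
  SemidirectProduct.lift_inl _ _ _ _

theorem dlift_inr : dlift t hsq hab hpow (SemidirectProduct.inr z2) = t 0 := by
  unfold dlift
  rw [SemidirectProduct.lift_inr]
  exact zp_one _ _

theorem dlift_el (x : Fin (k + 1)) : dlift t hsq hab hpow (el q k x) = t x := by
  unfold el
  rw [map_mul, dlift_inl, dlift_inr]
  refine Fin.cases ?_ (fun j => ?_) x
  · show bet t hab hpow 1 * t 0 = t 0
    rw [map_one, one_mul]
  · show bet t hab hpow (Pi.mulSingle j (Multiplicative.ofAdd 1)) * t 0 = t j.succ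
    rw [bet_single, zp_one, mul_assoc, hsq, mul_one]

end Lift

theorem el_zero : el q k 0 = SemidirectProduct.inr z2 := by
  show SemidirectProduct.inl 1 * SemidirectProduct.inr z2 = _
  rw [map_one, one_mul]

theorem el_single (j : Fin k) (n : ℤ) :
    (SemidirectProduct.inl (Pi.mulSingle j (Multiplicative.ofAdd (n : ZMod q))) : Dih q k) =
      (el q k j.succ * el q k 0) ^ n := by
  rw [el_mul]
  have h : ec q k j.succ * (ec q k 0)⁻¹ = Pi.mulSingle j (Multiplicative.ofAdd 1) := by
    show (Pi.mulSingle j (Multiplicative.ofAdd 1) : ZV q k) * 1⁻¹ = _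
    rw [inv_one, mul_one]
  rw [h, ← map_zpow, ofAdd_int]
  congr 1
  exact (Pi.mulSingle_zpow j _ n)

theorem dih_ext {H : Type} [Group H] (f g : Dih q k →* H)
    (h : ∀ x, f (el q k x) = g (el q k x)) : f = g := by
  apply SemidirectProduct.hom_ext
  · apply MonoidHom.pi_ext
    intro j x
    obtain ⟨n, rfl⟩ := exists_int x
    show f (SemidirectProduct.inl _) = g (SemidirectProduct.inl _)
    rw [el_single, map_zpow, map_zpow, map_mul, map_mul, h, h]
  · apply MonoidHom.ext
    intro e
    show f (SemidirectProduct.inr e) = g (SemidirectProduct.inr e)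
    rcases c2c e with rfl | rfl
    · rw [map_one, map_one, map_one]
    · rw [← el_zero, h]

theorem el_closure : closure (Set.range (el q k)) = ⊤ := by
  rw [eq_top_iff]
  intro g _
  set K := closure (Set.range (el q k)) with hK
  have hm : ∀ x, el q k x ∈ K := fun x => subset_closure ⟨x, rfl⟩
  let t : Fin (k + 1) → K := fun x => ⟨el q k x, hm x⟩
  have h1 : ∀ x, t x * t x = 1 := fun x => Subtype.ext (el_sq x)
  have h2 : ∀ x y z w, Commute (t x * t y) (t z * t w) :=
    fun x y z w => Subtype.ext (el_comm x y z w)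
  have h3 : ∀ x y, (t x * t y) ^ q = 1 := fun x y => Subtype.ext (el_pow x y)
  have h4 : K.subtype.comp (dlift t h1 h2 h3) = MonoidHom.id _ := by
    apply dih_ext
    intro x
    show K.subtype (dlift t h1 h2 h3 (el q k x)) = el q k x
    rw [dlift_el]
    rfl
  have h5 := DFunLike.congr_fun h4 g
  rw [← (show K.subtype (dlift t h1 h2 h3 g) = g from h5)]
  exact (dlift t h1 h2 h3 g).2

theorem el_ne (x : Fin (k + 1)) : el q k x ≠ 1 := by
  intro h
  have h1 := congrArg SemidirectProduct.right h
  unfold el at h1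
  rw [SemidirectProduct.mul_right, SemidirectProduct.right_inl, SemidirectProduct.right_inr,
    one_mul, SemidirectProduct.one_right] at h1
  exact z2n h1

/-- the action of the symmetric group -/
def dactHom (w : Equiv.Perm (Fin (k + 1))) : Dih q k →* Dih q k :=
  dlift (fun x => el q k (w x)) (fun x => el_sq (w x)) (fun _ _ _ _ => el_comm _ _ _ _)
    (fun _ _ => el_pow _ _)

theorem dactHom_el (w : Equiv.Perm (Fin (k + 1))) (x : Fin (k + 1)) :
    dactHom w (el q k x) = el q k (w x) :=
  dlift_el (fun x => el q k (w x)) _ _ _ x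

theorem dactHom_mul (v w : Equiv.Perm (Fin (k + 1))) (n : Dih q k) :
    dactHom (v * w) n = dactHom v (dactHom w n) := by
  have : dactHom (q := q) (v * w) = (dactHom v).comp (dactHom w) := by
    apply dih_ext
    intro x
    rw [MonoidHom.comp_apply, dactHom_el, dactHom_el, dactHom_el, Equiv.Perm.mul_apply]
  rw [this]
  rfl

theorem dactHom_one (n : Dih q k) : dactHom (1 : Equiv.Perm (Fin (k + 1))) n = n := by
  have : dactHom (q := q) (1 : Equiv.Perm (Fin (k + 1))) = MonoidHom.id _ := by
    apply dih_ext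
    intro x
    rw [dactHom_el, Equiv.Perm.one_apply]
    rfl
  rw [this]
  rfl

/-- the action of the symmetric group on the generalised dihedral group -/
def dact (q k : ℕ) : Equiv.Perm (Fin (k + 1)) →* MulAut (Dih q k) where
  toFun w :=
    { toFun := dactHom w
      invFun := dactHom w⁻¹
      left_inv := fun n => by rw [← dactHom_mul, inv_mul_cancel, dactHom_one]
      right_inv := fun n => by rw [← dactHom_mul, mul_inv_cancel, dactHom_one]
      map_mul' := fun a b => map_mul _ a b }
  map_one' := MulEquiv.ext (fun n => dactHom_one n)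
  map_mul' v w := MulEquiv.ext (fun n => dactHom_mul v w n)

theorem dact_el (w : Equiv.Perm (Fin (k + 1))) (x : Fin (k + 1)) :
    dact q k w (el q k x) = el q k (w x) := dactHom_el w x

/-- the group of the polytope with `2 q ^ k` vertices -/
abbrev DU (q k : ℕ) : Type := Dih q k ⋊[dact q k] Equiv.Perm (Fin (k + 1))

/-- its generators -/
def dgen (q k : ℕ) : Fin (k + 1) → DU q k := gtw (dact q k) (el q k) 0 (smp k)

theorem dgen_str (q k : ℕ) : IsStringC (dgen q (k + 1)) := by
  refine gtw_str (dact q (k + 1)) (el q (k + 1)) (fun w x => dact_el w x) el_closure el_sq 0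
    (el_ne 0) (smp (k + 1)) (smp_str (k + 1)) ?_ ?_
  · intro i hi
    show smp (k + 1) i 0 = 0
    rw [← mem_vertSub_smp]
    exact subset_closure ⟨i, hi, rfl⟩
  · intro x
    exact ⟨Equiv.swap 0 x, by
      show x = Equiv.swap 0 x 0
      rw [Equiv.swap_apply_left]⟩

theorem dih_card (q k : ℕ) : Nat.card (Dih q k) = 2 * q ^ k := by
  rw [Nat.card_congr SemidirectProduct.equivProd, Nat.card_prod, Nat.card_fun, Nat.card_fin]
  have h1 : Nat.card (Multiplicative (ZMod q)) = q := Nat.card_zmod q
  have h2 : Nat.card C2 = 2 := Nat.card_zmod 2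
  rw [h1, h2, mul_comm]

theorem du_card (q k : ℕ) : Nat.card (DU q k) = 2 * q ^ k * (k + 1).factorial := by
  rw [Nat.card_congr SemidirectProduct.equivProd, Nat.card_prod, dih_card, Nat.card_perm,
    Nat.card_fin]

end Pool.Agent.Helper83.UP
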