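import Pool.Agent.Helper83.UP.Code
import Pool.Agent.Helper83.UP.Dih

/-!
# The polytopes `2^K / C`: necessity of the criterion and universality
-/

namespace Pool.Agent.Helper83.UP

open Subgroup Pool.Agent.Helper23.UP
open scoped Pointwise

/-- If two vertices `x`, `y` of the polytope `(W, τ)` lie in no common facet, then every vertex
`z ≠ x` that lies in a common facet with `x` lies in a common facet with `y`. -/
def Near {W : Type} [Group W] {m : ℕ} (τ : Fin m → W) : Prop :=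
  ∀ x y z : Vert τ, z ≠ x → (∃ A ∈ facetSets τ, x ∈ A ∧ z ∈ A) →
    (¬ ∃ A ∈ facetSets τ, x ∈ A ∧ y ∈ A) → ∃ A ∈ facetSets τ, z ∈ A ∧ y ∈ A

section Words

variable {Ω : Type}

/-- a word that is trivial at `o` is a product of the other letters -/
theorem mem_others [Finite Ω] (C : Subgroup (Wd Ω)) (o : Ω) (d : Wd Ω) (hd : d o = 1) :
    ((d : Wd Ω) : Wd Ω ⧸ C) ∈ Subgroup.closure (cl C '' {b | b ≠ o}) := by
  classical
  set K := Subgroup.closure (cl C '' {b | b ≠ o}) with hK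
  let pr : Wd Ω →* Wd Ω :=
    { toFun := fun e y => if y = o then e y else 1
      map_one' := by
        funext y
        show (if y = o then (1 : Wd Ω) y else 1) = 1
        split_ifs <;> rfl
      map_mul' := fun a b => by
        funext y
        show (if y = o then (a * b) y else 1) =
          (if y = o then a y else 1) * (if y = o then b y else 1)
        split_ifs
        · rfl
        · rw [mul_one] }
  have hpr : ∀ e : Wd Ω, ∀ y, pr e y = if y = o then e y else 1 := fun _ _ => rfl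
  set g : Wd Ω →* (Wd Ω ⧸ C) ⧸ K := (QuotientGroup.mk' K).comp (QuotientGroup.mk' C) with hg
  have h1 : g = g.comp pr := by
    apply wd_ext
    intro x
    show g (sgl x) = g (pr (sgl x))
    by_cases hx : x = o
    · have h2 : pr (sgl x) = sgl x := by
        funext y
        rw [hpr, hx]
        split_ifs with h
        · rfl
        · exact (sgl_ne h).symm
      rw [h2]
    · have h2 : pr (sgl x) = 1 := by
        funext y
        rw [hpr]
        split_ifs with h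
        · rw [h]
          exact sgl_ne (fun h' => hx h'.symm)
        · rfl
      rw [h2, map_one]
      show ((cl C x : Wd Ω ⧸ C) : (Wd Ω ⧸ C) ⧸ K) = 1
      rw [QuotientGroup.eq_one_iff]
      exact subset_closure ⟨x, hx, rfl⟩
  have h2 : pr d = 1 := by
    funext y
    rw [hpr]
    split_ifs with h
    · rw [h, hd]; rfl
    · rfl
  have h3 : g d = 1 := by
    rw [h1]
    show g (pr d) = 1
    rw [h2, map_one]
  rw [← QuotientGroup.eq_one_iff]
  exact h3

end Words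

section Big

variable {V W Γ : Type} [Group V] [Group W] [Group Γ] {m : ℕ} (κ : Fin m → V)
  (τ : Fin (m + 1) → W) (f : V →* W) (hf : ∀ i, f (κ i) = τ i.castSucc)
  {C : Subgroup (Wd (Vert κ))} (hC : CInv V C)
  (ρ : Fin (m + 2) → Γ) (θ : (Wd (Vert κ) ⧸ C) ⋊[cact hC] V →* Γ)
  (hθ : ∀ i, θ (codeP κ hC i) = ρ i.castSucc) (ψ : W →* Γ) (hψ : ∀ i, ψ (τ i) = ρ i.succ)

include hf hθ hψ in
theorem cθ_inr (hκ : IsStringC κ) (v : V) : θ (SemidirectProduct.inr v) = ψ (f v) := by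
  have h : par κ Set.univ ≤ ((θ.comp SemidirectProduct.inr).eqLocus (ψ.comp f)) := by
    unfold par
    rw [closure_le]
    rintro _ ⟨i, _, rfl⟩
    show θ (SemidirectProduct.inr (κ i)) = ψ (f (κ i))
    rw [hf, hψ]
    exact hθ i.succ
  rw [hκ.gen] at h
  exact h (mem_top v)

include hf hθ hψ in
theorem cθ_cl (hκ : IsStringC κ) (hρ : IsStringC ρ) (x : Vert κ) :
    θ (SemidirectProduct.inl (cl C x)) = tlet τ ρ ψ (jmap κ τ f hf x) := by
  obtain ⟨v, rfl⟩ := QuotientGroup.mk_surjective x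
  have h0 : θ (SemidirectProduct.inl (cl C (baseV κ))) = ρ 0 := hθ 0
  have h1 := gtw_conj (cact hC) (cl C) (fun w x => cl_act hC w x) v (baseV κ)
  rw [smul_baseV] at h1
  show θ (SemidirectProduct.inl (cl C ((v : V) : Vert κ))) = _
  rw [← h1, map_mul, map_mul, map_inv, h0, cθ_inr κ τ f hf hC ρ θ hθ ψ hψ hκ]
  show _ = tlet τ ρ ψ ((f v : W) : Vert τ)
  rw [tlet_mk τ ρ ψ hψ hρ]

include hf hC hθ hψ in
theorem tc_base (hκ : IsStringC κ) (hρ : IsStringC ρ) (a b : Vert κ) :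
    Commute (tlet τ ρ ψ (jmap κ τ f hf a)) (tlet τ ρ ψ (jmap κ τ f hf b)) := by
  rw [← cθ_cl κ τ f hf hC ρ θ hθ ψ hψ hκ hρ, ← cθ_cl κ τ f hf hC ρ θ hθ ψ hψ hκ hρ]
  apply Commute.map
  apply Commute.map
  exact mul_comm _ _

include hf hC hθ hψ in
theorem tc_facet (hκ : IsStringC κ) (hρ : IsStringC ρ) (x y : Vert τ)
    (h : ∃ A ∈ facetSets τ, x ∈ A ∧ y ∈ A) :
    Commute (tlet τ ρ ψ x) (tlet τ ρ ψ y) := by
  obtain ⟨_, ⟨w, rfl⟩, hx, hy⟩ := h
  obtain ⟨x', hx', rfl⟩ := hx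
  obtain ⟨y', hy', rfl⟩ := hy
  rw [facetVerts_eq κ τ f hf hκ] at hx' hy'
  obtain ⟨a, rfl⟩ := hx'
  obtain ⟨b, rfl⟩ := hy'
  show Commute (tlet τ ρ ψ (w • jmap κ τ f hf a)) (tlet τ ρ ψ (w • jmap κ τ f hf b))
  rw [tlet_smul τ ρ ψ hψ hρ, tlet_smul τ ρ ψ hψ hρ]
  exact (tc_base κ τ f hf hC ρ θ hθ ψ hψ hκ hρ a b).map (MulAut.conj (ψ w)).toMonoidHom

include hf hC hθ hψ in
theorem tc_all [Finite (Vert κ)] (hinj : Function.Injective f) (hκ : IsStringC κ)
    (hτ : IsStringC τ) (hρ : IsStringC ρ) (hN : Near τ) (hne : C ≠ ⊥) (x y : Vert τ) :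
    Commute (tlet τ ρ ψ x) (tlet τ ρ ψ y) := by
  have hji := jmap_inj κ τ f hf hinj hκ hτ
  by_cases hxy : ∃ A ∈ facetSets τ, x ∈ A ∧ y ∈ A
  · exact tc_facet κ τ f hf hC ρ θ hθ ψ hψ hκ hρ x y hxy
  -- move `x` to the base vertex
  have key : ∀ y : Vert τ, (¬ ∃ A ∈ facetSets τ, baseV τ ∈ A ∧ y ∈ A) →
      Commute (tlet τ ρ ψ (baseV τ)) (tlet τ ρ ψ y) := by
    intro y hy
    -- a word of the code through the base vertex
    obtain ⟨c, hc, hcb⟩ : ∃ c ∈ C, c (baseV κ) = z2 := by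
      obtain ⟨⟨c, hc⟩, hc0⟩ := Subgroup.ne_bot_iff_exists_ne_one.1 hne
      have hc1 : c ≠ 1 := fun h => hc0 (Subtype.ext h)
      obtain ⟨b, hb⟩ : ∃ b, c b ≠ 1 := by
        by_contra hcon
        push Not at hcon
        exact hc1 (funext hcon)
      obtain ⟨v, rfl⟩ := baseV_trans κ b
      refine ⟨wact v⁻¹ c, hC v⁻¹ c hc, ?_⟩
      rw [wact_apply, inv_inv]
      rcases c2_pow (c (v • baseV κ)) with h | h
      · exact absurd h hb
      · exact h
    have h1 : cl C (baseV κ) ∈ Subgroup.closure (cl C '' {b | b ≠ baseV κ}) := by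
      have h2 := mem_others C (baseV κ) (c * sgl (baseV κ)) (by
        rw [Pi.mul_apply, hcb, sgl_same]
        exact c2_sq z2)
      have h3 : ((c * sgl (baseV κ) : Wd (Vert κ)) : Wd (Vert κ) ⧸ C) = cl C (baseV κ) := by
        rw [QuotientGroup.mk_mul, (QuotientGroup.eq_one_iff c).2 hc, one_mul]
        rfl
      rwa [h3] at h2
    have h2 : Subgroup.closure (cl C '' {b | b ≠ baseV κ}) ≤
        (centralizer {tlet τ ρ ψ y}).comap (θ.comp SemidirectProduct.inl) := by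
      rw [closure_le]
      rintro _ ⟨b, hb, rfl⟩
      rw [SetLike.mem_coe, mem_comap, mem_centralizer_iff]
      intro h hh
      rw [Set.mem_singleton_iff] at hh
      rw [hh, MonoidHom.comp_apply, cθ_cl κ τ f hf hC ρ θ hθ ψ hψ hκ hρ]
      have hb' : jmap κ τ f hf b ≠ baseV τ := by
        intro h
        rw [← jmap_base κ τ f hf] at h
        exact hb (hji h)
      have h4 := hN (baseV τ) y (jmap κ τ f hf b) hb'
        ⟨facetVerts τ, ⟨1, (one_smul _ _).symm⟩, by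
          rw [facetVerts_eq κ τ f hf hκ]
          exact ⟨⟨baseV κ, jmap_base κ τ f hf⟩, ⟨b, rfl⟩⟩⟩ hy
      exact (tc_facet κ τ f hf hC ρ θ hθ ψ hψ hκ hρ _ _ h4).symm.eq
    have h3 := h2 h1
    rw [mem_comap, mem_centralizer_iff] at h3
    have h4 := h3 _ rfl
    rw [MonoidHom.comp_apply, cθ_cl κ τ f hf hC ρ θ hθ ψ hψ hκ hρ, jmap_base] at h4
    exact h4.symm
  obtain ⟨w, rfl⟩ := baseV_trans τ x
  have h5 : ¬ ∃ A ∈ facetSets τ, baseV τ ∈ A ∧ w⁻¹ • y ∈ A := by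
    rintro ⟨A, hA, h6, h7⟩
    refine hxy ⟨w • A, inv_facetSets τ w A hA, Set.smul_mem_smul_set h6, ?_⟩
    rw [Set.mem_smul_set_iff_inv_smul_mem]
    exact h7
  have h6 := (key _ h5).map (MulAut.conj (ψ w)).toMonoidHom
  have h7 : y = w • (w⁻¹ • y) := (smul_inv_smul w y).symm
  rw [h7, tlet_smul τ ρ ψ hψ hρ, tlet_smul τ ρ ψ hψ hρ]
  exact h6

/-- the homomorphism from the group of all words -/
noncomputable def lam [Fintype (Vert τ)] (hρ : IsStringC ρ) (ψ : W →* Γ)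
    (hψ : ∀ i, ψ (τ i) = ρ i.succ)
    (hall : ∀ x y, Commute (tlet τ ρ ψ x) (tlet τ ρ ψ y)) : Wd (Vert τ) →* Γ :=
  MonoidHom.noncommPiCoprod (fun x => zp (q := 2) (tlet τ ρ ψ x) (by
      rw [pow_two, tlet_sq τ ρ ψ hψ hρ]))
    (by
      intro x y _ a b
      obtain ⟨n, rfl⟩ := exists_int a
      obtain ⟨l, rfl⟩ := exists_int b
      rw [zp_coe, zp_coe]
      exact (hall x y).zpow_zpow n l)

theorem lam_sgl [Fintype (Vert τ)] (hρ : IsStringC ρ)
    (hall : ∀ x y, Commute (tlet τ ρ ψ x) (tlet τ ρ ψ y)) (x : Vert τ) :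
    lam τ ρ hρ ψ hψ hall (sgl x) = tlet τ ρ ψ x := by
  classical
  have h : (sgl x : Wd (Vert τ)) = Pi.mulSingle x z2 := by
    funext y
    by_cases hy : y = x
    · rw [hy, sgl_same, Pi.mulSingle_eq_same]
    · rw [sgl_ne hy, Pi.mulSingle_eq_of_ne hy]
  rw [h]
  exact (MonoidHom.noncommPiCoprod_mulSingle _ _ _).trans (zp_one _ _)

theorem lam_act [Fintype (Vert τ)] (hρ : IsStringC ρ)
    (hall : ∀ x y, Commute (tlet τ ρ ψ x) (tlet τ ρ ψ y)) (w : W) (c : Wd (Vert τ)) :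
    lam τ ρ hρ ψ hψ hall (wact w c) = ψ w * lam τ ρ hρ ψ hψ hall c * (ψ w)⁻¹ := by
  have h : (lam τ ρ hρ ψ hψ hall).comp (wact w : Wd (Vert τ) ≃* Wd (Vert τ)).toMonoidHom =
      (MulAut.conj (ψ w)).toMonoidHom.comp (lam τ ρ hρ ψ hψ hall) := by
    apply wd_ext
    intro x
    show lam τ ρ hρ ψ hψ hall (wact w (sgl x)) = ψ w * lam τ ρ hρ ψ hψ hall (sgl x) * (ψ w)⁻¹
    rw [wact_single, lam_sgl, lam_sgl, tlet_smul τ ρ ψ hψ hρ]
  exact DFunLike.congr_fun h c

include hf hθ hψ in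
theorem lam_wext [Finite (Vert κ)] [Fintype (Vert τ)] (hinj : Function.Injective f)
    (hκ : IsStringC κ) (hτ : IsStringC τ) (hρ : IsStringC ρ)
    (hall : ∀ x y, Commute (tlet τ ρ ψ x) (tlet τ ρ ψ y)) (c : Wd (Vert κ)) :
    lam τ ρ hρ ψ hψ hall (wext κ τ f hf c) =
      θ (SemidirectProduct.inl ((c : Wd (Vert κ)) : Wd (Vert κ) ⧸ C)) := by
  have h : (lam τ ρ hρ ψ hψ hall).comp (wext κ τ f hf) =
      (θ.comp SemidirectProduct.inl).comp (QuotientGroup.mk' C) := by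
    apply wd_ext
    intro x
    show lam τ ρ hρ ψ hψ hall (wext κ τ f hf (sgl x)) = θ (SemidirectProduct.inl (cl C x))
    rw [wext_single κ τ f hf (jmap_inj κ τ f hf hinj hκ hτ), lam_sgl,
      cθ_cl κ τ f hf hC ρ θ hθ ψ hψ hκ hρ]
  exact DFunLike.congr_fun h c

include hf hθ hψ in
theorem lam_span [Finite (Vert κ)] [Fintype (Vert τ)] (hinj : Function.Injective f)
    (hκ : IsStringC κ) (hτ : IsStringC τ) (hρ : IsStringC ρ)
    (hall : ∀ x y, Commute (tlet τ ρ ψ x) (tlet τ ρ ψ y)) :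
    spanC κ τ f hf C ≤ (lam τ ρ hρ ψ hψ hall).ker := by
  unfold spanC
  rw [closure_le]
  rintro _ ⟨w, c, hc, rfl⟩
  rw [SetLike.mem_coe, MonoidHom.mem_ker, lam_act,
    lam_wext κ τ f hf hC ρ θ hθ ψ hψ hinj hκ hτ hρ, (QuotientGroup.eq_one_iff c).2 hc, map_one,
    map_one, mul_one, mul_inv_cancel]

end Big

/-- existence for `2^K / C` with `C` nontrivial -/
theorem code_main {V W : Type} [Group V] [Group W] [Finite V] [Finite W] {m : ℕ}
    (κ : Fin m → V) (τ : Fin (m + 1) → W) (f : V →* W) (hf : ∀ i, f (κ i) = τ i.castSucc)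
    (hinj : Function.Injective f) (hκ : IsStringC κ) (hτ : IsStringC τ) (hN : Near τ)
    {C : Subgroup (Wd (Vert κ))} (hC : CInv V C) (hne : C ≠ ⊥) (h1 : sgl (baseV κ) ∉ C) :
    ((∃ (Γ : Type) (_ : Group Γ) (ρ : Fin (m + 2) → Γ), HasFV (codeP κ hC) τ ρ) ↔
      ∀ c, wext κ τ f hf c ∈ spanC κ τ f hf C → c ∈ C) ∧
    ((∀ c, wext κ τ f hf c ∈ spanC κ τ f hf C → c ∈ C) →
      IsUniversal (codeP κ hC) τ (codeP τ (spanC_inv κ τ f hf C)) ∧
      Finite ((Wd (Vert τ) ⧸ spanC κ τ f hf C) ⋊[cact (spanC_inv κ τ f hf C)] W)) := by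
  have hfκ : Finite (Vert κ) := inferInstance
  have hfτ : Finite (Vert τ) := inferInstance
  have : Fintype (Vert τ) := Fintype.ofFinite _
  refine ⟨⟨?_, ?_⟩, ?_⟩
  · rintro ⟨Γ, _, ρ, h⟩ c hc
    obtain ⟨θ, hθi, hθ⟩ := h.fac
    obtain ⟨ψ, hψi, hψ⟩ := h.ver
    have hall := tc_all κ τ f hf hC ρ θ hθ ψ hψ hinj hκ hτ h.str hN hne
    have h2 := lam_span κ τ f hf hC ρ θ hθ ψ hψ hinj hκ hτ h.str hall hc
    rw [MonoidHom.mem_ker, lam_wext κ τ f hf hC ρ θ hθ ψ hψ hinj hκ hτ h.str] at h2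
    have h3 := SemidirectProduct.inl_injective (hθi (h2.trans ((map_one θ).symm.trans
      (congrArg θ (map_one SemidirectProduct.inl).symm))))
    exact (QuotientGroup.eq_one_iff c).1 h3
  · intro h
    exact ⟨_, _, _, codeP_FV κ τ f hf hinj hκ hτ hC h1 h⟩
  · intro h
    refine ⟨⟨codeP_FV κ τ f hf hinj hκ hτ hC h1 h, ?_⟩, ?_⟩
    · intro Γ' _ ρ' h'
      obtain ⟨θ, hθi, hθ⟩ := h'.fac
      obtain ⟨ψ, hψi, hψ⟩ := h'.ver
      have hall := tc_all κ τ f hf hC ρ' θ hθ ψ hψ hinj hκ hτ h'.str hN hne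
      have h2 := lam_span κ τ f hf hC ρ' θ hθ ψ hψ hinj hκ hτ h'.str hall
      refine ⟨SemidirectProduct.lift (QuotientGroup.lift _ (lam τ ρ' h'.str ψ hψ hall) h2) ψ ?_,
        ?_⟩
      · intro w
        apply MonoidHom.ext
        intro n
        obtain ⟨c, rfl⟩ := QuotientGroup.mk_surjective n
        exact lam_act τ ρ' ψ hψ h'.str hall w c
      · intro i
        refine Fin.cases ?_ (fun i => ?_) i
        · show SemidirectProduct.lift _ ψ _ (SemidirectProduct.inl (cl _ (baseV τ))) = ρ' 0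
          rw [SemidirectProduct.lift_inl]
          show lam τ ρ' h'.str ψ hψ hall (sgl (baseV τ)) = ρ' 0
          rw [lam_sgl]
          have := tlet_mk τ ρ' ψ hψ h'.str 1
          rw [map_one] at this
          show tlet τ ρ' ψ (((1 : W)) : Vert τ) = ρ' 0
          rw [this]
          group
        · show SemidirectProduct.lift _ ψ _ (SemidirectProduct.inr (τ i)) = ρ' i.succ
          rw [SemidirectProduct.lift_inr, hψ]
    · have h3 : Finite C2 := inferInstanceAs (Finite (ZMod 2))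
      have h4 : Finite (Wd (Vert τ) ⧸ spanC κ τ f hf C) := inferInstance
      exact Finite.of_equiv ((Wd (Vert τ) ⧸ spanC κ τ f hf C) × W)
        SemidirectProduct.equivProd.symm

end Pool.Agent.Helper83.UP
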