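import Pool.Agent.Helper83.UP.Dih

/-!
# Facets of the polytopes with generalised dihedral groups
-/

namespace Pool.Agent.Helper83.UP

open Subgroup Pool.Agent.Helper23.UP

variable {q k : ℕ}

/-- the inclusion of symmetric groups -/
noncomputable def iota (k : ℕ) : Equiv.Perm (Fin (k + 1)) →* Equiv.Perm (Fin (k + 2)) :=
  Equiv.Perm.viaEmbeddingHom (Fin.castSuccEmb (n := k + 1))

theorem iota_inj (k : ℕ) : Function.Injective (iota k) :=
  Equiv.Perm.viaEmbeddingHom_injective _

theorem iota_cast (π : Equiv.Perm (Fin (k + 1))) (x : Fin (k + 1)) :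
    iota k π x.castSucc = (π x).castSucc :=
  Equiv.Perm.viaEmbedding_apply π (Fin.castSuccEmb (n := k + 1)) x

theorem iota_last (π : Equiv.Perm (Fin (k + 1))) :
    iota k π (Fin.last (k + 1)) = Fin.last (k + 1) := by
  refine Equiv.Perm.viaEmbedding_apply_of_notMem π (Fin.castSuccEmb (n := k + 1)) _ ?_
  rintro ⟨y, hy⟩
  exact Fin.castSucc_ne_last y hy

theorem iota_smp (i : Fin k) : iota k (smp k i) = smp (k + 1) i.castSucc := by
  ext x
  refine Fin.lastCases ?_ (fun y => ?_) x
  · rw [iota_last]
    unfold smp
    rw [Equiv.swap_apply_of_ne_of_ne]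
    · exact (Fin.castSucc_ne_last _).symm
    · rw [Fin.succ_castSucc]
      exact (Fin.castSucc_ne_last _).symm
  · rw [iota_cast]
    unfold smp
    rw [Fin.succ_castSucc]
    congr 1
    by_cases h1 : y = i.castSucc
    · rw [h1, Equiv.swap_apply_left, Equiv.swap_apply_left]
    · by_cases h2 : y = i.succ
      · rw [h2, Equiv.swap_apply_right, Equiv.swap_apply_right]
      · rw [Equiv.swap_apply_of_ne_of_ne h1 h2, Equiv.swap_apply_of_ne_of_ne
          (fun h => h1 (Fin.castSucc_injective _ h)) (fun h => h2 (Fin.castSucc_injective _ h))]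

/-- the inclusion of the letters of the facet -/
def demb (q k : ℕ) : Dih q k →* Dih q (k + 1) :=
  dlift (fun x => el q (k + 1) x.castSucc) (fun _ => el_sq _) (fun _ _ _ _ => el_comm _ _ _ _)
    (fun _ _ => el_pow _ _)

theorem demb_el (x : Fin (k + 1)) : demb q k (el q k x) = el q (k + 1) x.castSucc :=
  dlift_el (fun x => el q (k + 1) (Fin.castSucc x)) _ _ _ x

/-- folding the last letter to the first one -/
def dfold (q k : ℕ) : Dih q (k + 1) →* Dih q k :=
  dlift (fun x => el q k (Fin.lastCases 0 (fun i => i) x)) (fun _ => el_sq _)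
    (fun _ _ _ _ => el_comm _ _ _ _) (fun _ _ => el_pow _ _)

theorem dfold_el (x : Fin (k + 1)) : dfold q k (el q (k + 1) x.castSucc) = el q k x := by
  unfold dfold
  rw [dlift_el, Fin.lastCases_castSucc]

theorem dfold_demb (n : Dih q k) : dfold q k (demb q k n) = n := by
  have h : (dfold q k).comp (demb q k) = MonoidHom.id _ := by
    apply dih_ext
    intro x
    rw [MonoidHom.comp_apply, demb_el, dfold_el]
    rfl
  exact DFunLike.congr_fun h n

theorem demb_inj : Function.Injective (demb q k) :=
  Function.LeftInverse.injective dfold_demb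

theorem demb_act (π : Equiv.Perm (Fin (k + 1))) (n : Dih q k) :
    demb q k (dact q k π n) = dact q (k + 1) (iota k π) (demb q k n) := by
  have h : (demb q k).comp (dact q k π).toMonoidHom =
      (dact q (k + 1) (iota k π)).toMonoidHom.comp (demb q k) := by
    apply dih_ext
    intro x
    show demb q k (dact q k π (el q k x)) = dact q (k + 1) (iota k π) (demb q k (el q k x))
    rw [dact_el, demb_el, demb_el, dact_el, iota_cast]
  exact DFunLike.congr_fun h n

/-- the group of the facets in the big group -/
noncomputable def duemb (q k : ℕ) : DU q k →* DU q (k + 1) :=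
  SemidirectProduct.map (demb q k) (iota k) (fun π => MonoidHom.ext (fun n => demb_act π n))

theorem duemb_inj : Function.Injective (duemb q k) := by
  intro a b hab
  have h1 := congrArg SemidirectProduct.left hab
  have h2 := congrArg SemidirectProduct.right hab
  exact SemidirectProduct.ext (demb_inj h1) (iota_inj k h2)

theorem dgen_FV (q k : ℕ) : HasFV (dgen q k) (smp (k + 1)) (dgen q (k + 1)) where
  str := dgen_str q k
  fac := by
    refine ⟨duemb q k, duemb_inj, ?_⟩
    intro i
    refine Fin.cases ?_ (fun i => ?_) i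
    · show duemb q k (SemidirectProduct.inl (el q k 0)) = SemidirectProduct.inl (el q (k + 1) 0)
      unfold duemb
      rw [SemidirectProduct.map_inl, demb_el]
      rfl
    · show duemb q k (SemidirectProduct.inr (smp k i)) =
        SemidirectProduct.inr (smp (k + 1) i.castSucc)
      unfold duemb
      rw [SemidirectProduct.map_inr, iota_smp]
  ver := ⟨SemidirectProduct.inr, SemidirectProduct.inr_injective, fun _ => rfl⟩

end Pool.Agent.Helper83.UP
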