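import Pool.Agent.Helper83.UP.Code2
import Pool.Agent.Helper83.UP.DihFV

/-!
# The cube
-/

namespace Pool.Agent.Helper83.UP

open Subgroup Pool.Agent.Helper23.UP
open scoped Pointwise

section General

variable {Ω W N : Type} [Group W] [MulAction W Ω] [Group N] {m : ℕ} (α : W →* MulAut N)
  (t : Ω → N)

omit [MulAction W Ω] in
theorem gtw_vertSub (o : Ω) (τ : Fin m → W) (hτ : IsStringC τ) :
    vertSub (gtw α t o τ) = (SemidirectProduct.inr : W →* N ⋊[α] W).range := by
  rw [MonoidHom.range_eq_map, ← hτ.gen, par_map]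
  have h1 : (fun i => (SemidirectProduct.inr (τ i) : N ⋊[α] W)) =
      fun i => gtw α t o τ i.succ := rfl
  rw [h1, par_succ]
  unfold vertSub
  congr 1
  ext i
  constructor
  · intro hi
    have hi' : i ≠ 0 := fun h => hi (by rw [h]; rfl)
    obtain ⟨j, rfl⟩ := Fin.exists_succ_eq.2 hi'
    exact ⟨j, trivial, rfl⟩
  · rintro ⟨j, _, rfl⟩
    show ((j.succ : Fin (m + 1)) : ℕ) ≠ 0
    simp

end General

/-- the action on all words -/
def wHom (Ω W : Type) [Group W] [MulAction W Ω] : W →* MulAut (Wd Ω) where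
  toFun w := wact w
  map_one' := MulEquiv.ext (fun c => wact_one c)
  map_mul' v w := MulEquiv.ext (fun c => wact_mul v w c)

theorem wHom_apply {Ω W : Type} [Group W] [MulAction W Ω] (w : W) (c : Wd Ω) :
    wHom Ω W w c = wact w c := rfl

/-- the group of the cube of rank `k + 1`: signed permutations -/
abbrev CG (k : ℕ) : Type :=
  Wd (Fin (k + 1)) ⋊[wHom (Fin (k + 1)) (Equiv.Perm (Fin (k + 1)))] Equiv.Perm (Fin (k + 1))

/-- the cube of rank `k + 1`: the first generator changes the sign of the first coordinate, the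
others exchange adjacent coordinates -/
noncomputable def cub (k : ℕ) : Fin (k + 1) → CG k :=
  gtw (wHom (Fin (k + 1)) (Equiv.Perm (Fin (k + 1)))) sgl 0 (smp k)

theorem sgl_closure {Ω : Type} [Finite Ω] :
    Subgroup.closure (Set.range (sgl : Ω → Wd Ω)) = ⊤ := by
  set K := Subgroup.closure (Set.range (sgl : Ω → Wd Ω)) with hK
  have h1 : QuotientGroup.mk' K = 1 := by
    apply wd_ext
    intro x
    show ((sgl x : Wd Ω) : Wd Ω ⧸ K) = 1
    rw [QuotientGroup.eq_one_iff]
    exact subset_closure ⟨x, rfl⟩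
  rw [eq_top_iff]
  intro c _
  rw [← QuotientGroup.eq_one_iff]
  exact DFunLike.congr_fun h1 c

theorem sgl_ne_one {Ω : Type} (x : Ω) : (sgl x : Wd Ω) ≠ 1 := by
  intro h
  have h1 : sgl x x = 1 := congrFun h x
  rw [sgl_same] at h1
  exact absurd h1 (by decide)

theorem smp_fix (k : ℕ) (i : Fin k) (hi : (i : ℕ) ≠ 0) :
    smp k i • (0 : Fin (k + 1)) = 0 := by
  show Equiv.swap i.castSucc i.succ 0 = 0
  apply Equiv.swap_apply_of_ne_of_ne
  · intro h
    exact hi (congrArg Fin.val h).symm
  · exact (Fin.succ_ne_zero i).symm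

theorem cub_str (k : ℕ) : IsStringC (cub k) := by
  refine gtw_str _ sgl (fun w x => wact_single w x) sgl_closure (fun x => wd_sq _) 0
    (sgl_ne_one 0) (smp k) (smp_str k) (smp_fix k) ?_
  intro x
  exact ⟨Equiv.swap 0 x, by
    show x = Equiv.swap 0 x 0
    rw [Equiv.swap_apply_left]⟩

theorem cub_vertSub (k : ℕ) : vertSub (cub k) =
    (SemidirectProduct.inr : Equiv.Perm (Fin (k + 1)) →* CG k).range :=
  gtw_vertSub _ sgl 0 (smp k) (smp_str k)

/-- the coordinates of a vertex -/
noncomputable def crd (k : ℕ) : Vert (cub k) → Wd (Fin (k + 1)) := fun x =>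
  Quotient.liftOn' x (fun g => g.left) (by
    intro a b hab
    rw [QuotientGroup.leftRel_apply, cub_vertSub] at hab
    obtain ⟨π, hπ⟩ := hab
    have h1 : b = a * SemidirectProduct.inr π := by
      rw [hπ]
      group
    rw [h1, SemidirectProduct.mul_left, SemidirectProduct.left_inr, map_one, mul_one])

theorem crd_mk (k : ℕ) (g : CG k) : crd k ((g : CG k) : Vert (cub k)) = g.left := rfl

theorem crd_smul (k : ℕ) (g : CG k) (x : Vert (cub k)) :
    crd k (g • x) = g.left * wact g.right (crd k x) := by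
  obtain ⟨u, rfl⟩ := QuotientGroup.mk_surjective x
  show crd k (((g * u : CG k)) : Vert (cub k)) = g.left * wact g.right (crd k (u : Vert (cub k)))
  rw [crd_mk, crd_mk, SemidirectProduct.mul_left, wHom_apply]

theorem crd_inj (k : ℕ) : Function.Injective (crd k) := by
  intro x y hxy
  obtain ⟨u, rfl⟩ := QuotientGroup.mk_surjective x
  obtain ⟨v, rfl⟩ := QuotientGroup.mk_surjective y
  have h : u.left = v.left := hxy
  refine QuotientGroup.eq.2 ?_
  rw [cub_vertSub]
  refine ⟨u.right⁻¹ * v.right, ?_⟩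
  rw [← SemidirectProduct.inl_left_mul_inr_right u, ← SemidirectProduct.inl_left_mul_inr_right v,
    h, mul_inv_rev, map_mul, map_inv]
  simp only [SemidirectProduct.mul_right, SemidirectProduct.right_inl,
    SemidirectProduct.right_inr, one_mul]
  group

theorem crd_base (k : ℕ) : crd k (baseV (cub k)) = 1 := rfl

/-- the facets of the cube: one coordinate is fixed -/
theorem facet_left (k : ℕ) (g : CG (k + 1)) (hg : g ∈ facetSub (cub (k + 1))) :
    g.left (Fin.last (k + 1)) = 1 ∧ g.right (Fin.last (k + 1)) = Fin.last (k + 1) := by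
  unfold facetSub par at hg
  induction hg using Subgroup.closure_induction with
  | mem x hx =>
    obtain ⟨i, hi, rfl⟩ := hx
    rcases Fin.eq_zero_or_eq_succ i with rfl | ⟨j, rfl⟩
    · refine ⟨?_, rfl⟩
      show sgl 0 (Fin.last (k + 1)) = 1
      apply sgl_ne
      intro h
      have := congrArg Fin.val h
      simp at this
    · refine ⟨rfl, ?_⟩
      show smp (k + 1) j (Fin.last (k + 1)) = Fin.last (k + 1)
      have hj : (j : ℕ) ≠ k := by
        intro h
        apply hi
        show ((j.succ : Fin (k + 2)) : ℕ) + 1 = k + 2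
        rw [Fin.val_succ, h]
      apply Equiv.swap_apply_of_ne_of_ne
      · exact (Fin.castSucc_ne_last j).symm
      · intro h
        have := congrArg Fin.val h
        rw [Fin.val_last, Fin.val_succ] at this
        omega
  | one => exact ⟨rfl, rfl⟩
  | mul x y _ _ hx hy =>
    constructor
    · rw [SemidirectProduct.mul_left, Pi.mul_apply, hx.1, one_mul, wHom_apply, wact_apply]
      have h1 : (x.right)⁻¹ • (Fin.last (k + 1)) = Fin.last (k + 1) := by
        show (x.right)⁻¹ (Fin.last (k + 1)) = Fin.last (k + 1)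
        rw [Equiv.Perm.inv_eq_iff_eq, hx.2]
      rw [h1]
      exact hy.1
    · rw [SemidirectProduct.mul_right, Equiv.Perm.mul_apply, hy.2, hx.2]
  | inv x _ hx =>
    constructor
    · rw [SemidirectProduct.inv_left, wHom_apply, wact_apply, inv_inv, Pi.inv_apply]
      have h1 : x.right • (Fin.last (k + 1)) = Fin.last (k + 1) := hx.2
      rw [h1, hx.1, inv_one]
    · rw [SemidirectProduct.inv_right, Equiv.Perm.inv_eq_iff_eq, hx.2]

theorem mem_others' {Ω : Type} [Finite Ω] (o : Ω) (d : Wd Ω) (hd : d o = 1) :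
    d ∈ Subgroup.closure (sgl '' {b : Ω | b ≠ o}) := by
  have h1 := mem_others (⊥ : Subgroup (Wd Ω)) o d hd
  have h2 : Subgroup.closure (cl (⊥ : Subgroup (Wd Ω)) '' {b : Ω | b ≠ o}) =
      (Subgroup.closure (sgl '' {b : Ω | b ≠ o})).map (QuotientGroup.mk' ⊥) := by
    rw [MonoidHom.map_closure, Set.image_image]
    rfl
  rw [h2] at h1
  obtain ⟨e, he, hed⟩ := h1
  have h3 : ((e : Wd Ω) : Wd Ω ⧸ (⊥ : Subgroup (Wd Ω))) = ((d : Wd Ω) : Wd Ω ⧸ _) := hed
  rw [QuotientGroup.eq, Subgroup.mem_bot, inv_mul_eq_one] at h3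
  rw [← h3]
  exact he

theorem mem_facet (k : ℕ) (g : CG (k + 1)) (h1 : g.left (Fin.last (k + 1)) = 1)
    (h2 : g.right (Fin.last (k + 1)) = Fin.last (k + 1)) : g ∈ facetSub (cub (k + 1)) := by
  have hr : ∀ π ∈ facetSub (smp (k + 1)),
      (SemidirectProduct.inr π : CG (k + 1)) ∈ facetSub (cub (k + 1)) := by
    intro π hπ
    have h3 : facetSub (smp (k + 1)) ≤ (facetSub (cub (k + 1))).comap
        (SemidirectProduct.inr : _ →* CG (k + 1)) := by
      conv_lhs => unfold facetSub par
      rw [closure_le]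
      rintro _ ⟨i, hi, rfl⟩
      refine subset_closure ⟨i.succ, ?_, rfl⟩
      intro h
      apply hi
      rw [Fin.val_succ] at h
      omega
    exact h3 hπ
  have hs : ∀ i : Fin (k + 2), i ≠ Fin.last (k + 1) →
      (SemidirectProduct.inl (sgl i) : CG (k + 1)) ∈ facetSub (cub (k + 1)) := by
    intro i hi
    have h0 : (0 : Fin (k + 2)) ≠ Fin.last (k + 1) := by
      intro h
      have := congrArg Fin.val h
      simp at this
    have h3 : Equiv.swap 0 i ∈ facetSub (smp (k + 1)) := by
      rw [mem_facetSub_smp, Equiv.swap_apply_of_ne_of_ne h0.symm hi.symm]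
    have h4 : (SemidirectProduct.inl (sgl 0) : CG (k + 1)) ∈ facetSub (cub (k + 1)) := by
      refine subset_closure ⟨0, ?_, rfl⟩
      intro h
      rw [Fin.val_zero] at h
      omega
    have h5 := gtw_conj (wHom (Fin (k + 2)) (Equiv.Perm (Fin (k + 2)))) sgl
      (fun w x => wact_single w x) (Equiv.swap 0 i) 0
    have h6 : Equiv.swap 0 i • (0 : Fin (k + 2)) = i := Equiv.swap_apply_left 0 i
    rw [h6] at h5
    rw [← h5]
    exact mul_mem (mul_mem (hr _ h3) h4) (inv_mem (hr _ h3))
  rw [← SemidirectProduct.inl_left_mul_inr_right g]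
  refine mul_mem ?_ (hr _ ((mem_facetSub_smp k g.right).2 h2))
  have h7 := mem_others' (Fin.last (k + 1)) g.left h1
  have h8 : Subgroup.closure (sgl '' {b : Fin (k + 2) | b ≠ Fin.last (k + 1)}) ≤
      (facetSub (cub (k + 1))).comap (SemidirectProduct.inl : _ →* CG (k + 1)) := by
    rw [closure_le]
    rintro _ ⟨i, hi, rfl⟩
    exact hs i hi
  exact h8 h7

theorem mem_facetVerts (k : ℕ) (x : Vert (cub (k + 1))) :
    x ∈ facetVerts (cub (k + 1)) ↔ crd (k + 1) x (Fin.last (k + 1)) = 1 := by
  constructor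
  · rintro ⟨h, hh, rfl⟩
    exact (facet_left k h hh).1
  · intro h
    refine ⟨SemidirectProduct.inl (crd (k + 1) x), mem_facet k _ h rfl, ?_⟩
    apply crd_inj
    rfl

/-- two vertices with a common coordinate lie in a common facet -/
theorem common (k : ℕ) (x y : Vert (cub (k + 1))) (i : Fin (k + 2))
    (h : crd (k + 1) x i = crd (k + 1) y i) :
    ∃ A ∈ facetSets (cub (k + 1)), x ∈ A ∧ y ∈ A := by
  set w : CG (k + 1) := SemidirectProduct.inl (crd (k + 1) x) *
    SemidirectProduct.inr (Equiv.swap (Fin.last (k + 1)) i) with hw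
  have key : ∀ y : Vert (cub (k + 1)), crd (k + 1) x i = crd (k + 1) y i →
      y ∈ w • facetVerts (cub (k + 1)) := by
    intro y hy
    rw [Set.mem_smul_set_iff_inv_smul_mem, mem_facetVerts, crd_smul, hw, mul_inv_rev,
      SemidirectProduct.mul_left, SemidirectProduct.mul_right]
    simp only [SemidirectProduct.inv_left, SemidirectProduct.inv_right,
      SemidirectProduct.left_inl, SemidirectProduct.right_inl, SemidirectProduct.left_inr,
      SemidirectProduct.right_inr, wHom_apply, inv_one, map_one, one_mul, mul_one,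
      Pi.mul_apply, wact_apply, inv_inv]
    have e : Equiv.swap (Fin.last (k + 1)) i • (Fin.last (k + 1)) = i :=
      Equiv.swap_apply_left _ _
    rw [e]
    show (crd (k + 1) x i)⁻¹ * crd (k + 1) y i = 1
    rw [hy, inv_mul_cancel]
  exact ⟨_, ⟨w, rfl⟩, key x rfl, key y h⟩

theorem cub_near (k : ℕ) : Near (cub (k + 1)) := by
  intro x y z hzx _ hxy
  have h1 : ∀ i, crd (k + 1) x i ≠ crd (k + 1) y i := fun i hi => hxy (common k x y i hi)
  obtain ⟨j, hj⟩ : ∃ j, crd (k + 1) z j ≠ crd (k + 1) x j := by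
    by_contra hcon
    push Not at hcon
    exact hzx (crd_inj _ (funext hcon))
  refine common k z y j ?_
  have h2 := h1 j
  rcases c2_pow (crd (k + 1) x j) with e1 | e1 <;> rcases c2_pow (crd (k + 1) y j) with e2 | e2 <;>
    rcases c2_pow (crd (k + 1) z j) with e3 | e3 <;> rw [e1] at h2 hj <;> rw [e2] at h2 <;>
    rw [e3] at hj <;> rw [e2, e3] <;> first | exact absurd rfl h2 | exact absurd rfl hj

/-- adding a trivial coordinate -/
def sn (k : ℕ) : Wd (Fin (k + 1)) →* Wd (Fin (k + 2)) where
  toFun v := Fin.snoc (α := fun _ => C2) v 1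
  map_one' := by
    funext j
    refine Fin.lastCases ?_ (fun i => ?_) j
    · rw [Fin.snoc_last]; rfl
    · rw [Fin.snoc_castSucc]; rfl
  map_mul' a b := by
    funext j
    refine Fin.lastCases ?_ (fun i => ?_) j
    · rw [Pi.mul_apply, Fin.snoc_last, Fin.snoc_last, Fin.snoc_last, mul_one]
    · rw [Pi.mul_apply, Fin.snoc_castSucc, Fin.snoc_castSucc, Fin.snoc_castSucc]; rfl

theorem sn_cast (k : ℕ) (v : Wd (Fin (k + 1))) (i : Fin (k + 1)) : sn k v i.castSucc = v i :=
  Fin.snoc_castSucc (α := fun _ => C2) _ _ _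

theorem sn_last (k : ℕ) (v : Wd (Fin (k + 1))) : sn k v (Fin.last (k + 1)) = 1 :=
  Fin.snoc_last (α := fun _ => C2) _ _

theorem sn_inj (k : ℕ) : Function.Injective (sn k) := by
  intro a b hab
  funext i
  have h := congrFun hab i.castSucc
  rwa [sn_cast, sn_cast] at h

theorem sn_act (k : ℕ) (π : Equiv.Perm (Fin (k + 1))) (c : Wd (Fin (k + 1))) :
    sn k (wact π c) = wact (iota k π) (sn k c) := by
  funext j
  rw [wact_apply, ← map_inv]
  refine Fin.lastCases ?_ (fun i => ?_) j
  · have h : iota k π⁻¹ • (Fin.last (k + 1)) = Fin.last (k + 1) := iota_last π⁻¹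
    rw [h, sn_last, sn_last]
  · have h : iota k π⁻¹ • i.castSucc = (π⁻¹ i).castSucc := iota_cast π⁻¹ i
    rw [h, sn_cast, sn_cast]
    rfl

/-- the group of the facet of the cube -/
noncomputable def cemb (k : ℕ) : CG k →* CG (k + 1) :=
  SemidirectProduct.map (sn k) (iota k) (fun π => MonoidHom.ext (fun c => sn_act k π c))

theorem cemb_inj (k : ℕ) : Function.Injective (cemb k) := by
  intro a b hab
  have h1 := congrArg SemidirectProduct.left hab
  have h2 := congrArg SemidirectProduct.right hab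
  exact SemidirectProduct.ext (sn_inj k h1) (iota_inj k h2)

theorem cemb_gen (k : ℕ) (i : Fin (k + 1)) : cemb k (cub k i) = cub (k + 1) i.castSucc := by
  refine Fin.cases ?_ (fun i => ?_) i
  · show cemb k (SemidirectProduct.inl (sgl 0)) = SemidirectProduct.inl (sgl 0)
    unfold cemb
    rw [SemidirectProduct.map_inl]
    congr 1
    funext j
    refine Fin.lastCases ?_ (fun i => ?_) j
    · rw [sn_last, sgl_ne]
      intro h
      have := congrArg Fin.val h
      simp at this
    · rw [sn_cast]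
      by_cases hi : i = 0
      · rw [hi, sgl_same]
        exact (sgl_same _).symm
      · rw [sgl_ne hi, sgl_ne]
        intro h
        exact hi (Fin.castSucc_injective _ h)
  · show cemb k (SemidirectProduct.inr (smp k i)) =
      SemidirectProduct.inr (smp (k + 1) i.castSucc)
    unfold cemb
    rw [SemidirectProduct.map_inr, iota_smp]

end Pool.Agent.Helper83.UP
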