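import Pool.Agent.Helper83.UP.Danz

/-!
# The polytopes `2^K / C` for the cube, in coordinates
-/

namespace Pool.Agent.Helper83.UP

open Subgroup Pool.Agent.Helper23.UP
open scoped Pointwise

/-- The vertices of the cube of rank `k + 1` (coordinates in the group of order two). -/
abbrev Q (k : ℕ) : Type := Fin (k + 1) → C2

/-- `(G, σ)` is the polytope `2^K / C`, where `K = cub k` is the cube of rank `k + 1` and `C` a
code on its vertices: `f` embeds the group of `K` as the group of the vertex-figure, the conjugates
`f (inl v) * σ 0 * (f (inl v))⁻¹` of `σ 0` (one for each vertex `v` of `K`) commute, a product of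
these conjugates lies in the image of `f` only if it is trivial, and `C` consists of the words
whose product of conjugates is trivial. -/
structure IsQuot (k : ℕ) (C : Subgroup (Wd (Q k))) {G : Type} [Group G]
    (σ : Fin (k + 2) → G) : Prop where
  str : IsStringC σ
  data : ∃ (f : CG k →* G) (Φ : Wd (Q k) →* G), Function.Injective f ∧
    (∀ i, f (cub k i) = σ i.succ) ∧
    (∀ v : Q k, Φ (sgl v) =
      f (SemidirectProduct.inl v) * σ 0 * (f (SemidirectProduct.inl v))⁻¹) ∧
    (∀ c w, Φ c = f w → w = 1) ∧ ∀ c, Φ c = 1 ↔ c ∈ C

/-- the code is invariant under the changes of signs and the permutations of the coordinates -/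
def InvQ (k : ℕ) (C : Subgroup (Wd (Q k))) : Prop :=
  ∀ c ∈ C, (∀ a : Q k, (fun x => c (a * x)) ∈ C) ∧
    ∀ π : Equiv.Perm (Fin (k + 1)), (fun x => c (fun i => x (π i))) ∈ C

open Classical in
/-- extension of a word from the base facet (last coordinate trivial) to the cube of rank
`k + 2` by the trivial word -/
noncomputable def ext0 (k : ℕ) (c : Wd (Q k)) : Wd (Q (k + 1)) :=
  fun y => if y (Fin.last (k + 1)) = 1 then c (fun j => y j.castSucc) else 1

/-- the code on the cube of rank `k + 2` spanned by the copies of `C` on the facets: the images of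
the extensions under all automorphisms of the cube -/
def spanQ (k : ℕ) (C : Subgroup (Wd (Q k))) : Subgroup (Wd (Q (k + 1))) :=
  closure {d | ∃ (a : Q (k + 1)) (π : Equiv.Perm (Fin (k + 2))), ∃ c ∈ C,
    d = fun y => ext0 k c (fun i => a i * y (π i))}

/-- `C` is extendable: a word whose extension lies in the span of the copies of `C` is in `C` -/
def ExtQ (k : ℕ) (C : Subgroup (Wd (Q k))) : Prop := ∀ c, ext0 k c ∈ spanQ k C → c ∈ C

/-- The word `c` has even weight on every face of the cube of dimension greater than `r` (the
coordinates in `T` are free, the others are those of `u`). -/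
def EvenOn (k r : ℕ) (c : Wd (Q k)) : Prop :=
  ∀ (T : Finset (Fin (k + 1))) (u : Q k), r < T.card →
    ∏ᶠ v ∈ {v : Q k | ∀ i, i ∉ T → v i = u i}, c v = 1

end Pool.Agent.Helper83.UP
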