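import Pool.Agent.Helper83.UP.CubeQ

/-!
# The polytopes `2^K / C` for the cube: passing to coordinates
-/

namespace Pool.Agent.Helper83.UP

open Subgroup Pool.Agent.Helper23.UP
open scoped Pointwise

/-- the vertex with given coordinates -/
noncomputable def vtx (k : ℕ) (v : Q k) : Vert (cub k) :=
  ((SemidirectProduct.inl v : CG k) : Vert (cub k))

theorem crd_vtx (k : ℕ) (v : Q k) : crd k (vtx k v) = v := rfl

theorem vtx_crd (k : ℕ) (x : Vert (cub k)) : vtx k (crd k x) = x := crd_inj k (crd_vtx k _)

/-- words in coordinates -/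
noncomputable def pull (k : ℕ) : Wd (Q k) ≃* Wd (Vert (cub k)) where
  toFun c := fun x => c (crd k x)
  invFun c := fun v => c (vtx k v)
  left_inv c := rfl
  right_inv c := by
    funext x
    show c (vtx k (crd k x)) = c x
    rw [vtx_crd]
  map_mul' _ _ := rfl

theorem pull_apply (k : ℕ) (c : Wd (Q k)) (x : Vert (cub k)) : pull k c x = c (crd k x) := rfl

theorem pull_sgl (k : ℕ) (v : Q k) : pull k (sgl v) = sgl (vtx k v) := by
  funext x
  rw [pull_apply]
  by_cases h : crd k x = v
  · have h2 : x = vtx k v := by rw [← h, vtx_crd]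
    rw [h, sgl_same, h2, sgl_same]
  · rw [sgl_ne h, sgl_ne]
    intro h2
    exact h (by rw [h2, crd_vtx])

/-- the code in terms of cosets -/
noncomputable def Csh (k : ℕ) (C : Subgroup (Wd (Q k))) : Subgroup (Wd (Vert (cub k))) :=
  C.map (pull k).toMonoidHom

theorem mem_Csh (k : ℕ) (C : Subgroup (Wd (Q k))) (c : Wd (Q k)) :
    pull k c ∈ Csh k C ↔ c ∈ C := by
  constructor
  · rintro ⟨d, hd, hdc⟩
    rw [← (pull k).injective hdc]
    exact hd
  · intro h
    exact ⟨c, h, rfl⟩

theorem exists_pull (k : ℕ) (c : Wd (Vert (cub k))) : ∃ d, c = pull k d :=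
  ⟨(pull k).symm c, ((pull k).apply_symm_apply c).symm⟩

theorem crd_inv_smul (k : ℕ) (w : CG k) (x : Vert (cub k)) :
    crd k (w⁻¹ • x) = fun i => (w⁻¹).left i * crd k x (w.right i) := by
  funext i
  rw [crd_smul, Pi.mul_apply, wact_apply, SemidirectProduct.inv_right, inv_inv]
  rfl

theorem wact_pull (k : ℕ) (w : CG k) (c : Wd (Q k)) :
    wact w (pull k c) = pull k (fun v => c (fun i => (w⁻¹).left i * v (w.right i))) := by
  funext x
  rw [wact_apply, pull_apply, crd_inv_smul]
  rfl

theorem Csh_inv (k : ℕ) (C : Subgroup (Wd (Q k))) (h : InvQ k C) : CInv (CG k) (Csh k C) := by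
  rintro w _ ⟨c, hc, rfl⟩
  show wact w (pull k c) ∈ Csh k C
  rw [wact_pull, mem_Csh]
  exact (h _ ((h c hc).1 (w⁻¹).left)).2 w.right

/-- the model is the polytope `2^K / C` -/
theorem quot_model (k : ℕ) (C : Subgroup (Wd (Q k))) {C' : Subgroup (Wd (Vert (cub k)))}
    (hC : CInv (CG k) C') (hCC : C' = Csh k C) (h1 : sgl (baseV (cub k)) ∉ C') :
    IsQuot k C (codeP (cub k) hC) where
  str := codeP_str (cub k) (cub_str k) hC h1
  data := by
    refine ⟨SemidirectProduct.inr, (SemidirectProduct.inl.comp (QuotientGroup.mk' C')).comp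
      (pull k).toMonoidHom, SemidirectProduct.inr_injective, fun i => rfl, ?_, ?_, ?_⟩
    · intro v
      have h2 := gtw_conj (cact hC) (cl C') (fun w x => cl_act hC w x)
        (SemidirectProduct.inl v : CG k) (baseV (cub k))
      have h3 : (SemidirectProduct.inl v : CG k) • baseV (cub k) = vtx k v := smul_baseV _ _
      rw [h3] at h2
      refine Eq.trans ?_ h2.symm
      show SemidirectProduct.inl (((pull k (sgl v) : Wd _)) : Wd _ ⧸ C') = _
      rw [pull_sgl]
      rfl
    · intro c w h
      exact (congrArg SemidirectProduct.right h).symm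
    · intro c
      rw [← mem_Csh, ← hCC, ← QuotientGroup.eq_one_iff]
      constructor
      · intro h
        exact SemidirectProduct.inl_injective (h.trans (map_one _).symm)
      · intro h
        show SemidirectProduct.inl (((pull k c : Wd _)) : Wd _ ⧸ C') = 1
        rw [h, map_one]

/-- every polytope `2^K / C` is isomorphic to the model -/
theorem quot_iso (k : ℕ) (C : Subgroup (Wd (Q k))) {G : Type} [Group G] (σ : Fin (k + 2) → G)
    (h : IsQuot k C σ) : ∃ hC : CInv (CG k) (Csh k C), sgl (baseV (cub k)) ∉ Csh k C ∧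
      StrIso σ (codeP (cub k) hC) := by
  obtain ⟨f, Φ, hfi, hf, hΦ, hint, hker⟩ := h.data
  have hcomm : ∀ π, f (SemidirectProduct.inr π) * σ 0 = σ 0 * f (SemidirectProduct.inr π) := by
    intro π
    refine comm_zero (cub k) σ f hf h.str (SemidirectProduct.inr π) ?_
    rw [cub_vertSub]
    exact ⟨π, rfl⟩
  set Ψ : Wd (Vert (cub k)) →* G := Φ.comp (pull k).symm.toMonoidHom with hΨ
  have hΨp : ∀ c, Ψ (pull k c) = Φ c := by
    intro c
    show Φ ((pull k).symm (pull k c)) = Φ c
    rw [MulEquiv.symm_apply_apply]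
  have hact : ∀ (w : CG k) (c : Wd (Vert (cub k))), Ψ (wact w c) = f w * Ψ c * (f w)⁻¹ := by
    intro w
    have h1 : Ψ.comp (wact w : Wd (Vert (cub k)) ≃* Wd (Vert (cub k))).toMonoidHom =
        (MulAut.conj (f w)).toMonoidHom.comp Ψ := by
      apply wd_ext
      intro x
      show Ψ (wact w (sgl x)) = f w * Ψ (sgl x) * (f w)⁻¹
      have e1 : ∀ x : Vert (cub k), Ψ (sgl x) = f (SemidirectProduct.inl (crd k x)) * σ 0 *
          (f (SemidirectProduct.inl (crd k x)))⁻¹ := by
        intro x
        have := pull_sgl k (crd k x)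
        rw [vtx_crd] at this
        rw [← this, hΨp, hΦ]
      rw [wact_single, e1, e1]
      have e2 : w * SemidirectProduct.inl (crd k x) =
          SemidirectProduct.inl (crd k (w • x)) * SemidirectProduct.inr w.right := by
        refine SemidirectProduct.ext ?_ ?_
        · rw [SemidirectProduct.mul_left, SemidirectProduct.mul_left, crd_smul,
            SemidirectProduct.left_inl, SemidirectProduct.left_inl, SemidirectProduct.left_inr,
            map_one, mul_one]
          rfl
        · rw [SemidirectProduct.mul_right, SemidirectProduct.mul_right,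
            SemidirectProduct.right_inl, SemidirectProduct.right_inl,
            SemidirectProduct.right_inr, mul_one, one_mul]
      have e3 := congrArg f e2
      rw [map_mul, map_mul] at e3
      calc f (SemidirectProduct.inl (crd k (w • x))) * σ 0 *
            (f (SemidirectProduct.inl (crd k (w • x))))⁻¹
          = f (SemidirectProduct.inl (crd k (w • x))) *
            (σ 0 * f (SemidirectProduct.inr w.right)) * (f (SemidirectProduct.inr w.right))⁻¹ *
            (f (SemidirectProduct.inl (crd k (w • x))))⁻¹ := by group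
        _ = (f (SemidirectProduct.inl (crd k (w • x))) * f (SemidirectProduct.inr w.right)) *
            σ 0 * (f (SemidirectProduct.inl (crd k (w • x))) *
            f (SemidirectProduct.inr w.right))⁻¹ := by
              rw [← hcomm]
              group
        _ = (f w * f (SemidirectProduct.inl (crd k x))) * σ 0 *
            (f w * f (SemidirectProduct.inl (crd k x)))⁻¹ := by rw [e3]
        _ = _ := by group
    intro c
    exact DFunLike.congr_fun h1 c
  have hkerΨ : ∀ c, Ψ c = 1 ↔ c ∈ Csh k C := by
    intro c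
    obtain ⟨d, rfl⟩ := exists_pull k c
    rw [hΨp, mem_Csh, hker]
  have hC : CInv (CG k) (Csh k C) := by
    intro w c hc
    rw [← hkerΨ] at hc ⊢
    rw [hact, hc, mul_one, mul_inv_cancel]
  refine ⟨hC, ?_, ?_⟩
  · intro h1
    have h2 : sgl (baseV (cub k)) = pull k (sgl 1) := (pull_sgl k 1).symm
    rw [h2, mem_Csh, ← hker, hΦ, map_one, map_one, one_mul, inv_one, mul_one] at h1
    exact h.str.ne 0 h1
  · set F : (Wd (Vert (cub k)) ⧸ Csh k C) ⋊[cact hC] CG k →* G :=
      SemidirectProduct.lift (QuotientGroup.lift (Csh k C) Ψ (fun c hc => (hkerΨ c).2 hc)) f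
        (by
          intro w
          apply MonoidHom.ext
          intro n
          obtain ⟨c, rfl⟩ := QuotientGroup.mk_surjective n
          exact hact w c) with hF
    have hgen : ∀ i, F (codeP (cub k) hC i) = σ i := by
      intro i
      refine Fin.cases ?_ (fun i => ?_) i
      · show SemidirectProduct.lift _ f _ (SemidirectProduct.inl (cl _ (baseV (cub k)))) = σ 0
        rw [SemidirectProduct.lift_inl]
        show Ψ (sgl (baseV (cub k))) = σ 0
        have h2 : sgl (baseV (cub k)) = pull k (sgl 1) := (pull_sgl k 1).symm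
        rw [h2, hΨp, hΦ, map_one, map_one, one_mul, inv_one, mul_one]
      · show SemidirectProduct.lift _ f _ (SemidirectProduct.inr (cub k i)) = σ i.succ
        rw [SemidirectProduct.lift_inr, hf]
    have hsur : Function.Surjective F := by
      rw [← MonoidHom.range_eq_top, eq_top_iff, ← h.str.gen]
      unfold par
      rw [closure_le]
      rintro _ ⟨i, _, rfl⟩
      exact ⟨_, hgen i⟩
    have hinj : Function.Injective F := by
      rw [injective_iff_map_eq_one]
      intro a ha
      rw [← SemidirectProduct.inl_left_mul_inr_right a] at ha ⊢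
      obtain ⟨c, hc⟩ := QuotientGroup.mk_surjective a.left
      rw [← hc] at ha ⊢
      rw [map_mul] at ha
      have h2 : Ψ c * f a.right = 1 := by
        rw [hF, SemidirectProduct.lift_inl, SemidirectProduct.lift_inr] at ha
        exact ha
      obtain ⟨d, rfl⟩ := exists_pull k c
      rw [hΨp] at h2
      have h3 : Φ d = f (a.right)⁻¹ := by
        rw [map_inv]
        exact eq_inv_of_mul_eq_one_left h2
      have h4 := hint d _ h3
      rw [h4, map_one, hker] at h3
      have h5 : a.right = 1 := inv_eq_one.1 h4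
      rw [h5, map_one, mul_one]
      have h6 : ((pull k d : Wd (Vert (cub k))) : Wd (Vert (cub k)) ⧸ Csh k C) = 1 := by
        rw [QuotientGroup.eq_one_iff, mem_Csh]
        exact h3
      show SemidirectProduct.inl ((pull k d : Wd (Vert (cub k))) : Wd (Vert (cub k)) ⧸ Csh k C) = 1
      rw [h6, map_one]
    refine ⟨(MulEquiv.ofBijective F ⟨hinj, hsur⟩).symm, ?_⟩
    intro i
    rw [MulEquiv.symm_apply_eq]
    exact (hgen i).symm

theorem ext_pull (k : ℕ) (c : Wd (Q k)) :
    wext (cub k) (cub (k + 1)) (cemb k) (cemb_gen k) (pull k c) = pull (k + 1) (ext0 k c) := by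
  have hji := jmap_inj (cub k) (cub (k + 1)) (cemb k) (cemb_gen k) (cemb_inj k) (cub_str k)
    (cub_str (k + 1))
  funext y
  rw [pull_apply]
  unfold ext0
  by_cases h : crd (k + 1) y (Fin.last (k + 1)) = 1
  · rw [if_pos h]
    have h1 : y = jmap (cub k) (cub (k + 1)) (cemb k) (cemb_gen k)
        (vtx k (fun j => crd (k + 1) y j.castSucc)) := by
      apply crd_inj
      rw [crd_jmap, crd_vtx]
      funext i
      refine Fin.lastCases ?_ (fun i => ?_) i
      · rw [sn_last, h]
      · rw [sn_cast]
    conv_lhs => rw [h1]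
    rw [wext_range _ _ _ _ hji, pull_apply, crd_vtx]
  · rw [if_neg h]
    apply wext_out
    intro x hx
    apply h
    rw [← hx, crd_jmap, sn_last]

theorem span_pull (k : ℕ) (C : Subgroup (Wd (Q k))) :
    spanC (cub k) (cub (k + 1)) (cemb k) (cemb_gen k) (Csh k C) = Csh (k + 1) (spanQ k C) := by
  apply le_antisymm
  · unfold spanC
    rw [closure_le]
    rintro _ ⟨w, _, ⟨c, hc, rfl⟩, rfl⟩
    show wact w (wext (cub k) (cub (k + 1)) (cemb k) (cemb_gen k) (pull k c)) ∈ _
    rw [ext_pull, wact_pull, SetLike.mem_coe, mem_Csh]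
    exact subset_closure ⟨(w⁻¹).left, w.right, c, hc, rfl⟩
  · unfold Csh spanQ
    rw [MonoidHom.map_closure, closure_le]
    rintro _ ⟨_, ⟨a, π, c, hc, rfl⟩, rfl⟩
    set w : CG (k + 1) := (SemidirectProduct.inl a * SemidirectProduct.inr π⁻¹)⁻¹ with hw
    have h1 : pull (k + 1) (fun y => ext0 k c (fun i => a i * y (π i))) =
        wact w (pull (k + 1) (ext0 k c)) := by
      rw [wact_pull]
      have e1 : (w⁻¹).left = a := by
        rw [hw, inv_inv, SemidirectProduct.mul_left, SemidirectProduct.left_inl,
          SemidirectProduct.left_inr, map_one, mul_one]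
      have e2 : w.right = π := by
        rw [hw, SemidirectProduct.inv_right, SemidirectProduct.mul_right,
          SemidirectProduct.right_inl, SemidirectProduct.right_inr, one_mul, inv_inv]
      rw [e1, e2]
    show pull (k + 1) (fun y => ext0 k c (fun i => a i * y (π i))) ∈ _
    rw [h1, ← ext_pull]
    exact subset_closure ⟨w, pull k c, ⟨c, hc, rfl⟩, rfl⟩

theorem crit_iff (k : ℕ) (C : Subgroup (Wd (Q k))) :
    (∀ c, wext (cub k) (cub (k + 1)) (cemb k) (cemb_gen k) c ∈
      spanC (cub k) (cub (k + 1)) (cemb k) (cemb_gen k) (Csh k C) → c ∈ Csh k C) ↔ ExtQ k C := by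
  rw [span_pull]
  constructor
  · intro h c hc
    rw [← mem_Csh]
    apply h
    rw [ext_pull, mem_Csh]
    exact hc
  · intro h c hc
    obtain ⟨d, rfl⟩ := exists_pull k c
    rw [ext_pull, mem_Csh] at hc
    rw [mem_Csh]
    exact h d hc

theorem Csh_bot (k : ℕ) (C : Subgroup (Wd (Q k))) : Csh k C = ⊥ ↔ C = ⊥ := by
  constructor
  · intro h
    rw [eq_bot_iff]
    intro c hc
    rw [← mem_Csh, h, Subgroup.mem_bot] at hc
    rw [Subgroup.mem_bot]
    exact (pull k).injective (hc.trans (map_one _).symm)
  · rintro rfl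
    unfold Csh
    exact Subgroup.map_bot _

theorem even_iff (k r : ℕ) (c : Wd (Q k)) : EvenOn k r c ↔ pull k c ∈ evC k r := by
  rw [mem_evC]
  have key : ∀ (T : Finset (Fin (k + 1))) (u : Q k),
      ∏ᶠ x ∈ face k T u, pull k c x = ∏ᶠ v ∈ {v : Q k | ∀ i, i ∉ T → v i = u i}, c v := by
    intro T u
    refine finprod_mem_eq_of_bijOn (crd k) ⟨fun x hx => hx, fun x _ y _ h => crd_inj k h, ?_⟩
      (fun x _ => rfl)
    intro v hv
    exact ⟨vtx k v, hv, crd_vtx k v⟩
  constructor
  · intro h T u hT
    rw [key]
    exact h T u hT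
  · intro h T u hT
    rw [← key]
    exact h T u hT

theorem even_code (k r : ℕ) (hr : r ≤ k) (C : Subgroup (Wd (Q k)))
    (hC : ∀ c, c ∈ C ↔ EvenOn k r c) :
    InvQ k C ∧ C ≠ ⊥ ∧ (∀ v, sgl v ∉ C) ∧ ExtQ k C := by
  have h0 : Csh k C = evC k r := by
    ext c
    obtain ⟨d, rfl⟩ := exists_pull k c
    rw [mem_Csh, hC, even_iff]
  have hinv : InvQ k C := by
    have key : ∀ w : CG k, ∀ c ∈ C, (fun v => c (fun i => (w⁻¹).left i * v (w.right i))) ∈ C := by
      intro w c hc
      rw [← mem_Csh, h0, ← wact_pull]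
      apply evC_inv
      rw [← h0, mem_Csh]
      exact hc
    intro c hc
    constructor
    · intro a
      have h1 := key (SemidirectProduct.inl a)⁻¹ c hc
      rw [inv_inv] at h1
      exact h1
    · intro π
      have h1 := key (SemidirectProduct.inr π) c hc
      have e1 : ((SemidirectProduct.inr π : CG k)⁻¹).left = 1 := by
        rw [← map_inv, SemidirectProduct.left_inr]
      rw [e1] at h1
      have e2 : (fun v : Q k => c (fun i => (1 : Q k) i * v ((SemidirectProduct.inr π : CG k).right i)))
          = fun x => c (fun i => x (π i)) := by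
        funext v
        congr 1
        funext i
        exact one_mul _
      rw [e2] at h1
      exact h1
  refine ⟨hinv, ?_, ?_, ?_⟩
  · intro h
    rw [← Csh_bot, h0] at h
    exact evC_ne_bot k r h
  · intro v hv
    apply evC_base k r (by omega)
    have h1 := (hinv _ hv).1 v
    have h2 : (fun x => sgl v (v * x)) = (sgl 1 : Wd (Q k)) := by
      funext x
      by_cases hx : x = 1
      · rw [hx, mul_one, sgl_same, sgl_same]
      · rw [sgl_ne hx, sgl_ne]
        intro h
        exact hx (mul_left_cancel (h.trans (mul_one v).symm))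
    rw [h2, ← mem_Csh, h0, pull_sgl] at h1
    exact h1
  · rw [← crit_iff, h0]
    exact evC_crit k r

end Pool.Agent.Helper83.UP
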