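import Pool.Agent.Helper83.UP.CubeQ2

/-!
# The polytopes `2^K / C` for the cube: the classification
-/

namespace Pool.Agent.Helper83.UP

open Subgroup Pool.Agent.Helper23.UP
open scoped Pointwise

theorem strIso_symm {G G' : Type} [Group G] [Group G'] {n : ℕ} {σ : Fin n → G}
    {σ' : Fin n → G'} (h : StrIso σ σ') : StrIso σ' σ := by
  obtain ⟨e, he⟩ := h
  exact ⟨e.symm, fun i => by rw [MulEquiv.symm_apply_eq]; exact (he i).symm⟩

theorem strIso_trans {G G' G'' : Type} [Group G] [Group G'] [Group G''] {n : ℕ}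
    {σ : Fin n → G} {σ' : Fin n → G'} {σ'' : Fin n → G''} (h : StrIso σ σ')
    (h' : StrIso σ' σ'') : StrIso σ σ'' := by
  obtain ⟨e, he⟩ := h
  obtain ⟨e', he'⟩ := h'
  exact ⟨e.trans e', fun i => by rw [MulEquiv.trans_apply, he, he']⟩

theorem quot_congr (k : ℕ) (C : Subgroup (Wd (Q k))) {G G' : Type} [Group G] [Group G']
    {σ : Fin (k + 2) → G} {σ' : Fin (k + 2) → G'} (h : StrIso σ σ') (hs : IsStringC σ)
    (h' : IsQuot k C σ') : IsQuot k C σ where
  str := hs
  data := by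
    obtain ⟨e, he⟩ := h
    obtain ⟨f, Φ, hfi, hf, hΦ, hint, hker⟩ := h'.data
    have he' : ∀ i, e.symm (σ' i) = σ i := fun i => by
      rw [MulEquiv.symm_apply_eq]; exact (he i).symm
    refine ⟨e.symm.toMonoidHom.comp f, e.symm.toMonoidHom.comp Φ,
      e.symm.injective.comp hfi, ?_, ?_, ?_, ?_⟩
    · intro i
      show e.symm (f (cub k i)) = σ i.succ
      rw [hf, he']
    · intro v
      show e.symm (Φ (sgl v)) = e.symm (f (SemidirectProduct.inl v)) * σ 0 *
        (e.symm (f (SemidirectProduct.inl v)))⁻¹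
      rw [hΦ, map_mul, map_mul, map_inv, he']
    · intro c w hc
      exact hint c w (e.symm.injective hc)
    · intro c
      rw [← hker]
      constructor
      · intro hc
        exact e.symm.injective (hc.trans (map_one _).symm)
      · intro hc
        show e.symm (Φ c) = 1
        rw [hc, map_one]

theorem quot_exists (k : ℕ) (C : Subgroup (Wd (Q k))) (hC : InvQ k C) (h1 : ∀ v, sgl v ∉ C) :
    ∃ (G : Type) (_ : Group G) (σ : Fin (k + 2) → G), Finite G ∧ IsQuot k C σ := by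
  refine ⟨_, _, _, ?_, quot_model k C (Csh_inv k C hC) rfl ?_⟩
  · have h3 : Finite C2 := inferInstanceAs (Finite (ZMod 2))
    have h4 : Finite (Wd (Vert (cub k)) ⧸ Csh k C) := inferInstance
    exact Finite.of_equiv ((Wd (Vert (cub k)) ⧸ Csh k C) × CG k)
      SemidirectProduct.equivProd.symm
  · intro h
    apply h1 1
    rw [← mem_Csh, pull_sgl]
    exact h

theorem quot_main (k : ℕ) (C : Subgroup (Wd (Q k))) {G : Type} [Group G] (σ : Fin (k + 2) → G)
    (h : IsQuot k C σ) :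
    ((∃ (Γ : Type) (_ : Group Γ) (ρ : Fin (k + 3) → Γ), HasFV σ (cub (k + 1)) ρ) ↔ ExtQ k C) ∧
    (ExtQ k C → ∃ (Γ : Type) (_ : Group Γ) (ρ : Fin (k + 3) → Γ),
      IsUniversal σ (cub (k + 1)) ρ) ∧
    (∀ (Γ : Type) [Group Γ] (ρ : Fin (k + 3) → Γ), IsUniversal σ (cub (k + 1)) ρ →
      (Finite Γ ↔ C ≠ ⊥) ∧ (C ≠ ⊥ → IsQuot (k + 1) (spanQ k C) ρ)) := by
  obtain ⟨hC, h1, hiso⟩ := quot_iso k C σ h
  have hr : StrIso (cub (k + 1)) (cub (k + 1)) := ⟨MulEquiv.refl _, fun _ => rfl⟩
  have hFV : ∀ (Γ : Type) (_ : Group Γ) (ρ : Fin (k + 3) → Γ),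
      HasFV σ (cub (k + 1)) ρ ↔ HasFV (codeP (cub k) hC) (cub (k + 1)) ρ := fun Γ _ ρ =>
    ⟨fun h => HasFV_congr _ _ _ _ _ (strIso_symm hiso) hr h,
      fun h => HasFV_congr _ _ _ _ _ hiso hr h⟩
  by_cases hne : C = ⊥
  · -- Danzer's polytope
    have hU : IsUniversal σ (cub (k + 1)) (uniP (cub (k + 1)) 1) := by
      have h2 : IsUniversal (codeP (cub k) hC) (cub (k + 1)) (uniP (cub (k + 1)) 1) := by
        have h3 : Csh k C = ⊥ := (Csh_bot k C).2 hne
        revert hC
        rw [h3]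
        intro hC _ _
        exact (bot_cube k).1
      exact universal_congr _ _ _ _ hiso h2
    have hext : ExtQ k C := by
      rw [hne]
      intro c hc
      have h2 : spanQ k ⊥ = ⊥ := by
        rw [eq_bot_iff]
        unfold spanQ
        rw [closure_le]
        rintro _ ⟨a, π, c, hc, rfl⟩
        rw [Subgroup.mem_bot] at hc
        rw [SetLike.mem_coe, Subgroup.mem_bot, hc]
        funext y
        unfold ext0
        split_ifs
        · rfl
        · rfl
      rw [h2, Subgroup.mem_bot] at hc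
      rw [Subgroup.mem_bot]
      funext x
      have h3 := congrFun hc (sn k x)
      unfold ext0 at h3
      rw [if_pos (sn_last k x)] at h3
      have h4 : (fun j : Fin (k + 1) => sn k x j.castSucc) = x := funext (fun j => sn_cast k x j)
      rw [h4] at h3
      exact h3
    refine ⟨⟨fun _ => hext, fun _ => ⟨_, _, _, hU.fv⟩⟩, fun _ => ⟨_, _, _, hU⟩, ?_⟩
    intro Γ _ ρ hρ
    refine ⟨⟨?_, fun h => absurd hne h⟩, fun h => absurd hne h⟩
    intro hfin
    obtain ⟨e, _⟩ := universal_unique _ _ _ _ hU hρ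
    have h2 := (bot_cube k).2
    have h3 : Infinite Γ := Infinite.of_injective e e.injective
    exact absurd hfin (not_finite_iff_infinite.2 h3)
  · have hne' : Csh k C ≠ ⊥ := fun h => hne ((Csh_bot k C).1 h)
    have hmain := code_main (cub k) (cub (k + 1)) (cemb k) (cemb_gen k) (cemb_inj k) (cub_str k)
      (cub_str (k + 1)) (cub_near k) hC hne' h1
    rw [crit_iff] at hmain
    have hU : ExtQ k C → IsUniversal σ (cub (k + 1)) (codeP (cub (k + 1))
        (spanC_inv (cub k) (cub (k + 1)) (cemb k) (cemb_gen k) (Csh k C))) := fun hx =>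
      universal_congr _ _ _ _ hiso (hmain.2 hx).1
    refine ⟨⟨?_, fun hx => ⟨_, _, _, (hU hx).fv⟩⟩, fun hx => ⟨_, _, _, hU hx⟩, ?_⟩
    · rintro ⟨Γ, _, ρ, hρ⟩
      exact hmain.1.1 ⟨Γ, _, ρ, (hFV Γ _ ρ).1 hρ⟩
    · intro Γ _ ρ hρ
      have hx : ExtQ k C := hmain.1.1 ⟨Γ, _, ρ, (hFV Γ _ ρ).1 hρ.fv⟩
      have hU' := hU hx
      have hiso2 := universal_unique _ _ _ _ hρ hU'
      obtain ⟨e, he⟩ := hiso2
      have h4 := (hmain.2 hx).2
      refine ⟨⟨fun _ => hne, fun _ => Finite.of_equiv _ e.symm.toEquiv⟩, fun _ => ?_⟩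
      refine quot_congr (k + 1) (spanQ k C) ⟨e, he⟩ hρ.fv.str ?_
      refine quot_model (k + 1) (spanQ k C) _ (span_pull k C) ?_
      intro hb
      -- the first generator would be trivial
      have h5 : codeP (cub (k + 1))
          (spanC_inv (cub k) (cub (k + 1)) (cemb k) (cemb_gen k) (Csh k C)) 0 = 1 := by
        show SemidirectProduct.inl (cl _ (baseV (cub (k + 1)))) = 1
        have h6 : cl (spanC (cub k) (cub (k + 1)) (cemb k) (cemb_gen k) (Csh k C))
            (baseV (cub (k + 1))) = 1 := (QuotientGroup.eq_one_iff _).2 hb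
        rw [h6, map_one]
      exact hU'.fv.str.ne 0 h5

end Pool.Agent.Helper83.UP
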