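import Pool.Agent.Helper83.UP.EvenC
import Pool.Agent.Helper23.UP.Models

/-!
# The trivial code: the polytope `2^K`
-/

namespace Pool.Agent.Helper83.UP

open Subgroup Pool.Agent.Helper23.UP
open scoped Pointwise commutatorElement

section Iso

variable {V : Type} [Group V] {m : ℕ} (κ : Fin m → V)

theorem bot_inv {Ω W : Type} [Group W] [MulAction W Ω] : CInv W (⊥ : Subgroup (Wd Ω)) := by
  intro w c hc
  rw [Subgroup.mem_bot] at hc ⊢
  rw [hc]
  rfl

/-- from the block group to the words -/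
noncomputable def bw (Ω : Type) : Blk ({Set.univ} : Set (Set Ω)) 1 →* Wd Ω ⧸ (⊥ : Subgroup (Wd Ω)) :=
  blkLift _ 1 (cl ⊥) (cl_sq ⊥) (fun _ _ => lcs_comm _ (fun _ _ _ _ => mul_comm _ _) 1 le_rfl)

theorem bw_ltr {Ω : Type} (x : Ω) : bw Ω (ltr _ 1 x) = cl ⊥ x := blkLift_ltr _ _ _ _ _ x

theorem blk_comm {Ω : Type} (a b : Blk ({Set.univ} : Set (Set Ω)) 1) : Commute a b := by
  have h := blk_univ_top (Ω := Ω) 1
  rw [Subgroup.lowerCentralSeries_succ, Subgroup.lowerCentralSeries_zero,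
    Subgroup.commutator_eq_bot_iff_le_centralizer] at h
  have h1 := h (mem_top a)
  rw [Subgroup.mem_centralizer_iff] at h1
  exact (h1 b (mem_top b)).symm

/-- from the words to the block group -/
noncomputable def wb (Ω : Type) [Fintype Ω] : Wd Ω →* Blk ({Set.univ} : Set (Set Ω)) 1 :=
  MonoidHom.noncommPiCoprod (fun x => zp (q := 2) (ltr _ 1 x) (by
      rw [pow_two, ltr_sq]))
    (fun _ _ _ _ _ => blk_comm _ _)

theorem wb_sgl {Ω : Type} [Fintype Ω] (x : Ω) : wb Ω (sgl x) = ltr _ 1 x := by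
  classical
  have h : (sgl x : Wd Ω) = Pi.mulSingle x z2 := by
    funext y
    by_cases hy : y = x
    · rw [hy, sgl_same, Pi.mulSingle_eq_same]
    · rw [sgl_ne hy, Pi.mulSingle_eq_of_ne hy]
  rw [h]
  exact (MonoidHom.noncommPiCoprod_mulSingle _ _ _).trans (zp_one _ _)

/-- `2^K` as a code polytope -/
theorem bot_iso [Finite (Vert κ)] : StrIso (codeP κ (bot_inv (W := V) (Ω := Vert κ))) (nilP κ 1) := by
  have : Fintype (Vert κ) := Fintype.ofFinite _
  set wq : Wd (Vert κ) ⧸ (⊥ : Subgroup (Wd (Vert κ))) →* Blk ({Set.univ} : Set (Set (Vert κ))) 1 :=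
    QuotientGroup.lift ⊥ (wb (Vert κ)) bot_le with hwq
  have hcl : ∀ x, wq (cl ⊥ x) = ltr _ 1 x := fun x => wb_sgl x
  have h1 : wq.comp (bw (Vert κ)) = MonoidHom.id _ := by
    apply blk_hom_ext
    intro x
    rw [MonoidHom.comp_apply, bw_ltr, hcl]
    rfl
  have h2 : (bw (Vert κ)).comp wq = MonoidHom.id _ := by
    have h3 : ((bw (Vert κ)).comp wq).comp (QuotientGroup.mk' ⊥) = QuotientGroup.mk' ⊥ := by
      apply wd_ext
      intro x
      show bw (Vert κ) (wq (cl ⊥ x)) = cl ⊥ x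
      rw [hcl, bw_ltr]
    apply MonoidHom.ext
    intro n
    obtain ⟨c, rfl⟩ := QuotientGroup.mk_surjective n
    exact DFunLike.congr_fun h3 c
  have e1 : ∀ (v : V) (n : Wd (Vert κ) ⧸ (⊥ : Subgroup (Wd (Vert κ)))),
      wq (cact bot_inv v n) = act (inv_univ κ) 1 v (wq n) := by
    intro v n
    obtain ⟨c, rfl⟩ := QuotientGroup.mk_surjective n
    have h3 : (wb (Vert κ)).comp (wact v : Wd (Vert κ) ≃* Wd (Vert κ)).toMonoidHom =
        (act (inv_univ κ) 1 v).toMonoidHom.comp (wb (Vert κ)) := by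
      apply wd_ext
      intro x
      show wb (Vert κ) (wact v (sgl x)) = act (inv_univ κ) 1 v (wb (Vert κ) (sgl x))
      rw [wact_single, wb_sgl, wb_sgl, act_ltr]
    exact DFunLike.congr_fun h3 c
  have e2 : ∀ (v : V) (n : Blk ({Set.univ} : Set (Set (Vert κ))) 1),
      bw (Vert κ) (act (inv_univ κ) 1 v n) = cact bot_inv v (bw (Vert κ) n) := by
    intro v n
    have h3 : (bw (Vert κ)).comp (act (inv_univ κ) 1 v).toMonoidHom =
        (cact (bot_inv (W := V) (Ω := Vert κ)) v).toMonoidHom.comp (bw (Vert κ)) := by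
      apply blk_hom_ext
      intro x
      show bw (Vert κ) (act (inv_univ κ) 1 v (ltr _ 1 x)) = cact bot_inv v (bw (Vert κ) (ltr _ 1 x))
      rw [act_ltr, bw_ltr, bw_ltr, cl_act]
    exact DFunLike.congr_fun h3 n
  let F : (Wd (Vert κ) ⧸ (⊥ : Subgroup (Wd (Vert κ)))) ⋊[cact bot_inv] V →* Tw (inv_univ κ) 1 :=
    SemidirectProduct.map wq (MonoidHom.id V) (fun v => MonoidHom.ext (e1 v))
  let F' : Tw (inv_univ κ) 1 →* (Wd (Vert κ) ⧸ (⊥ : Subgroup (Wd (Vert κ)))) ⋊[cact bot_inv] V :=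
    SemidirectProduct.map (bw (Vert κ)) (MonoidHom.id V) (fun v => MonoidHom.ext (e2 v))
  have i1 : F'.comp F = MonoidHom.id _ := by
    apply MonoidHom.ext
    intro a
    refine SemidirectProduct.ext ?_ rfl
    exact DFunLike.congr_fun h2 a.left
  have i2 : F.comp F' = MonoidHom.id _ := by
    apply MonoidHom.ext
    intro a
    refine SemidirectProduct.ext ?_ rfl
    exact DFunLike.congr_fun h1 a.left
  refine ⟨MonoidHom.toMulEquiv F F' i1 i2, ?_⟩
  intro i
  refine Fin.cases ?_ (fun i => ?_) i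
  · show F (SemidirectProduct.inl (cl ⊥ (baseV κ))) = SemidirectProduct.inl (ltr _ 1 (baseV κ))
    show SemidirectProduct.map wq (MonoidHom.id V) _ _ = _
    rw [SemidirectProduct.map_inl, hcl]
  · show F (SemidirectProduct.inr (κ i)) = SemidirectProduct.inr (κ i)
    show SemidirectProduct.map wq (MonoidHom.id V) _ _ = _
    rw [SemidirectProduct.map_inr]
    rfl

end Iso

theorem universal_congr {G G' W Γ : Type} [Group G] [Group G'] [Group W] [Group Γ] {n : ℕ}
    (σ : Fin n → G) (σ' : Fin n → G') (τ : Fin n → W) (ρ : Fin (n + 1) → Γ)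
    (h : StrIso σ σ') (h' : IsUniversal σ' τ ρ) : IsUniversal σ τ ρ where
  fv := HasFV_congr _ _ _ _ _ h ⟨MulEquiv.refl _, fun _ => rfl⟩ h'.fv
  univ := by
    intro Γ' _ ρ' h''
    obtain ⟨e, he⟩ := h
    refine h'.univ Γ' ρ' (HasFV_congr _ _ _ _ _ ⟨e.symm, ?_⟩ ⟨MulEquiv.refl _, fun _ => rfl⟩ h'')
    intro i
    rw [MulEquiv.symm_apply_eq]
    exact (he i).symm

theorem facet_crd (k : ℕ) (w : CG (k + 1)) (x : Vert (cub (k + 1)))
    (hx : x ∈ w • facetVerts (cub (k + 1))) :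
    crd (k + 1) x (w.right (Fin.last (k + 1))) = w.left (w.right (Fin.last (k + 1))) := by
  obtain ⟨y, hy, rfl⟩ := hx
  rw [mem_facetVerts] at hy
  show crd (k + 1) (w • y) _ = _
  rw [crd_smul, Pi.mul_apply, wact_apply]
  have h : (w.right)⁻¹ • (w.right (Fin.last (k + 1))) = Fin.last (k + 1) :=
    Equiv.symm_apply_apply w.right _
  rw [h, hy, mul_one]

/-- opposite vertices of the cube lie in no common facet -/
theorem cub_opp (k : ℕ) : ∃ x y : Vert (cub (k + 1)), x ≠ y ∧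
    ∀ A ∈ facetSets (cub (k + 1)), ¬ (x ∈ A ∧ y ∈ A) := by
  have key : ∀ A ∈ facetSets (cub (k + 1)), ¬ (baseV (cub (k + 1)) ∈ A ∧
      (((SemidirectProduct.inl (fun _ => z2) : CG (k + 1)) : CG (k + 1)) :
        Vert (cub (k + 1))) ∈ A) := by
    rintro _ ⟨w, rfl⟩ ⟨h1, h2⟩
    have h3 := facet_crd k w _ h1
    have h4 := facet_crd k w _ h2
    rw [crd_mk, SemidirectProduct.left_inl] at h4
    rw [crd_base] at h3
    have h5 : z2 = 1 := h4.trans h3.symm
    exact absurd h5 (by decide)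
  refine ⟨_, _, ?_, key⟩
  intro h
  have h1 := congrFun (congrArg (crd (k + 1)) h) 0
  rw [crd_mk, SemidirectProduct.left_inl, crd_base] at h1
  have h5 : (1 : C2) = z2 := h1
  exact absurd h5 (by decide)

theorem bot_cube (k : ℕ) :
    IsUniversal (codeP (cub k) (bot_inv (W := CG k) (Ω := Vert (cub k)))) (cub (k + 1))
      (uniP (cub (k + 1)) 1) ∧ Infinite (Tw (inv_facetSets (cub (k + 1))) 1) := by
  refine ⟨universal_congr _ _ _ _ (bot_iso (cub k)) (uniP_universal (cub k) (cub (k + 1)) (cemb k)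
    (cemb_gen k) (cemb_inj k) (cub_str k) (cub_str (k + 1)) 1 le_rfl), ?_⟩
  obtain ⟨x, y, hne, hxy⟩ := cub_opp k
  exact uniP_infinite (cub (k + 1)) 1 le_rfl x y hne hxy

end Pool.Agent.Helper83.UP
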