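import Pool.Agent.Helper83.UP.Cube

/-!
# Codes of words of even weight on the faces of the cube (Reed-Muller codes)
-/

namespace Pool.Agent.Helper83.UP

open Subgroup Pool.Agent.Helper23.UP
open scoped Pointwise

instance cg_finite (k : ℕ) : Finite (CG k) := by
  have h3 : Finite C2 := inferInstanceAs (Finite (ZMod 2))
  exact Finite.of_equiv (Wd (Fin (k + 1)) × Equiv.Perm (Fin (k + 1)))
    SemidirectProduct.equivProd.symm

/-- The face of the cube in which the coordinates in `T` are free and the other coordinates are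
those of `u`. -/
def face (k : ℕ) (T : Finset (Fin (k + 1))) (u : Wd (Fin (k + 1))) : Set (Vert (cub k)) :=
  {x | ∀ i, i ∉ T → crd k x i = u i}

/-- The words that have even weight on every face of dimension greater than `r`. -/
noncomputable def evC (k r : ℕ) : Subgroup (Wd (Vert (cub k))) where
  carrier := {c | ∀ (T : Finset (Fin (k + 1))) (u : Wd (Fin (k + 1))), r < T.card →
    ∏ᶠ x ∈ face k T u, c x = 1}
  one_mem' := by
    intro T u _
    exact finprod_mem_one _
  mul_mem' := by
    intro a b ha hb T u hT
    have h1 := finprod_mem_mul_distrib (s := face k T u) (f := a) (g := b) (Set.toFinite _)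
    show ∏ᶠ x ∈ face k T u, (a x * b x) = 1
    rw [h1, ha T u hT, hb T u hT, one_mul]
  inv_mem' := by
    intro a ha T u hT
    have h1 : ∀ x, (a⁻¹ : Wd (Vert (cub k))) x = a x := by
      intro x
      rw [Pi.inv_apply]
      exact inv_eq_of_mul_eq_one_left (c2_sq (a x))
    simp only [h1]
    exact ha T u hT

theorem mem_evC (k r : ℕ) (c : Wd (Vert (cub k))) : c ∈ evC k r ↔
    ∀ (T : Finset (Fin (k + 1))) (u : Wd (Fin (k + 1))), r < T.card →
      ∏ᶠ x ∈ face k T u, c x = 1 := Iff.rfl

theorem evC_inv (k r : ℕ) : CInv (CG k) (evC k r) := by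
  intro w c hc
  rw [mem_evC] at hc ⊢
  intro T u hT
  have h1 := hc (T.map (w.right⁻¹ : Equiv.Perm (Fin (k + 1))).toEmbedding)
    (fun j => (w.left (w.right j))⁻¹ * u (w.right j)) (by rwa [Finset.card_map])
  rw [← h1]
  refine finprod_mem_eq_of_bijOn (fun x => w⁻¹ • x) ⟨?_, ?_, ?_⟩ ?_
  · intro x hx j hj
    rw [crd_smul, Pi.mul_apply, wact_apply, SemidirectProduct.inv_left, SemidirectProduct.inv_right,
      wHom_apply, wact_apply, inv_inv, Pi.inv_apply]
    show (w.left (w.right j))⁻¹ * crd k x (w.right j) = _
    rw [hx (w.right j)]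
    intro h
    apply hj
    rw [Finset.mem_map]
    refine ⟨w.right j, h, ?_⟩
    exact Equiv.symm_apply_apply w.right j
  · intro x _ y _ hxy
    exact smul_left_cancel _ hxy
  · intro y hy
    refine ⟨w • y, ?_, inv_smul_smul w y⟩
    intro i hi
    rw [crd_smul, Pi.mul_apply, wact_apply]
    have h2 := hy ((w.right)⁻¹ i) (by
      intro h
      apply hi
      rw [Finset.mem_map] at h
      obtain ⟨i', hi', h3⟩ := h
      have h4 : (w.right)⁻¹ i' = (w.right)⁻¹ i := h3
      rw [← (w.right)⁻¹.injective h4]
      exact hi')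
    have h3 : w.right ((w.right)⁻¹ i) = i := Equiv.apply_symm_apply w.right i
    have h4 : (w.right)⁻¹ • i = (w.right)⁻¹ i := rfl
    rw [h4, h2]
    show w.left i * ((w.left (w.right ((w.right)⁻¹ i)))⁻¹ * u (w.right ((w.right)⁻¹ i))) = u i
    rw [h3, mul_inv_cancel_left]
  · intro x _
    rfl

theorem evC_ne_bot (k r : ℕ) : evC k r ≠ ⊥ := by
  classical
  intro h
  have h1 : (fun _ => z2 : Wd (Vert (cub k))) ∈ evC k r := by
    rw [mem_evC]
    intro T u hT
    obtain ⟨t, ht⟩ : T.Nonempty := Finset.card_pos.1 (by omega)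
    have : Fintype (Vert (cub k)) := Fintype.ofFinite _
    rw [finprod_mem_eq_finite_toFinset_prod _ (Set.toFinite _)]
    refine Finset.prod_involution (fun x _ =>
      (SemidirectProduct.inl (sgl t) : CG k) • x) ?_ ?_ ?_ ?_
    · intro x _
      exact c2_sq z2
    · intro x _ _ hx
      have h2 := congrFun (congrArg (crd k) hx) t
      rw [crd_smul, Pi.mul_apply, SemidirectProduct.left_inl, SemidirectProduct.right_inl,
        wact_one, sgl_same] at h2
      have h3 : z2 = 1 := by
        have := mul_right_cancel (h2.trans (one_mul _).symm)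
        exact this
      exact absurd h3 (by decide)
    · intro x hx
      rw [Set.Finite.mem_toFinset] at hx ⊢
      intro i hi
      have hit : i ≠ t := by
        intro h
        rw [h] at hi
        exact hi ht
      rw [crd_smul, Pi.mul_apply, SemidirectProduct.left_inl, SemidirectProduct.right_inl,
        wact_one, sgl_ne hit, one_mul]
      exact hx i hi
    · intro x _
      show (SemidirectProduct.inl (sgl t) : CG k) • (SemidirectProduct.inl (sgl t) : CG k) • x = x
      rw [← mul_smul, ← map_mul, wd_sq, map_one, one_smul]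
  rw [h, Subgroup.mem_bot] at h1
  have h2 : z2 = 1 := congrFun h1 (baseV (cub k))
  exact absurd h2 (by decide)

theorem evC_base (k r : ℕ) (hr : r < k + 1) : sgl (baseV (cub k)) ∉ evC k r := by
  classical
  intro h
  rw [mem_evC] at h
  have h1 := h Finset.univ 1 (by rwa [Finset.card_univ, Fintype.card_fin])
  have : Fintype (Vert (cub k)) := Fintype.ofFinite _
  rw [finprod_mem_eq_finite_toFinset_prod _ (Set.toFinite _),
    Finset.prod_eq_single (baseV (cub k)), sgl_same] at h1
  · exact absurd h1 (by decide)
  · intro b _ hb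
    exact sgl_ne hb
  · intro hb
    exact absurd ((Set.Finite.mem_toFinset _).2 (fun i hi => absurd (Finset.mem_univ i) hi)) hb

theorem crd_jmap (k : ℕ) (x : Vert (cub k)) :
    crd (k + 1) (jmap (cub k) (cub (k + 1)) (cemb k) (cemb_gen k) x) = sn k (crd k x) := by
  obtain ⟨g, rfl⟩ := QuotientGroup.mk_surjective x
  rfl

/-- the product of an extended word over a set -/
theorem prod_wext (k : ℕ) (c : Wd (Vert (cub k))) (S : Set (Vert (cub (k + 1)))) :
    ∏ᶠ y ∈ S, wext (cub k) (cub (k + 1)) (cemb k) (cemb_gen k) c y =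
      ∏ᶠ x ∈ jmap (cub k) (cub (k + 1)) (cemb k) (cemb_gen k) ⁻¹' S, c x := by
  have hji := jmap_inj (cub k) (cub (k + 1)) (cemb k) (cemb_gen k) (cemb_inj k) (cub_str k)
    (cub_str (k + 1))
  set j := jmap (cub k) (cub (k + 1)) (cemb k) (cemb_gen k) with hj
  have h1 : ∏ᶠ y ∈ S, wext (cub k) (cub (k + 1)) (cemb k) (cemb_gen k) c y =
      ∏ᶠ y ∈ j '' (j ⁻¹' S), wext (cub k) (cub (k + 1)) (cemb k) (cemb_gen k) c y := by
    refine finprod_mem_inter_mulSupport_eq' _ _ _ (fun y hy => ⟨fun hyS => ?_, ?_⟩)
    · obtain ⟨x, hx⟩ : ∃ x, j x = y := by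
        by_contra hcon
        push Not at hcon
        exact hy (wext_out _ _ _ _ c y hcon)
      exact ⟨x, by rw [Set.mem_preimage, hx]; exact hyS, hx⟩
    · rintro ⟨x, hx, rfl⟩
      exact hx
  rw [h1, finprod_mem_image hji.injOn]
  refine finprod_congr (fun x => ?_)
  rw [wext_range _ _ _ _ hji]

theorem span_le_evC (k r : ℕ) : spanC (cub k) (cub (k + 1)) (cemb k) (cemb_gen k) (evC k r) ≤
    evC (k + 1) (r + 1) := by
  classical
  unfold spanC
  rw [closure_le]
  rintro _ ⟨w, c, hc, rfl⟩
  apply evC_inv (k + 1) (r + 1) w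
  rw [mem_evC] at hc ⊢
  intro T u hT
  rw [prod_wext]
  by_cases hu : Fin.last (k + 1) ∈ T ∨ u (Fin.last (k + 1)) = 1
  · have h1 : jmap (cub k) (cub (k + 1)) (cemb k) (cemb_gen k) ⁻¹' face (k + 1) T u =
        face k (Finset.univ.filter (fun j => Fin.castSucc j ∈ T)) (fun j => u j.castSucc) := by
      ext x
      constructor
      · intro hx i hi
        have h2 : i.castSucc ∉ T := by
          intro h
          exact hi (Finset.mem_filter.2 ⟨Finset.mem_univ _, h⟩)
        have h3 := hx i.castSucc h2
        rwa [crd_jmap, sn_cast] at h3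
      · intro hx i
        refine Fin.lastCases ?_ (fun i => ?_) i
        · intro hi
          rw [crd_jmap, sn_last]
          rcases hu with hu | hu
          · exact absurd hu hi
          · exact hu.symm
        · intro hi
          rw [crd_jmap, sn_cast]
          refine hx i ?_
          rw [Finset.mem_filter]
          rintro ⟨_, h⟩
          exact hi h
    rw [h1]
    apply hc
    have h2 : T ⊆ insert (Fin.last (k + 1))
        ((Finset.univ.filter (fun j => Fin.castSucc j ∈ T)).map Fin.castSuccEmb) := by
      intro i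
      refine Fin.lastCases ?_ (fun i => ?_) i
      · intro _
        exact Finset.mem_insert_self _ _
      · intro hi
        refine Finset.mem_insert_of_mem (Finset.mem_map.2 ⟨i, ?_, rfl⟩)
        exact Finset.mem_filter.2 ⟨Finset.mem_univ _, hi⟩
    have h3 := Finset.card_le_card h2
    have h4 := Finset.card_insert_le (Fin.last (k + 1))
      ((Finset.univ.filter (fun j => Fin.castSucc j ∈ T)).map Fin.castSuccEmb)
    rw [Finset.card_map] at h4
    omega
  · push Not at hu
    have h1 : jmap (cub k) (cub (k + 1)) (cemb k) (cemb_gen k) ⁻¹' face (k + 1) T u = ∅ := by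
      ext x
      rw [Set.mem_empty_iff_false, iff_false]
      intro hx
      have h2 := hx _ hu.1
      rw [crd_jmap, sn_last] at h2
      exact hu.2 h2.symm
    rw [h1]
    exact finprod_mem_empty

theorem evC_crit (k r : ℕ) (c : Wd (Vert (cub k)))
    (h : wext (cub k) (cub (k + 1)) (cemb k) (cemb_gen k) c ∈
      spanC (cub k) (cub (k + 1)) (cemb k) (cemb_gen k) (evC k r)) : c ∈ evC k r := by
  classical
  have h1 := span_le_evC k r h
  rw [mem_evC] at h1 ⊢
  intro T u hT
  have h2 := h1 (insert (Fin.last (k + 1)) (T.map Fin.castSuccEmb)) (sn k u) (by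
    rw [Finset.card_insert_of_notMem, Finset.card_map]
    · omega
    · intro h
      rw [Finset.mem_map] at h
      obtain ⟨i, _, hi⟩ := h
      exact Fin.castSucc_ne_last i hi)
  rw [prod_wext] at h2
  have h3 : jmap (cub k) (cub (k + 1)) (cemb k) (cemb_gen k) ⁻¹'
      face (k + 1) (insert (Fin.last (k + 1)) (T.map Fin.castSuccEmb)) (sn k u) =
      face k T u := by
    ext x
    constructor
    · intro hx i hi
      have h4 : i.castSucc ∉ insert (Fin.last (k + 1)) (T.map Fin.castSuccEmb) := by
        intro h
        rw [Finset.mem_insert, Finset.mem_map] at h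
        rcases h with h | ⟨i', hi', h⟩
        · exact Fin.castSucc_ne_last i h
        · have h' : i' = i := Fin.castSucc_injective _ h
          rw [h'] at hi'
          exact hi hi'
      have h5 := hx _ h4
      rwa [crd_jmap, sn_cast, sn_cast] at h5
    · intro hx i
      refine Fin.lastCases ?_ (fun i => ?_) i
      · intro hi
        exact absurd (Finset.mem_insert_self _ _) hi
      · intro hi
        rw [crd_jmap, sn_cast, sn_cast]
        refine hx i ?_
        intro h
        exact hi (Finset.mem_insert_of_mem (Finset.mem_map.2 ⟨i, h, rfl⟩))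
  rw [h3] at h2
  exact h2

end Pool.Agent.Helper83.UP
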