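import Pool.Agent.Helper83.UP.CGroup

/-!
# Twisted groups `N ⋊ W` are string C-groups
-/

namespace Pool.Agent.Helper83.UP

open Subgroup Pool.Agent.Helper23.UP

variable {Ω W N : Type} [Group W] [MulAction W Ω] [Group N] {m : ℕ} (α : W →* MulAut N)
  (t : Ω → N)

/-- the distinguished generators of the twisted group: first the letter `o`, then the generators
of `W` -/
def gtw (o : Ω) (τ : Fin m → W) : Fin (m + 1) → N ⋊[α] W :=
  fun i => Fin.cases (SemidirectProduct.inl (t o)) (fun j => SemidirectProduct.inr (τ j)) i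

omit [MulAction W Ω] in
theorem gtw_zero (o : Ω) (τ : Fin m → W) :
    gtw α t o τ 0 = SemidirectProduct.inl (t o) := rfl

omit [MulAction W Ω] in
theorem gtw_succ (o : Ω) (τ : Fin m → W) (j : Fin m) :
    gtw α t o τ j.succ = SemidirectProduct.inr (τ j) := rfl

variable (hact : ∀ (w : W) (x : Ω), α w (t x) = t (w • x))

include hact in
/-- conjugating a letter -/
theorem gtw_conj (w : W) (x : Ω) :
    (SemidirectProduct.inr w : N ⋊[α] W) * SemidirectProduct.inl (t x) *
      (SemidirectProduct.inr w)⁻¹ = SemidirectProduct.inl (t (w • x)) := by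
  rw [← hact w x, SemidirectProduct.inl_aut, map_inv]

variable (hgen : closure (Set.range t) = ⊤)

include hact hgen in
/-- a subgroup containing the letter `o` and the group `W` is everything -/
theorem gtw_top (o : Ω) (htr : ∀ x : Ω, ∃ w : W, x = w • o) (K : Subgroup (N ⋊[α] W))
    (h1 : SemidirectProduct.inl (t o) ∈ K) (h2 : ∀ w : W, SemidirectProduct.inr w ∈ K) :
    K = ⊤ := by
  rw [eq_top_iff]
  intro g _
  have h3 : ∀ x, (SemidirectProduct.inl (t x) : N ⋊[α] W) ∈ K := by
    intro x
    obtain ⟨w, rfl⟩ := htr x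
    rw [← gtw_conj α t hact]
    exact K.mul_mem (K.mul_mem (h2 w) h1) (K.inv_mem (h2 w))
  have h4 : ∀ n : N, (SemidirectProduct.inl n : N ⋊[α] W) ∈ K := by
    intro n
    have : n ∈ closure (Set.range t) := by
      rw [hgen]
      exact mem_top n
    have h5 : closure (Set.range t) ≤ K.comap (SemidirectProduct.inl : N →* N ⋊[α] W) := by
      rw [closure_le]
      rintro _ ⟨x, rfl⟩
      exact h3 x
    exact h5 this
  have h5 : g = SemidirectProduct.inl g.left * SemidirectProduct.inr g.right :=
    (SemidirectProduct.inl_left_mul_inr_right g).symm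
  rw [h5]
  exact K.mul_mem (h4 _) (h2 _)

theorem inter_inr' (τ : Fin m → W) (hτ : IsStringC τ) :
    Inter (fun i => (SemidirectProduct.inr (τ i) : N ⋊[α] W)) := by
  intro I J
  have h := par_map (SemidirectProduct.inr : W →* N ⋊[α] W) τ
  rw [← h I, ← h J, ← h (I ∩ J), ← hτ.inter I J,
    Subgroup.map_inf _ _ _ SemidirectProduct.inr_injective]

include hact hgen in
theorem gtw_str (hsq : ∀ x, t x * t x = 1) (o : Ω) (hne : t o ≠ 1) (τ : Fin m → W)
    (hτ : IsStringC τ) (hfix : ∀ i : Fin m, (i : ℕ) ≠ 0 → τ i • o = o)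
    (htr : ∀ x : Ω, ∃ w : W, x = w • o) : IsStringC (gtw α t o τ) := by
  have hcomm : ∀ i j : Fin (m + 1), (i : ℕ) + 2 ≤ j →
      gtw α t o τ i * gtw α t o τ j = gtw α t o τ j * gtw α t o τ i := by
    intro i j hij
    refine Fin.cases ?_ (fun i => ?_) i (motive := fun i => (i : ℕ) + 2 ≤ j →
      gtw α t o τ i * gtw α t o τ j = gtw α t o τ j * gtw α t o τ i) hij
    · refine Fin.cases ?_ (fun j => ?_) j (motive := fun j => ((0 : Fin (m + 1)) : ℕ) + 2 ≤ j →
        gtw α t o τ 0 * gtw α t o τ j = gtw α t o τ j * gtw α t o τ 0)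
      · intro h
        simp at h
      · intro h
        rw [gtw_zero, gtw_succ]
        have hj : (j : ℕ) ≠ 0 := by
          simp only [Fin.val_zero, Fin.val_succ] at h
          omega
        have h1 := gtw_conj α t hact (τ j) o
        rw [hfix j hj, mul_inv_eq_iff_eq_mul] at h1
        exact h1.symm
    · refine Fin.cases ?_ (fun j => ?_) j (motive := fun j => (i.succ : ℕ) + 2 ≤ j →
        gtw α t o τ i.succ * gtw α t o τ j = gtw α t o τ j * gtw α t o τ i.succ)
      · intro h
        simp at h
      · intro h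
        rw [gtw_succ, gtw_succ, ← map_mul, ← map_mul, hτ.comm i j]
        simp only [Fin.val_succ] at h
        omega
  refine ⟨?_, ?_, hcomm, ?_, ?_⟩
  · intro i
    refine Fin.cases ?_ (fun j => ?_) i
    · rw [gtw_zero, ← map_mul, hsq, map_one]
    · rw [gtw_succ, ← map_mul, hτ.sq, map_one]
  · intro i
    refine Fin.cases ?_ (fun j => ?_) i
    · rw [gtw_zero]
      intro h
      rw [← map_one (SemidirectProduct.inl : N →* N ⋊[α] W)] at h
      exact hne (SemidirectProduct.inl_injective h)
    · rw [gtw_succ]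
      intro h
      rw [← map_one (SemidirectProduct.inr : W →* N ⋊[α] W)] at h
      exact hτ.ne j (SemidirectProduct.inr_injective h)
  · refine gtw_top α t hact hgen o htr _ ?_ ?_
    · exact mem_par (gtw α t o τ) (i := 0) (Set.mem_univ _)
    · intro w
      have h1 : w ∈ par τ Set.univ := by
        rw [hτ.gen]
        exact mem_top w
      have h2 : par τ Set.univ ≤ (par (gtw α t o τ) Set.univ).comap
          (SemidirectProduct.inr : W →* N ⋊[α] W) := by
        unfold par
        rw [closure_le]
        rintro _ ⟨i, _, rfl⟩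
        exact mem_par (gtw α t o τ) (i := i.succ) (Set.mem_univ _)
      exact h2 h1
  · have h1 : Inter (gtw α t o τ) := by
      refine inter_of_twist (SemidirectProduct.rightHom : N ⋊[α] W →* W) m _ hcomm ?_ ?_
        (inter_inr' α τ hτ)
      · rw [gtw_zero, SemidirectProduct.rightHom_inl]
      · intro x hx hx1
        have h2 : par (gtw α t o τ) {i | i ≠ 0} ≤
            (SemidirectProduct.inr : W →* N ⋊[α] W).range := by
          unfold par
          rw [closure_le]
          rintro _ ⟨i, hi, rfl⟩
          obtain ⟨j, rfl⟩ := Fin.exists_succ_eq.2 hi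
          exact ⟨τ j, rfl⟩
        obtain ⟨w, rfl⟩ := h2 hx
        rw [SemidirectProduct.rightHom_inr] at hx1
        rw [hx1, map_one]
    intro I J
    refine le_antisymm (h1 I J) (le_inf ?_ ?_)
    · exact par_mono _ Set.inter_subset_left
    · exact par_mono _ Set.inter_subset_right

end Pool.Agent.Helper83.UP
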