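import Mathlib

/-!
# Nilpotent groups: simple commutators in generators, finiteness
-/

namespace Pool.Agent.Helper83.UP

open Subgroup
open scoped commutatorElement

/-- simple commutators of weight `k + 1` in the elements of `S` -/
def sc {G : Type} [Group G] (S : Set G) : ℕ → Set G
  | 0 => S
  | k + 1 => {x | ∃ a ∈ sc S k, ∃ s ∈ S, x = ⁅a, s⁆}

theorem sc_map {G H : Type} [Group G] [Group H] (f : G →* H) (S : Set G) :
    ∀ (k : ℕ) (x : H), x ∈ sc (f '' S) k → ∃ y ∈ sc S k, f y = x
  | 0, x, hx => by
    obtain ⟨y, hy, rfl⟩ := hx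
    exact ⟨y, hy, rfl⟩
  | k + 1, x, hx => by
    obtain ⟨a, ha, s, ⟨s', hs', rfl⟩, rfl⟩ := hx
    obtain ⟨a', ha', rfl⟩ := sc_map f S k a ha
    exact ⟨⁅a', s'⁆, ⟨a', ha', s', hs', rfl⟩, map_commutatorElement f a' s'⟩

theorem closure_image_mk {G : Type} [Group G] (N : Subgroup G) [N.Normal] (S : Set G)
    (hS : closure S = ⊤) : closure (QuotientGroup.mk' N '' S) = ⊤ := by
  rw [← MonoidHom.map_closure, hS, ← MonoidHom.range_eq_map,
    MonoidHom.range_eq_top.2 (QuotientGroup.mk'_surjective N)]

theorem lcs_le_ker {G : Type} [Group G] (N : Subgroup G) [N.Normal] (c : ℕ)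
    (h : (⊤ : Subgroup (G ⧸ N)).lowerCentralSeries c = ⊥) :
    (⊤ : Subgroup G).lowerCentralSeries c ≤ N := by
  have h1 : ((⊤ : Subgroup G).lowerCentralSeries c).map (QuotientGroup.mk' N) = ⊥ := by
    rw [map_lowerCentralSeries, ← MonoidHom.range_eq_map,
      MonoidHom.range_eq_top.2 (QuotientGroup.mk'_surjective N), h]
  rw [Subgroup.map_eq_bot_iff, QuotientGroup.ker_mk'] at h1
  exact h1

/-- A group is nilpotent of class at most `c` if all simple commutators of weight `c + 1` in a
generating set vanish. -/
theorem lcs_bot_of_sc : ∀ (c : ℕ) (G : Type) [Group G] (S : Set G), closure S = ⊤ →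
    (∀ a ∈ sc S c, a = 1) → (⊤ : Subgroup G).lowerCentralSeries c = ⊥
  | 0, G, _, S, hS, h => by
    rw [Subgroup.lowerCentralSeries_zero, ← hS, eq_bot_iff, closure_le]
    intro a ha
    exact h a ha
  | c + 1, G, _, S, hS, h => by
    have hcen : ∀ a ∈ sc S c, a ∈ center G := by
      intro a ha
      rw [Subgroup.mem_center_iff]
      intro g
      have h1 : closure S ≤ Subgroup.centralizer {a} := by
        rw [closure_le]
        intro s hs
        rw [SetLike.mem_coe, Subgroup.mem_centralizer_iff]
        intro y hy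
        rw [Set.mem_singleton_iff] at hy
        subst hy
        have h2 := h _ ⟨y, ha, s, hs, rfl⟩
        rw [commutatorElement_eq_one_iff_mul_comm] at h2
        exact h2
      have h2 : g ∈ Subgroup.centralizer {a} := h1 (hS ▸ Subgroup.mem_top g)
      rw [Subgroup.mem_centralizer_iff] at h2
      exact (h2 a rfl).symm
    have h1 : (⊤ : Subgroup (G ⧸ center G)).lowerCentralSeries c = ⊥ := by
      refine lcs_bot_of_sc c (G ⧸ center G) (QuotientGroup.mk' (center G) '' S)
        (closure_image_mk _ S hS) ?_
      intro a ha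
      obtain ⟨y, hy, rfl⟩ := sc_map _ S c a ha
      rw [QuotientGroup.mk'_apply, QuotientGroup.eq_one_iff]
      exact hcen y hy
    have h2 := lcs_le_ker (center G) c h1
    rw [Subgroup.lowerCentralSeries_succ, commutator_eq_bot_iff_le_centralizer, coe_top,
      centralizer_univ]
    exact h2

/-- A simple commutator of weight `k + 1` involves at most `k + 1` letters. -/
theorem sc_letters {Ω G : Type} [Group G] (t : Ω → G) :
    ∀ (k : ℕ) (a : G), a ∈ sc (Set.range t) k →
      ∃ F : Finset Ω, F.card ≤ k + 1 ∧ a ∈ (closure (t '' (F : Set Ω))).lowerCentralSeries k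
  | 0, a, ha => by
    obtain ⟨x, rfl⟩ := ha
    refine ⟨{x}, by simp, ?_⟩
    rw [Subgroup.lowerCentralSeries_zero]
    exact subset_closure ⟨x, by simp, rfl⟩
  | k + 1, a, ha => by
    classical
    obtain ⟨b, hb, s, ⟨x, rfl⟩, rfl⟩ := ha
    obtain ⟨F, hF, hbF⟩ := sc_letters t k b hb
    refine ⟨insert x F, ?_, ?_⟩
    · have := Finset.card_insert_le x F
      omega
    · rw [Subgroup.lowerCentralSeries_succ]
      refine commutator_mem_commutator ?_ (subset_closure ⟨x, by simp, rfl⟩)
      have hmono : closure (t '' (F : Set Ω)) ≤ closure (t '' ((insert x F : Finset Ω) : Set Ω)) :=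
        closure_mono (Set.image_mono (by simp))
      exact lowerCentralSeries_mono k hmono hbF

theorem finite_commutatorSet {G : Type} [Group G] [Finite (G ⧸ center G)] :
    Finite (commutatorSet G) := by
  have h : commutatorSet G ⊆ Set.range (fun p : (G ⧸ center G) × (G ⧸ center G) =>
      ⁅p.1.out, p.2.out⁆) := by
    rintro _ ⟨a, b, rfl⟩
    refine ⟨((a : G ⧸ center G), (b : G ⧸ center G)), ?_⟩
    have key : ∀ g : G, ∃ z ∈ center G, g = (g : G ⧸ center G).out * z := by
      intro g
      refine ⟨(g : G ⧸ center G).out⁻¹ * g, ?_, by group⟩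
      rw [← QuotientGroup.eq]
      exact QuotientGroup.out_eq' _
    obtain ⟨z, hz, hza⟩ := key a
    obtain ⟨w, hw, hwb⟩ := key b
    rw [Subgroup.mem_center_iff] at hz hw
    show ⁅((a : G ⧸ center G)).out, ((b : G ⧸ center G)).out⁆ = ⁅a, b⁆
    conv_rhs => rw [hza, hwb]
    rw [commutatorElement_def, commutatorElement_def]
    set x := ((a : G ⧸ center G)).out
    set y := ((b : G ⧸ center G)).out
    have e1 : x * z * (y * w) * (x * z)⁻¹ * (y * w)⁻¹ = x * y * x⁻¹ * y⁻¹ := by
      have h1 : x * z * (y * w) = x * y * (z * w) := by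
        calc x * z * (y * w) = x * (z * y) * w := by simp only [mul_assoc]
          _ = x * (y * z) * w := by rw [hz y]
          _ = x * y * (z * w) := by simp only [mul_assoc]
      have h2 : (x * z)⁻¹ * (y * w)⁻¹ = (z * w)⁻¹ * (x⁻¹ * y⁻¹) := by
        have h3 : y * w * (x * z) = y * x * (z * w) := by
          calc y * w * (x * z) = y * (w * x) * z := by simp only [mul_assoc]
            _ = y * (x * w) * z := by rw [hw x]
            _ = y * x * (w * z) := by simp only [mul_assoc]
            _ = y * x * (z * w) := by rw [hw z]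
        rw [← mul_inv_rev, h3, mul_inv_rev, mul_inv_rev y x]
      have h4 : ∀ g : G, (z * w) * g = g * (z * w) := by
        intro g
        calc z * w * g = z * (w * g) := by simp only [mul_assoc]
          _ = z * (g * w) := by rw [hw g]
          _ = (z * g) * w := by simp only [mul_assoc]
          _ = (g * z) * w := by rw [hz g]
          _ = g * (z * w) := by simp only [mul_assoc]
      calc x * z * (y * w) * (x * z)⁻¹ * (y * w)⁻¹
          = (x * z * (y * w)) * ((x * z)⁻¹ * (y * w)⁻¹) := by simp only [mul_assoc]
        _ = x * y * (z * w) * ((z * w)⁻¹ * (x⁻¹ * y⁻¹)) := by rw [h1, h2]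
        _ = x * y * x⁻¹ * y⁻¹ := by group
    exact e1.symm
  exact Set.Finite.subset (Set.finite_range _) h

theorem tor_ab {G : Type} [Group G] (S : Set G) (hS : closure S = ⊤)
    (hord : ∀ s ∈ S, IsOfFinOrder s) (x : Abelianization G) : IsOfFinOrder x := by
  have hx : x ∈ closure (Abelianization.of '' S) := by
    rw [← MonoidHom.map_closure, hS, ← MonoidHom.range_eq_map]
    obtain ⟨y, hy⟩ := QuotientGroup.mk_surjective x
    exact ⟨y, hy⟩
  induction hx using Subgroup.closure_induction with
  | mem y hy =>
    obtain ⟨s, hs, rfl⟩ := hy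
    exact MonoidHom.isOfFinOrder _ (hord s hs)
  | one => exact IsOfFinOrder.one
  | mul a b _ _ ha hb => exact ha.mul hb
  | inv a _ ha => exact ha.inv

/-- A nilpotent group generated by finitely many elements of finite order is finite. -/
theorem finite_of_lcs : ∀ (c : ℕ) (G : Type) [Group G] (S : Set G), closure S = ⊤ → S.Finite →
    (∀ s ∈ S, IsOfFinOrder s) → (⊤ : Subgroup G).lowerCentralSeries c = ⊥ → Finite G
  | 0, G, _, S, _, _, _, h => by
    rw [Subgroup.lowerCentralSeries_zero] at h
    have : Subsingleton G := by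
      constructor
      intro a b
      have ha : a ∈ (⊥ : Subgroup G) := h ▸ Subgroup.mem_top a
      have hb : b ∈ (⊥ : Subgroup G) := h ▸ Subgroup.mem_top b
      rw [Subgroup.mem_bot] at ha hb
      rw [ha, hb]
    infer_instance
  | c + 1, G, _, S, hS, hfin, hord, h => by
    have hL : (⊤ : Subgroup G).lowerCentralSeries c ≤ center G := by
      rw [Subgroup.lowerCentralSeries_succ, commutator_eq_bot_iff_le_centralizer, coe_top,
        centralizer_univ] at h
      exact h
    have h1 : (⊤ : Subgroup (G ⧸ center G)).lowerCentralSeries c = ⊥ := by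
      have : ((⊤ : Subgroup G).lowerCentralSeries c).map (QuotientGroup.mk' (center G)) = ⊥ := by
        rw [Subgroup.map_eq_bot_iff, QuotientGroup.ker_mk']
        exact hL
      rwa [map_lowerCentralSeries, ← MonoidHom.range_eq_map,
        MonoidHom.range_eq_top.2 (QuotientGroup.mk'_surjective _)] at this
    have h2 : Finite (G ⧸ center G) := by
      refine finite_of_lcs c (G ⧸ center G) (QuotientGroup.mk' (center G) '' S)
        (closure_image_mk _ S hS) (hfin.image _) ?_ h1
      rintro _ ⟨s, hs, rfl⟩
      exact MonoidHom.isOfFinOrder _ (hord s hs)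
    have h3 : Finite (commutatorSet G) := finite_commutatorSet
    have h4 : Finite (_root_.commutator G) := inferInstance
    have h5 : Finite (Abelianization G) := by
      have hfg : Group.FG G := by
        rw [Group.fg_iff]
        exact ⟨S, hS, hfin⟩
      have hfg' : Group.FG (Abelianization G) :=
        Group.fg_of_surjective (f := Abelianization.of) (fun y => QuotientGroup.mk_surjective y)
      have htor : IsMulTorsion (Abelianization G) := by
        intro x
        exact tor_ab S hS hord x
      exact CommGroup.finite_of_fg_isMulTorsion _ htor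
    have h6 : Finite (G ⧸ _root_.commutator G) := h5
    exact Finite.of_equiv _ (Subgroup.groupEquivQuotientProdSubgroup (s := _root_.commutator G)).symm

end Pool.Agent.Helper83.UP
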