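import Pool.Agent.Helper83.UP.DihFV

/-!
# Symmetric generating sets of involutions
-/

namespace Pool.Agent.Helper83.UP

open Subgroup Pool.Agent.Helper23.UP

variable {q k : ℕ} {H : Type} [Group H]

/-- the letters: the conjugates of `r` under the symmetric group -/
def lt (r : H) (ψ : Equiv.Perm (Fin (k + 1)) →* H) (x : Fin (k + 1)) : H :=
  ψ (Equiv.swap 0 x) * r * (ψ (Equiv.swap 0 x))⁻¹

variable (r : H) (ψ : Equiv.Perm (Fin (k + 1)) →* H) (hr : r * r = 1)
  (hc : ∀ w : Equiv.Perm (Fin (k + 1)), w 0 = 0 → ψ w * r = r * ψ w)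

theorem lt_zero : lt r ψ 0 = r := by
  unfold lt
  rw [Equiv.swap_self]
  show ψ 1 * r * (ψ 1)⁻¹ = r
  rw [map_one, one_mul, inv_one, mul_one]

include hc in
theorem lt_eq (w : Equiv.Perm (Fin (k + 1))) : ψ w * r * (ψ w)⁻¹ = lt r ψ (w 0) := by
  unfold lt
  have h1 : ((Equiv.swap 0 (w 0))⁻¹ * w) 0 = 0 := by
    rw [Equiv.Perm.mul_apply, Equiv.Perm.inv_eq_iff_eq, Equiv.swap_apply_left]
  have h2 := hc _ h1
  have h3 : ψ w = ψ (Equiv.swap 0 (w 0)) * ψ ((Equiv.swap 0 (w 0))⁻¹ * w) := by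
    rw [← map_mul]
    congr 1
    group
  rw [h3]
  set a := ψ (Equiv.swap 0 (w 0))
  set b := ψ ((Equiv.swap 0 (w 0))⁻¹ * w)
  calc a * b * r * (a * b)⁻¹ = a * (b * r) * b⁻¹ * a⁻¹ := by group
    _ = a * (r * b) * b⁻¹ * a⁻¹ := by rw [h2]
    _ = a * r * a⁻¹ := by group

include hc in
theorem lt_conj (w : Equiv.Perm (Fin (k + 1))) (x : Fin (k + 1)) :
    ψ w * lt r ψ x * (ψ w)⁻¹ = lt r ψ (w x) := by
  have h := lt_eq r ψ hc (w * Equiv.swap 0 x)
  rw [Equiv.Perm.mul_apply, Equiv.swap_apply_left, map_mul, mul_inv_rev] at h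
  rw [← h]
  unfold lt
  simp only [mul_assoc]

include hr in
theorem lt_sq (x : Fin (k + 1)) : lt r ψ x * lt r ψ x = 1 := by
  unfold lt
  calc ψ (Equiv.swap 0 x) * r * (ψ (Equiv.swap 0 x))⁻¹ *
        (ψ (Equiv.swap 0 x) * r * (ψ (Equiv.swap 0 x))⁻¹)
      = ψ (Equiv.swap 0 x) * (r * r) * (ψ (Equiv.swap 0 x))⁻¹ := by group
    _ = 1 := by rw [hr]; group

variable (hab : ∀ x y z w, Commute (lt r ψ x * lt r ψ y) (lt r ψ z * lt r ψ w))
  (hpow : ∀ x y, (lt r ψ x * lt r ψ y) ^ q = 1)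

/-- the homomorphism from the generalised dihedral group -/
def phi : Dih q k →* H := dlift (lt r ψ) (lt_sq r ψ hr) hab hpow

theorem phi_el (x : Fin (k + 1)) : phi r ψ hr hab hpow (el q k x) = lt r ψ x :=
  dlift_el _ _ _ _ x

include hc in
theorem phi_act (w : Equiv.Perm (Fin (k + 1))) (n : Dih q k) :
    phi r ψ hr hab hpow (dact q k w n) = ψ w * phi r ψ hr hab hpow n * (ψ w)⁻¹ := by
  have h : (phi r ψ hr hab hpow).comp (dact q k w).toMonoidHom =
      (MulAut.conj (ψ w)).toMonoidHom.comp (phi r ψ hr hab hpow) := by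
    apply dih_ext
    intro x
    show phi r ψ hr hab hpow (dact q k w (el q k x)) =
      ψ w * phi r ψ hr hab hpow (el q k x) * (ψ w)⁻¹
    rw [dact_el, phi_el, phi_el, lt_conj r ψ hc]
  exact DFunLike.congr_fun h n

/-- the homomorphism from the twisted group -/
def Phi : DU q k →* H :=
  SemidirectProduct.lift (phi r ψ hr hab hpow) ψ
    (fun w => MonoidHom.ext (fun n => phi_act r ψ hr hc hab hpow w n))

theorem Phi_zero : Phi r ψ hr hc hab hpow (dgen q k 0) = r := by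
  show Phi r ψ hr hc hab hpow (SemidirectProduct.inl (el q k 0)) = r
  unfold Phi
  rw [SemidirectProduct.lift_inl, phi_el, lt_zero]

theorem Phi_succ (i : Fin k) : Phi r ψ hr hc hab hpow (dgen q k i.succ) = ψ (smp k i) :=
  SemidirectProduct.lift_inr _ _ _ _

end Pool.Agent.Helper83.UP
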