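import Pool.Agent.Helper83.UP.Blk
import Pool.Agent.Helper83.UP.CGroup

/-!
# Twisted groups `Blk F c ⋊ W` are string C-groups
-/

namespace Pool.Agent.Helper83.UP

open Subgroup Pool.Agent.Helper23.UP
open scoped commutatorElement Pointwise

variable {Ω W : Type} [Group W] [MulAction W Ω] {m : ℕ}

/-- the semidirect product of the block group with the group acting on the letters -/
abbrev Tw {F : Set (Set Ω)} (hF : Inv W F) (c : ℕ) : Type := Blk F c ⋊[act hF c] W

/-- the distinguished generators: first the letter `o`, then the generators of `W` -/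
def twGen {F : Set (Set Ω)} (hF : Inv W F) (c : ℕ) (o : Ω) (τ : Fin m → W) :
    Fin (m + 1) → Tw hF c :=
  fun i => Fin.cases (SemidirectProduct.inl (ltr F c o)) (fun j => SemidirectProduct.inr (τ j)) i

theorem twGen_zero {F : Set (Set Ω)} (hF : Inv W F) (c : ℕ) (o : Ω) (τ : Fin m → W) :
    twGen hF c o τ 0 = SemidirectProduct.inl (ltr F c o) := rfl

theorem twGen_succ {F : Set (Set Ω)} (hF : Inv W F) (c : ℕ) (o : Ω) (τ : Fin m → W)
    (j : Fin m) : twGen hF c o τ j.succ = SemidirectProduct.inr (τ j) := rfl

/-- conjugating a letter -/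
theorem tw_conj {F : Set (Set Ω)} (hF : Inv W F) (c : ℕ) (w : W) (x : Ω) :
    (SemidirectProduct.inr w : Tw hF c) * SemidirectProduct.inl (ltr F c x) *
      (SemidirectProduct.inr w)⁻¹ = SemidirectProduct.inl (ltr F c (w • x)) := by
  rw [← act_ltr hF c w x, SemidirectProduct.inl_aut, map_inv]

/-- a subgroup containing the letter `o` and the group `W` is everything -/
theorem tw_top {F : Set (Set Ω)} (hF : Inv W F) (c : ℕ) (o : Ω)
    (htr : ∀ x : Ω, ∃ w : W, x = w • o) (K : Subgroup (Tw hF c))
    (h1 : SemidirectProduct.inl (ltr F c o) ∈ K) (h2 : ∀ w : W, SemidirectProduct.inr w ∈ K) :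
    K = ⊤ := by
  rw [eq_top_iff]
  intro g _
  have h3 : ∀ x, (SemidirectProduct.inl (ltr F c x) : Tw hF c) ∈ K := by
    intro x
    obtain ⟨w, rfl⟩ := htr x
    rw [← tw_conj]
    exact K.mul_mem (K.mul_mem (h2 w) h1) (K.inv_mem (h2 w))
  have h4 : ∀ n : Blk F c, (SemidirectProduct.inl n : Tw hF c) ∈ K := by
    intro n
    have : n ∈ closure (Set.range (ltr F c)) := by
      rw [ltr_closure]
      exact mem_top n
    have h5 : closure (Set.range (ltr F c)) ≤
        K.comap (SemidirectProduct.inl : Blk F c →* Tw hF c) := by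
      rw [closure_le]
      rintro _ ⟨x, rfl⟩
      exact h3 x
    exact h5 this
  have h5 : g = SemidirectProduct.inl g.left * SemidirectProduct.inr g.right :=
    (SemidirectProduct.inl_left_mul_inr_right g).symm
  rw [h5]
  exact K.mul_mem (h4 _) (h2 _)

theorem inter_inr {F : Set (Set Ω)} (hF : Inv W F) (c : ℕ) (τ : Fin m → W) (hτ : IsStringC τ) :
    Inter (fun i => (SemidirectProduct.inr (τ i) : Tw hF c)) := by
  intro I J
  have h := par_map (SemidirectProduct.inr : W →* Tw hF c) τ
  rw [← h I, ← h J, ← h (I ∩ J), ← hτ.inter I J,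
    Subgroup.map_inf _ _ _ SemidirectProduct.inr_injective]

theorem tw_str {F : Set (Set Ω)} (hF : Inv W F) (c : ℕ) (hc : 1 ≤ c) (o : Ω) (τ : Fin m → W)
    (hτ : IsStringC τ) (hfix : ∀ i : Fin m, (i : ℕ) ≠ 0 → τ i • o = o)
    (htr : ∀ x : Ω, ∃ w : W, x = w • o) : IsStringC (twGen hF c o τ) := by
  have hcomm : ∀ i j : Fin (m + 1), (i : ℕ) + 2 ≤ j →
      twGen hF c o τ i * twGen hF c o τ j = twGen hF c o τ j * twGen hF c o τ i := by
    intro i j hij
    refine Fin.cases ?_ (fun i => ?_) i (motive := fun i => (i : ℕ) + 2 ≤ j →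
      twGen hF c o τ i * twGen hF c o τ j = twGen hF c o τ j * twGen hF c o τ i) hij
    · refine Fin.cases ?_ (fun j => ?_) j (motive := fun j => ((0 : Fin (m + 1)) : ℕ) + 2 ≤ j →
        twGen hF c o τ 0 * twGen hF c o τ j = twGen hF c o τ j * twGen hF c o τ 0)
      · intro h
        simp at h
      · intro h
        rw [twGen_zero, twGen_succ]
        have hj : (j : ℕ) ≠ 0 := by
          simp only [Fin.val_zero, Fin.val_succ] at h
          omega
        have h1 := tw_conj hF c (τ j) o
        rw [hfix j hj, mul_inv_eq_iff_eq_mul] at h1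
        exact h1.symm
    · refine Fin.cases ?_ (fun j => ?_) j (motive := fun j => (i.succ : ℕ) + 2 ≤ j →
        twGen hF c o τ i.succ * twGen hF c o τ j = twGen hF c o τ j * twGen hF c o τ i.succ)
      · intro h
        simp at h
      · intro h
        rw [twGen_succ, twGen_succ, ← map_mul, ← map_mul, hτ.comm i j]
        simp only [Fin.val_succ] at h
        omega
  refine ⟨?_, ?_, hcomm, ?_, ?_⟩
  · intro i
    refine Fin.cases ?_ (fun j => ?_) i
    · rw [twGen_zero, ← map_mul, ltr_sq, map_one]
    · rw [twGen_succ, ← map_mul, hτ.sq, map_one]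
  · intro i
    refine Fin.cases ?_ (fun j => ?_) i
    · rw [twGen_zero]
      intro h
      rw [← map_one (SemidirectProduct.inl : Blk F c →* Tw hF c)] at h
      exact ltr_ne_one F c hc o (SemidirectProduct.inl_injective h)
    · rw [twGen_succ]
      intro h
      rw [← map_one (SemidirectProduct.inr : W →* Tw hF c)] at h
      exact hτ.ne j (SemidirectProduct.inr_injective h)
  · refine tw_top hF c o htr _ ?_ ?_
    · exact mem_par (twGen hF c o τ) (i := 0) (Set.mem_univ _)
    · intro w
      have h1 : w ∈ par τ Set.univ := by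
        rw [hτ.gen]
        exact mem_top w
      have h2 : par τ Set.univ ≤ (par (twGen hF c o τ) Set.univ).comap
          (SemidirectProduct.inr : W →* Tw hF c) := by
        unfold par
        rw [closure_le]
        rintro _ ⟨i, _, rfl⟩
        exact mem_par (twGen hF c o τ) (i := i.succ) (Set.mem_univ _)
      exact h2 h1
  · have h1 : Inter (twGen hF c o τ) := by
      refine inter_of_twist (SemidirectProduct.rightHom : Tw hF c →* W) m _ hcomm ?_ ?_
        (inter_inr hF c τ hτ)
      · rw [twGen_zero, SemidirectProduct.rightHom_inl]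
      · intro x hx hx1
        have h2 : par (twGen hF c o τ) {i | i ≠ 0} ≤
            (SemidirectProduct.inr : W →* Tw hF c).range := by
          unfold par
          rw [closure_le]
          rintro _ ⟨i, hi, rfl⟩
          obtain ⟨j, rfl⟩ := Fin.exists_succ_eq.2 hi
          exact ⟨τ j, rfl⟩
        obtain ⟨w, rfl⟩ := h2 hx
        rw [SemidirectProduct.rightHom_inr] at hx1
        rw [hx1, map_one]
    intro I J
    refine le_antisymm (h1 I J) (le_inf ?_ ?_)
    · exact par_mono _ Set.inter_subset_left
    · exact par_mono _ Set.inter_subset_right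

end Pool.Agent.Helper83.UP
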